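import Pool.Agent.H59.L.S8.H176.DT.B9

/-!
# The local rings of defectless extensions are regular
-/

set_option autoImplicit false
set_option linter.unusedVariables false
set_option linter.unusedSectionVars false

universe u

namespace Pool.Agent.H176.DT

open Pool.Agent.W418.LU2 IsLocalRing

section main

variable {E F : Type u} [Field E] [Field F] [Algebra E F] {V : ValuationSubring F} {q r s : ℕ}
  {t : Fin q → F} {ee : Fin q → ℕ} {b : Fin r → F} {ff : Fin r → ℕ}
  {x : Fin s → E} {C : Subring E} {τ : Fin q → F} {Y : Fin s → F}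
  {K : Finset ((Fin s → ℤ) × (Fin q → ℤ))}

/-- The regularity of the local rings of defectless extensions. -/
theorem bas_reg (hadj : S_adj.{u}) (halg : S_alg.{u}) (hmap : S_map.{u}) (hext : S_ext.{u})
    (hcut : S_cut.{u})
    (D : Dat (E := E) V t ee b ff x C τ Y K)
    (hreg : RegP (V.comap (algebraMap E F)).toSubring
      (lo (V.comap (algebraMap E F)).toSubring C) x)
    (hxu : ∀ i, (x i)⁻¹ ∉ (V.comap (algebraMap E F)).toSubring)
    (hCE : ∀ a : E, ∃ b ∈ C, b ≠ 0 ∧ a * b ∈ C)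
    (hKx : ∀ i, ((Pi.single i 1 : Fin s → ℤ), (0 : Fin q → ℤ)) ∈ K)
    {u : Fin q → E} (hu : ∀ i, u i ∈ lo (V.comap (algebraMap E F)).toSubring C)
    {cw : Fin q → ((i : Fin q) → Fin (ee i)) × ((j : Fin r) → Fin (ff j)) → E}
    (hcw : ∀ i, Good x C V t K (cw i)) (hτw : ∀ i, τ i = algebraMap E F (u i) * el t b (cw i))
    {h : ∀ j, Fin (ff j) → MvPolynomial (Fin r) E}
    (hsupp : ∀ j l, h j l ∈ MvPolynomial.supported E {i | i < j})
    (hh : ∀ j l m, (h j l).coeff m ∈ lo (V.comap (algebraMap E F)).toSubring C)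
    {cc : Fin r → ((i : Fin q) → Fin (ee i)) × ((j : Fin r) → Fin (ff j)) → E}
    (hcc : ∀ j, Good x C V t K (cc j))
    (hc1 : ∀ j p, V.valuation (algebraMap E F (cc j p) * ∏ i, t i ^ (p.1 i : ℕ)) < 1)
    (hbc : ∀ j, b j ^ ff j + ∑ l, MvPolynomial.aeval b (h j l) * b j ^ (l : ℕ) =
      el t b (cc j))
    (hval : ∀ j, V.valuation (b j ^ ff j +
      ∑ l, MvPolynomial.aeval b (h j l) * b j ^ (l : ℕ)) < 1)
    (hfr : ∀ z : F, ∃ a c : MvPolynomial (TT r q s) E, ph (E := E) (yy b τ Y) c ≠ 0 ∧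
      z * ph (E := E) (yy b τ Y) c = ph (E := E) (yy b τ Y) a)
    (htr : Algebra.trdeg E F = 0) :
    RegP V.toSubring (lo V.toSubring (Subring.closure
      ((C.map (algebraMap E F) : Set F) ∪ Set.range (yy b τ Y)))) Y := by
  classical
  obtain ⟨e, he0, heC, heB, heA⟩ := exists_eqs D (fun i => hreg.mem i) hKx hu hcw hτw hsupp hh
    hcc hc1 hbc
  have hSA := RZ_le (E := E) (C := C) (V := V) (b := b) (τ := τ) (Y := Y) D.t1 D.Y1 D.str.b1 D.hC
  have hPA : RZ C (yy b τ Y) V ≤ AT E (yy b τ Y) V := lo_le hSA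
  -- the base
  obtain ⟨m, z, hz⟩ := hext hreg hxu
  have hz' := hmap (emb E (TT r q s)) (fun a => emb_mem (y := yy b τ Y) V a) hz
  have hzm : ∀ k, z k ∈ lo (V.comap (algebraMap E F)).toSubring C := fun k => hz.mem (Sum.inr k)
  have hzP : ∀ k, emb E (TT r q s) (z k) ∈ RZ C (yy b τ Y) V := fun k => emb_mem_lo (hzm k) _
  let Y' : Fin s → RZ C (yy b τ Y) V := fun j => ⟨Zc E (Sum.inr (Sum.inr j)), Z_mem _⟩
  let z' : Fin m → RZ C (yy b τ Y) V := fun k => ⟨emb E (TT r q s) (z k), hzP k⟩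
  let J : Ideal (RZ C (yy b τ Y) V) := Ideal.span (Set.range (Sum.elim (Sum.elim Y' z') e))
  have hJY : JY C b τ Y V ≤ J := by
    unfold JY
    rw [Ideal.span_le]
    rintro _ ⟨j, rfl⟩
    exact Ideal.subset_span ⟨Sum.inl (Sum.inl j), rfl⟩
  have hJe : ∀ θ, InJ J (e θ : FF E (TT r q s)) := fun θ =>
    ⟨(e θ).2, Ideal.subset_span ⟨Sum.inr θ, rfl⟩⟩
  have hJz : ∀ k, InJ J (emb E (TT r q s) (z k)) := fun k =>
    ⟨hzP k, Ideal.subset_span ⟨Sum.inl (Sum.inr k), rfl⟩⟩
  have hJx : ∀ i, InJ J (emb E (TT r q s) (x i)) := by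
    intro i
    have h1 := ((heA i).mono hJY).add (hJe (Sum.inr (Sum.inr i)))
    rwa [sub_add_cancel] at h1
  have hJG : ∀ j, InJ J (GG (E := E) q s j (h j)) := by
    intro j
    have h1 := ((heC j).mono hJY).add (hJe (Sum.inl j))
    rwa [sub_add_cancel] at h1
  have hJT : ∀ i, InJ J (Zc E (Sum.inr (Sum.inl i) : TT r q s) -
      emb E (TT r q s) (u i) * Z0 V t s (cw i)) := by
    intro i
    have h1 := ((heB i).mono hJY).add (hJe (Sum.inr (Sum.inl i)))
    rwa [sub_add_cancel] at h1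
  -- adjoining the variables
  have hchain := chain hadj halg (yy b τ Y) V (yy_mem D.t1 D.Y1 D.str.b1) C D.hC (r + (q + s))
    (ordT r q s) {v | InJ J v} (Fintype.card (Fin s ⊕ Fin m))
    ⟨Fin s ⊕ Fin m, inferInstance, _, hz', rfl, by
      rintro (i | k)
      · exact hJx i
      · exact hJz k⟩ (by
    rintro (j | i | j)
    · obtain ⟨g, hg1, hg2, hg3⟩ := exists_poly D j (h j) (hsupp j) (hh j) (hval j)
      refine ⟨g, hg1, ?_, ?_, hg3⟩
      · rw [hg2]
        exact NU_of_val (Pr_GG j (h j)) (hval j)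
      · rw [hg2]
        exact hJG j
    · have hlt : ∀ j : Fin r, ordT r q s (Sum.inl j) < ordT r q s (Sum.inr (Sum.inl i)) := by
        intro j
        rw [Fin.lt_def, ordT_b, ordT_t]
        have := j.2
        omega
      have ha : emb E (TT r q s) (u i) * Z0 V t s (cw i) ∈
          lo (AT E (yy b τ Y) V) (Subring.closure ((C.map (emb E (TT r q s)) :
            Set (FF E (TT r q s))) ∪ Zc E '' {l | ordT r q s l <
              ordT r q s (Sum.inr (Sum.inl i))})) :=
        Subring.mul_mem _ (emb_mem_lo (hu i) _)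
          (Z0_mem (W := Zc E '' {l | ordT r q s l < ordT r q s (Sum.inr (Sum.inl i))})
            (fun j => ⟨Sum.inl j, hlt j, rfl⟩) (cw i) (hcw i) D.K1 D.hC)
      obtain ⟨a, haa⟩ : ∃ a : lo (AT E (yy b τ Y) V) (Subring.closure
          ((C.map (emb E (TT r q s)) : Set (FF E (TT r q s))) ∪ Zc E '' {l | ordT r q s l <
            ordT r q s (Sum.inr (Sum.inl i))})), (a : FF E (TT r q s)) =
          emb E (TT r q s) (u i) * Z0 V t s (cw i) := ⟨⟨_, ha⟩, rfl⟩
      obtain ⟨g, hg1, hg2, hg3⟩ := lin_poly (AT E (yy b τ Y) V) a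
        (Zc E (Sum.inr (Sum.inl i) : TT r q s))
      rw [haa] at hg2
      refine ⟨g, hg1, ?_, ?_, hg3⟩
      · rw [hg2]
        obtain ⟨w, hw, hpw⟩ := hPA (heB i).mem
        have h1 := JY_val D (heB i) hpw
        have h2 := hpw.add (he0 (Sum.inr (Sum.inl i)))
        rw [sub_add_cancel, add_zero] at h2
        exact NU_of_val h2 h1
      · rw [hg2]
        exact hJT i
    · obtain ⟨a, haa⟩ : ∃ a : lo (AT E (yy b τ Y) V) (Subring.closure
          ((C.map (emb E (TT r q s)) : Set (FF E (TT r q s))) ∪ Zc E '' {l | ordT r q s l <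
            ordT r q s (Sum.inr (Sum.inr j))})), (a : FF E (TT r q s)) = 0 := ⟨0, rfl⟩
      obtain ⟨g, hg1, hg2, hg3⟩ := lin_poly (AT E (yy b τ Y) V) a
        (Zc E (Sum.inr (Sum.inr j) : TT r q s))
      rw [haa] at hg2
      refine ⟨g, hg1, ?_, ?_, hg3⟩
      · rw [hg2, sub_zero]
        exact NU_of_val (Pr_Z (E := E) (yy b τ Y) (Sum.inr (Sum.inr j))) (D.Y1 j)
      · rw [hg2, sub_zero]
        exact ⟨Z_mem _, Ideal.subset_span ⟨Sum.inl (Sum.inl j), rfl⟩⟩)
  obtain ⟨ι, _, ζ, hζ, hcard, hζJ⟩ := hchain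
  have hPreg : IsRegularLocalRing (RZ C (yy b τ Y) V) := hζ.reg
  -- the ideal
  have hmax : Ideal.span (Set.range (Sum.elim (Sum.elim Y' z') e)) =
      maximalIdeal (RZ C (yy b τ Y) V) := by
    apply le_antisymm
    · rw [Ideal.span_le]
      rintro _ ⟨(j | k) | θ, rfl⟩
      · rw [SetLike.mem_coe, hζ.mem_max]
        exact NU_of_val (Pr_Z (E := E) (yy b τ Y) (Sum.inr (Sum.inr j))) (D.Y1 j)
      · rw [SetLike.mem_coe, hζ.mem_max]
        refine NU_of_val (Pr_emb (E := E) (yy b τ Y) (z k)) ?_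
        rw [val_lt_one_iff]
        refine ⟨lo_le D.hC (hzm k), ?_⟩
        rintro ⟨h1, h2⟩
        refine hz.nu (Sum.inr k) ⟨fun h3 => h1 ?_, ?_⟩
        · have h4 : z k = 0 := h3
          rw [h4, map_zero]
        · change algebraMap E F (z k)⁻¹ ∈ V
          rw [map_inv₀]
          exact h2
      · rw [SetLike.mem_coe, hζ.mem_max]
        refine NU_of_val (he0 θ) ?_
        rw [map_zero]
        exact zero_lt_one
    · rw [← hζ.span, Ideal.span_le]
      rintro _ ⟨i, rfl⟩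
      exact (hζJ i).2
  have hInd : Ind (Sum.elim (Sum.elim Y' z') e) := by
    refine ind_of_span hmax ?_
    rw [hζ.dim, hcard]
    simp only [Fintype.card_sum, Fintype.card_fin]
    exact le_rfl
  -- cutting
  have hz0 : ∀ k, algebraMap E F (z k) ≠ 0 := by
    intro k h0
    have h1 := hInd.ne_zero (Sum.inl (Sum.inr k))
    apply h1
    apply Subtype.ext
    change emb E (TT r q s) (z k) = 0
    rw [(map_eq_zero _).1 h0, map_zero]
  have h1 := hcut (yy b τ Y) V C D.hC hCE (yy_mem D.t1 D.Y1 D.str.b1) (Sum.elim Y' z') e hInd he0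
    (Sum.elim Y fun k => algebraMap E F (z k)) (by
      rintro (j | k)
      · exact Pr_Z (E := E) (yy b τ Y) (Sum.inr (Sum.inr j))
      · exact Pr_emb (E := E) (yy b τ Y) (z k)) (by
      rintro (j | k)
      · exact D.Y0 j
      · exact hz0 k) hfr (by
      rw [htr, zero_add])
  exact RegP_comp h1 Sum.inl Sum.inl_injective

end main

end Pool.Agent.H176.DT
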