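import Pool.Agent.H59.L.S8.H176.DT.B13

/-!
# The defectless step
-/

set_option autoImplicit false
set_option linter.unusedVariables false
set_option linter.unusedSectionVars false

universe u

namespace Pool.Agent.H176.DT

open Pool.Agent.W418.LU2 IsLocalRing

section main

variable {E F : Type u} [Field E] [Field F] [Algebra E F] {V : ValuationSubring F} {q r : ℕ}
  {t : Fin q → F} {ee : Fin q → ℕ} {b : Fin r → F} {ff : Fin r → ℕ}

/-- The generators of the model. -/
noncomputable def Ug (V : ValuationSubring F) (t : Fin q → F) (b : Fin r → F) : Set F :=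
  Set.range b ∪ Set.range fun i => open Classical in if t i ∈ V then t i else (t i)⁻¹

lemma Ug_fin : (Ug V t b).Finite := (Set.finite_range _).union (Set.finite_range _)

lemma Ug_b (j : Fin r) : b j ∈ Ug V t b := Or.inl ⟨j, rfl⟩

lemma Ug_t (i : Fin q) (h : t i ∈ V) : t i ∈ Ug V t b := by
  refine Or.inr ⟨i, ?_⟩
  simp only [if_pos h]

lemma Ug_t' (i : Fin q) (h : t i ∉ V) : (t i)⁻¹ ∈ Ug V t b := by
  refine Or.inr ⟨i, ?_⟩
  simp only [if_neg h]

lemma Ug_cases {z : F} (hz : z ∈ Ug V t b) : (∃ j, z = b j) ∨ (∃ i, t i ∈ V ∧ z = t i) ∨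
    ∃ i, t i ∉ V ∧ z = (t i)⁻¹ := by
  classical
  rcases hz with ⟨j, rfl⟩ | ⟨i, rfl⟩
  · exact Or.inl ⟨j, rfl⟩
  · by_cases h : t i ∈ V
    · refine Or.inr (Or.inl ⟨i, h, ?_⟩)
      simp only [if_pos h]
    · refine Or.inr (Or.inr ⟨i, h, ?_⟩)
      simp only [if_neg h]

lemma Ug_mem (hS : Str (E := E) V t ee b ff) {z : F} (hz : z ∈ Ug V t b) : z ∈ V := by
  rcases Ug_cases hz with ⟨j, rfl⟩ | ⟨i, h, rfl⟩ | ⟨i, h, rfl⟩
  · exact (V.valuation_le_one_iff _).1 (hS.b1 j).le
  · exact h
  · exact (V.mem_or_inv_mem _).resolve_left h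

/-- The values of the coefficients. -/
lemma el_bound (hS : Str (E := E) V t ee b ff)
    (c : ((i : Fin q) → Fin (ee i)) × ((j : Fin r) → Fin (ff j)) → E)
    (p : ((i : Fin q) → Fin (ee i)) × ((j : Fin r) → Fin (ff j))) :
    V.valuation (algebraMap E F (c p) * ∏ i, t i ^ (p.1 i : ℕ)) ≤ V.valuation (el t b c) := by
  have h := hS.orth c p
  have h1 : V.valuation (∏ j, b j ^ (p.2 j : ℕ)) = 1 := by
    rw [map_prod]
    exact Finset.prod_eq_one fun j _ => by rw [map_pow, hS.b1, one_pow]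
  rw [← mul_assoc, map_mul, h1, mul_one] at h
  exact h

/-- The extension is algebraic. -/
theorem fin_alg (hS : Str (E := E) V t ee b ff) : Algebra.IsAlgebraic E F := by
  classical
  let v : ((i : Fin q) → Fin (ee i)) × ((j : Fin r) → Fin (ff j)) → F := fun p =>
    (∏ i, t i ^ (p.1 i : ℕ)) * ∏ j, b j ^ (p.2 j : ℕ)
  have h : Function.Surjective (Fintype.linearCombination E v) := by
    intro z
    obtain ⟨c, hc⟩ := hS.span z
    refine ⟨c, ?_⟩
    rw [Fintype.linearCombination_apply, hc]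
    exact Finset.sum_congr rfl fun p _ => Algebra.smul_def _ _
  have := Module.Finite.of_surjective _ h
  exact Algebra.IsAlgebraic.of_finite E F

/-- The model. -/
abbrev AF (A : Subring E) (V : ValuationSubring F) (t : Fin q → F) (b : Fin r → F) : Subring F :=
  Subring.closure ((A.map (algebraMap E F) : Set F) ∪ Ug V t b)

lemma AF_t {A : Subring E} (i : Fin q) : t i ∈ fr (AF A V t b) := by
  by_cases h : t i ∈ V
  · exact le_fr _ (Subring.subset_closure (Or.inr (Ug_t i h)))
  · have h1 := (fr (AF A V t b)).inv_mem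
      (le_fr _ (Subring.subset_closure (Or.inr (Ug_t' i h))))
    rwa [inv_inv] at h1

theorem bas_mod {A : Subring E} (hM : Mod (V.comap (algebraMap E F)) A)
    (hS : Str (E := E) V t ee b ff) : Mod V (AF A V t b) := by
  refine ⟨?_, fun z => ?_⟩
  · rw [Subring.closure_le]
    rintro z (⟨c, hc, rfl⟩ | hz)
    · exact hM.1 hc
    · exact Ug_mem hS hz
  · have hz : z ∈ fr (AF A V t b) := by
      have hb : ∀ j, b j ∈ fr (AF A V t b) := fun j =>
        le_fr (AF A V t b) (Subring.subset_closure (Or.inr (Ug_b j)))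
      have ht : ∀ i, t i ∈ fr (AF A V t b) := fun i => AF_t (A := A) i
      obtain ⟨c, rfl⟩ := hS.span z
      refine sum_mem fun p _ => mul_mem ?_ (mul_mem (prod_mem fun i _ =>
        pow_mem (ht i) _) (prod_mem fun j _ => pow_mem (hb j) _))
      obtain ⟨a, ha, d, hd, hd0, h⟩ := hM.2 (c p)
      rw [h, map_mul, map_inv₀]
      exact mul_mem (le_fr _ (Subring.subset_closure (Or.inl ⟨a, ha, rfl⟩)))
        (inv_mem (le_fr _ (Subring.subset_closure (Or.inl ⟨d, hd, rfl⟩))))
    obtain ⟨d, hd, hd0, h⟩ := hz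
    exact ⟨z * d, h, d, hd, hd0, by rw [mul_assoc, mul_inv_cancel₀ hd0, mul_one]⟩

variable {s : ℕ} {x : Fin s → E} {τ : Fin q → F} {Y : Fin s → F} {u : Fin q → E}
  {K : Finset ((Fin s → ℤ) × (Fin q → ℤ))} {A : Subring E} {GE : Set E} {g : Fin q → E}
  {m₀ : Fin q → Fin q → ℤ} {T : Set E}

/-- The field generated by the coordinates. -/
lemma Cons.hfr (H : Cons V t ee b ff A GE g m₀ T x τ u Y K) (z : F) :
    ∃ a c : MvPolynomial (TT r q s) E, ph (E := E) (yy b τ Y) c ≠ 0 ∧
      z * ph (E := E) (yy b τ Y) c = ph (E := E) (yy b τ Y) a := by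
  classical
  refine hfr_of (L := ⊤) (y := yy b τ Y) rfl (fun a => trivial) ?_ z
  intro z _
  have hY : ∀ j, Y j ∈ Subfield.closure (Set.range (algebraMap E F) ∪ Set.range (yy b τ Y)) :=
    fun j => Subfield.subset_closure (Or.inr ⟨Sum.inr (Sum.inr j), rfl⟩)
  have hτ : ∀ j, τ j ∈ Subfield.closure (Set.range (algebraMap E F) ∪ Set.range (yy b τ Y)) :=
    fun j => Subfield.subset_closure (Or.inr ⟨Sum.inr (Sum.inl j), rfl⟩)
  have hb : ∀ j, b j ∈ Subfield.closure (Set.range (algebraMap E F) ∪ Set.range (yy b τ Y)) :=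
    fun j => Subfield.subset_closure (Or.inr ⟨Sum.inl j, rfl⟩)
  have ht : ∀ i, t i ∈ Subfield.closure (Set.range (algebraMap E F) ∪
      Set.range (yy b τ Y)) := by
    intro i
    obtain ⟨n, κ, h⟩ := H.gen i
    have h1 : mo Y (fun j => (n j : ℤ)) * mo τ κ ∈
        Subfield.closure (Set.range (algebraMap E F) ∪ Set.range (yy b τ Y)) := by
      unfold mo
      exact mul_mem (prod_mem fun j _ => zpow_mem (hY j) _) (prod_mem fun j _ =>
        zpow_mem (hτ j) _)
    rcases h with ⟨-, h⟩ | ⟨-, h⟩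
    · rw [h]; exact h1
    · rw [← inv_inv (t i), h]; exact inv_mem h1
  obtain ⟨c, rfl⟩ := H.dat.str.span z
  exact sum_mem fun p _ => mul_mem (Subfield.subset_closure (Or.inl ⟨c p, rfl⟩))
    (mul_mem (prod_mem fun i _ => pow_mem (ht i) _) (prod_mem fun j _ => pow_mem (hb j) _))

/-- The local rings agree. -/
lemma Cons.PP_eq (H : Cons V t ee b ff A GE g m₀ T x τ u Y K) :
    PP V (AF A V t b) (algebraMap E F '' T ∪ Set.range (yy b τ Y)) =
      PF (Subring.closure ((A : Set E) ∪ T)) V (yy b τ Y) := by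
  refine lo_eq H.dat.le ?_ ?_
  · rw [Subring.closure_le]
    rintro z (⟨c, hc, rfl⟩ | hz)
    · have h1 : (Subring.closure ((A : Set E) ∪ T)).map (algebraMap E F) ≤
          Subring.closure ((AF A V t b : Set F) ∪ (algebraMap E F '' T ∪
            Set.range (yy b τ Y))) := by
        rw [RingHom.map_closure, Subring.closure_le]
        rintro z ⟨a, (ha | ha), rfl⟩
        · exact Subring.subset_closure (Or.inl (Subring.subset_closure (Or.inl ⟨a, ha, rfl⟩)))
        · exact Subring.subset_closure (Or.inr (Or.inl ⟨a, ha, rfl⟩))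
      exact h1 ⟨c, hc, rfl⟩
    · exact Subring.subset_closure (Or.inr (Or.inr hz))
  · rw [Subring.closure_le]
    rintro z (hz | hz | hz)
    · have h1 : AF A V t b ≤ PF (Subring.closure ((A : Set E) ∪ T)) V (yy b τ Y) := by
        rw [Subring.closure_le]
        rintro z (⟨a, ha, rfl⟩ | hz)
        · exact le_lo _ _ (Subring.subset_closure (Or.inl ⟨a,
            Subring.subset_closure (Or.inl ha), rfl⟩))
        · have h2 : ∀ (n : Fin s → ℕ) (κ : Fin q → ℤ), mo Y (fun j => (n j : ℤ)) * mo τ κ ∈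
              PF (Subring.closure ((A : Set E) ∪ T)) V (yy b τ Y) := by
            intro n κ
            refine Subring.mul_mem _ ?_ (H.dat.mo_tau κ)
            unfold mo
            refine Subring.prod_mem _ fun i _ => ?_
            rw [zpow_natCast]
            exact Subring.pow_mem _ (H.dat.Y_mem i) _
          rcases Ug_cases hz with ⟨j, rfl⟩ | ⟨i, h, rfl⟩ | ⟨i, h, rfl⟩
          · exact H.dat.b_mem j
          · obtain ⟨n, κ, h3⟩ := H.gen i
            rcases h3 with ⟨-, h3⟩ | ⟨h4, -⟩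
            · have h5 := h2 n κ
              rw [← h3] at h5
              exact h5
            · exact absurd h h4
          · obtain ⟨n, κ, h3⟩ := H.gen i
            rcases h3 with ⟨h4, -⟩ | ⟨-, h3⟩
            · exact absurd h4 h
            · have h5 := h2 n κ
              rw [← h3] at h5
              exact h5
      exact h1 hz
    · obtain ⟨a, ha, rfl⟩ := hz
      exact le_lo _ _ (Subring.subset_closure (Or.inl ⟨a, Subring.subset_closure (Or.inr ha),
        rfl⟩))
    · exact le_lo _ _ (Subring.subset_closure (Or.inr hz))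

/-- The generators are monomials. -/
lemma Cons.t_PMon (H : Cons V t ee b ff A GE g m₀ T x τ u Y K) (i : Fin q) :
    PMon (PF (Subring.closure ((A : Set E) ∪ T)) V (yy b τ Y)) Y (t i) := by
  obtain ⟨n, κ, h⟩ := H.gen i
  have h1 := (PMon.of_mo (P := PF (Subring.closure ((A : Set E) ∪ T)) V (yy b τ Y)) (x := Y)
    (fun j => (n j : ℤ))).mul H.dat.Y0 (H.dat.tau_PMon κ)
  rcases h with ⟨-, h⟩ | ⟨-, h⟩
  · rw [h]; exact h1
  · rw [← inv_inv (t i), h]; exact h1.inv

/-- The denominators. -/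
lemma Cons.den (H : Cons V t ee b ff A GE g m₀ T x τ u Y K) :
    ∃ β ∈ AF A V t b, PMon (PF (Subring.closure ((A : Set E) ∪ T)) V (yy b τ Y)) Y β ∧
      (∀ z ∈ algebraMap E F '' T ∪ Set.range (yy b τ Y), β * z ∈ AF A V t b) ∧
      ∀ j, β * Y j ∈ AF A V t b := by
  classical
  obtain ⟨β, hβ, hβm, hβT, hβx⟩ := H.st.den
  have hβF : algebraMap E F β ∈ AF A V t b := Subring.subset_closure (Or.inl ⟨β, hβ, rfl⟩)
  have hβFm := H.dat.alg_PMon H.Kx hβm
  have hx : ∀ i, Fra (AF A V t b) (PF (Subring.closure ((A : Set E) ∪ T)) V (yy b τ Y)) Y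
      (algebraMap E F (x i)) := by
    intro i
    refine ⟨H.dat.alg_PMon H.Kx ?_, algebraMap E F β, hβF, hβFm, ?_⟩
    · have h1 := PMon.of_mo (P := lo (V.comap (algebraMap E F)).toSubring
        (Subring.closure ((A : Set E) ∪ T))) (x := x) (Pi.single i 1)
      rwa [mo_single] at h1
    · rw [← map_mul]
      exact Subring.subset_closure (Or.inl ⟨_, hβx i, rfl⟩)
  have ht : ∀ i, Fra (AF A V t b) (PF (Subring.closure ((A : Set E) ∪ T)) V (yy b τ Y)) Y
      (t i) := by
    intro i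
    by_cases h : t i ∈ V
    · exact ⟨H.t_PMon i, 1, Subring.one_mem _, PMon.one, by
        rw [one_mul]; exact Subring.subset_closure (Or.inr (Ug_t i h))⟩
    · exact ⟨H.t_PMon i, (t i)⁻¹, Subring.subset_closure (Or.inr (Ug_t' i h)),
        (H.t_PMon i).inv, by
          rw [inv_mul_cancel₀ (H.dat.str.t0 i)]; exact Subring.one_mem _⟩
  have hMM : ∀ l m, Fra (AF A V t b) (PF (Subring.closure ((A : Set E) ∪ T)) V (yy b τ Y)) Y
      (MM x t l m) := by
    intro l m
    unfold MM
    rw [map_mo]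
    exact (Fra.mo H.dat.Y0 (fun i => (map_ne_zero _).2 (H.st.reg.ne i)) hx l).mul H.dat.Y0
      (Fra.mo H.dat.Y0 H.dat.str.t0 ht m)
  have hy : ∀ θ, ∃ d ∈ AF A V t b, PMon (PF (Subring.closure ((A : Set E) ∪ T)) V (yy b τ Y)) Y d ∧
      d * yy b τ Y θ ∈ AF A V t b := by
    rintro (j | i | j)
    · exact ⟨1, Subring.one_mem _, PMon.one, by
        rw [one_mul]; exact Subring.subset_closure (Or.inr (Ug_b j))⟩
    · obtain ⟨l, m, h⟩ := H.tM i
      have h1 := (hMM l m).2
      rw [← h] at h1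
      exact h1
    · obtain ⟨l, m, h⟩ := H.YM j
      have h1 := (hMM l m).2
      rw [← h] at h1
      exact h1
  obtain ⟨δ, hδ, hδm, hδT⟩ := exists_den (A := AF A V t b) H.dat.Y0
    (T := algebraMap E F '' T ∪ Set.range (yy b τ Y))
    ((H.st.fin.image _).union (Set.finite_range _)) (by
      rintro z (⟨a, ha, rfl⟩ | ⟨θ, rfl⟩)
      · refine ⟨algebraMap E F β, hβF, hβFm, ?_⟩
        rw [← map_mul]
        exact Subring.subset_closure (Or.inl ⟨_, hβT a ha, rfl⟩)
      · exact hy θ)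
  exact ⟨δ, hδ, hδm, hδT, fun j => hδT _ (Or.inr ⟨Sum.inr (Sum.inr j), rfl⟩)⟩

end main

end Pool.Agent.H176.DT
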