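import Pool.Agent.H59.L.S8.H176.DT.B15
import Pool.Agent.H59.L.S8.H447.DT.Fac
import Pool.Agent.H59.L.S8.H447.DT.Ext
import Pool.Agent.H59.L.S8.H447.DT.AdjF
import Pool.Agent.H59.L.S8.H737.DT.Rf
import Pool.Agent.H59.L.S8.Y67.DT.Ind
import Pool.Agent.H59.L.S8.Y67.DT.Base
import Pool.Agent.H59.L.S8.Y67.DT.Move
import Pool.Agent.H59.L.S8.Y67.DT.Cut
import Pool.Agent.H59.L.S8.Y815.DT.Fin
import Pool.Agent.H59.L.S8.Y815.DT.Val
import Pool.Agent.H59.L.S8.Y319.DT.Tr
import Pool.Agent.H59.L.S8.Y901.DT.Et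
import Pool.Agent.H59.L.S8.H624.DT.Res
import Pool.Agent.H59.L.S8.H624.DT.Unr
import Pool.Agent.H59.L.S8.Y454.DT.EllS
import Pool.Agent.H59.L.S8.Y925.DT.Str

/-!
# Towers
-/

set_option autoImplicit false
set_option linter.unusedVariables false
set_option linter.unusedSectionVars false

universe u

namespace Pool.Agent.H176.DT

open Pool.Agent.W418.LU2 IsLocalRing Polynomial

theorem p_fac : S_fac.{u} := Pool.Agent.H447.DT.fac
theorem p_expo : S_expo.{u} := Pool.Agent.H447.DT.expo
theorem p_ext : S_ext.{u} := Pool.Agent.H447.DT.ext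
theorem p_map : S_map.{u} := Pool.Agent.H447.DT.map
theorem p_adj : S_adj.{u} := Pool.Agent.H447.DT.adj
theorem p_ref : S_ref.{u} := Pool.Agent.H737.DT.ref
theorem p_ind : S_ind.{u} := Pool.Agent.Y67.DT.ind p_ref p_expo
theorem p_base : S_base.{u} := Pool.Agent.Y67.DT.base' p_ref
theorem p_noe : S_noe.{u} := Pool.Agent.Y67.DT.noe
theorem p_move : S_move.{u} := Pool.Agent.Y67.DT.move
theorem p_cut : S_cut.{u} := Pool.Agent.Y67.DT.cut
theorem p_alg : S_alg.{u} := Pool.Agent.Y67.DT.alg
theorem p_fin : S_fin.{u} := Pool.Agent.Y815.DT.fin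
theorem p_val : S_val.{u} := Pool.Agent.Y815.DT.val
theorem p_tr : S_tr.{u} := Pool.Agent.Y319.DT.tr p_ref p_fac
theorem p_et : S_et.{u} := Pool.Agent.Y901.DT.et
theorem p_res : S_res.{u} := Pool.Agent.H624.DT.res
theorem p_unr : S_unr.{u} := Pool.Agent.H624.DT.unr p_ref p_fac p_ind p_ext p_map p_adj p_cut p_alg
theorem p_ell : S_ell.{u} := Pool.Agent.Y454.DT.ell
theorem p_str : S_str.{u} := Pool.Agent.Y925.DT.str p_val p_res

section mod

variable {E F : Type u} [Field E] [Field F] [Algebra E F] {V : ValuationSubring F}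

/-- Models of extensions. -/
lemma mod_ext {A : Subring E} (hM : Mod (V.comap (algebraMap E F)) A) {U : Set F}
    (hU : ∀ u ∈ U, u ∈ V)
    (hgen : ∀ z : F, z ∈ Subfield.closure (Set.range (algebraMap E F) ∪ U)) :
    Mod V (Subring.closure ((A.map (algebraMap E F) : Set F) ∪ U)) := by
  refine ⟨?_, fun z => ?_⟩
  · rw [Subring.closure_le]
    rintro z (⟨c, hc, rfl⟩ | hz)
    · exact hM.1 hc
    · exact hU z hz
  · have h1 : Subfield.closure (Set.range (algebraMap E F) ∪ U) ≤
        fr (Subring.closure ((A.map (algebraMap E F) : Set F) ∪ U)) := by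
      rw [Subfield.closure_le]
      rintro z (⟨c, rfl⟩ | hz)
      · obtain ⟨a, ha, d, hd, hd0, rfl⟩ := hM.2 c
        rw [map_mul, map_inv₀]
        exact mul_mem (le_fr _ (Subring.subset_closure (Or.inl ⟨a, ha, rfl⟩)))
          (inv_mem (le_fr _ (Subring.subset_closure (Or.inl ⟨d, hd, rfl⟩))))
      · exact le_fr _ (Subring.subset_closure (Or.inr hz))
    obtain ⟨d, hd, hd0, h⟩ := h1 (hgen z)
    exact ⟨z * d, h, d, hd, hd0, by rw [mul_assoc, mul_inv_cancel₀ hd0, mul_one]⟩

/-- The unramified step. -/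
lemma key_unr (A : Subring E) (hM : Mod (V.comap (algebraMap E F)) A)
    (hSU : SU (V.comap (algebraMap E F)) A) (η : F) (hη : ∀ z : F, ∃ f : E[X], aeval η f = z)
    {μ g h : E[X]} (hu : Unr V η μ g h) :
    ∃ U : Set F, U.Finite ∧
      Mod V (Subring.closure ((A.map (algebraMap E F) : Set F) ∪ U)) ∧
      SU V (Subring.closure ((A.map (algebraMap E F) : Set F) ∪ U)) := by
  obtain ⟨h1, h2⟩ := p_unr V A hM hSU η hη μ g h hu
  refine ⟨{η}, Set.finite_singleton _, mod_ext hM ?_ ?_, h2⟩
  · rintro u rfl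
    exact h1
  · intro z
    obtain ⟨f, rfl⟩ := hη z
    have h3 : η ∈ Subfield.closure (Set.range (algebraMap E F) ∪ {η}) :=
      Subfield.subset_closure (Or.inr rfl)
    rw [aeval_eq_sum_range]
    refine sum_mem fun i _ => ?_
    rw [Algebra.smul_def]
    exact mul_mem (Subfield.subset_closure (Or.inl ⟨_, rfl⟩)) (pow_mem h3 _)

/-- The trivial step. -/
lemma key_triv (A : Subring E) (hM : Mod (V.comap (algebraMap E F)) A)
    (hSU : SU (V.comap (algebraMap E F)) A) (hs : Function.Surjective (algebraMap E F)) :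
    ∃ U : Set F, U.Finite ∧
      Mod V (Subring.closure ((A.map (algebraMap E F) : Set F) ∪ U)) ∧
      SU V (Subring.closure ((A.map (algebraMap E F) : Set F) ∪ U)) := by
  obtain ⟨μ, g, h, hu⟩ := p_et (E := E) V (0 : F) X monic_X (fun i => by
    rw [coeff_X]
    split_ifs
    · rw [map_one]; exact V.one_mem
    · rw [map_zero]; exact V.zero_mem) (aeval_X _) (by
    rw [derivative_X, map_one, map_one])
  refine key_unr A hM hSU 0 (fun z => ?_) hu
  obtain ⟨a, rfl⟩ := hs z
  exact ⟨C a, aeval_C _ _⟩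

/-- The transcendental step. -/
lemma key_tr (A : Subring E) (hM : Mod (V.comap (algebraMap E F)) A)
    (hSU : SU (V.comap (algebraMap E F)) A) (t : F) (ht : Transcendental E t)
    (hgen : ∀ z : F, z ∈ Subfield.closure (Set.range (algebraMap E F) ∪ {t}))
    (hfr : ∀ z : F, ∃ f g : E[X], aeval t g ≠ 0 ∧ z * aeval t g = aeval t f)
    (hdom : ∀ f : E[X], ∃ a : E, ∀ j : ℕ, V.valuation (algebraMap E F ((taylor a f).coeff j) *
      (t - algebraMap E F a) ^ j) ≤ V.valuation (aeval t f)) :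
    ∃ U : Set F, U.Finite ∧
      Mod V (Subring.closure ((A.map (algebraMap E F) : Set F) ∪ U)) ∧
      SU V (Subring.closure ((A.map (algebraMap E F) : Set F) ∪ U)) := by
  obtain ⟨w, hw, hwV, h2⟩ := p_tr V A hM hSU t ht hfr hdom
  refine ⟨{w}, Set.finite_singleton _, mod_ext hM ?_ ?_, h2⟩
  · rintro u rfl
    exact hwV
  · have h1 : Subfield.closure (Set.range (algebraMap E F) ∪ {t}) ≤
        Subfield.closure (Set.range (algebraMap E F) ∪ {w}) := by
      rw [Subfield.closure_le]
      have h3 : w ∈ Subfield.closure (Set.range (algebraMap E F) ∪ {w}) :=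
        Subfield.subset_closure (Or.inr rfl)
      rintro z (hz | rfl)
      · exact Subfield.subset_closure (Or.inl hz)
      · rcases hw with hw | hw
        · rw [← hw]; exact h3
        · rw [hw] at h3 ⊢
          have h4 := inv_mem h3
          rwa [inv_inv] at h4
    exact fun z => h1 (hgen z)

/-- The defectless step. -/
lemma key_bas (A : Subring E) (hM : Mod (V.comap (algebraMap E F)) A)
    (hSU : SU (V.comap (algebraMap E F)) A) {n : ℕ} {β : Fin n → F} (hβ : Orth (E := E) V β) :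
    ∃ U : Set F, U.Finite ∧
      Mod V (Subring.closure ((A.map (algebraMap E F) : Set F) ∪ U)) ∧
      SU V (Subring.closure ((A.map (algebraMap E F) : Set F) ∪ U)) := by
  obtain ⟨q, r, t, ee, b, ff, hS⟩ := p_str V n β hβ
  exact ⟨Ug V t b, Ug_fin, bas_mod hM hS,
    bas p_fac p_ref p_ell p_ind p_adj p_alg p_map p_ext p_cut V A hM hSU hS⟩

end mod

section inv

variable {K : Type u} [Field K]

/-- The invariant of the tower. -/
def Inv (V : ValuationSubring K) (R : Subring K) {F : Type u} [Field F] (φ : F →+* K) : Prop :=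
  (∀ z ∈ R, ∃ w, φ w = z) ∧ ∃ U : Set F, U.Finite ∧
    Mod (V.comap φ) (Subring.closure (φ ⁻¹' (R : Set K) ∪ U)) ∧
    SU (V.comap φ) (Subring.closure (φ ⁻¹' (R : Set K) ∪ U))

theorem Inv.step {V : ValuationSubring K} {R : Subring K} {F F' : Type u} [Field F] [Field F']
    [Algebra F F'] {φ : F →+* K} {ψ : F' →+* K} (hψ : ψ.comp (algebraMap F F') = φ)
    (h : Inv V R φ)
    (key : ∀ A : Subring F, Mod ((V.comap ψ).comap (algebraMap F F')) A →
      SU ((V.comap ψ).comap (algebraMap F F')) A → ∃ U : Set F', U.Finite ∧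
      Mod (V.comap ψ) (Subring.closure ((A.map (algebraMap F F') : Set F') ∪ U)) ∧
      SU (V.comap ψ) (Subring.closure ((A.map (algebraMap F F') : Set F') ∪ U))) :
    Inv V R ψ := by
  obtain ⟨hR, U, hU, hM, hSU⟩ := h
  have hV : (V.comap ψ).comap (algebraMap F F') = V.comap φ := by
    rw [← hψ]
    rfl
  rw [← hV] at hM hSU
  obtain ⟨U', hU', hM', hSU'⟩ := key _ hM hSU
  have hpre : algebraMap F F' '' (φ ⁻¹' (R : Set K)) = ψ ⁻¹' (R : Set K) := by
    ext z
    constructor
    · rintro ⟨w, hw, rfl⟩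
      rw [← hψ] at hw
      exact hw
    · intro hz
      obtain ⟨w, hw⟩ := hR _ hz
      have h1 : algebraMap F F' w = z := by
        apply ψ.injective
        rw [← hw, ← hψ]
        rfl
      exact ⟨w, by rw [Set.mem_preimage, hw]; exact hz, h1⟩
  have hcl : Subring.closure (((Subring.closure (φ ⁻¹' (R : Set K) ∪ U)).map (algebraMap F F') :
      Set F') ∪ U') = Subring.closure (ψ ⁻¹' (R : Set K) ∪ (algebraMap F F' '' U ∪ U')) := by
    rw [RingHom.map_closure, Set.image_union, hpre, ← Set.union_assoc]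
    apply le_antisymm
    · rw [Subring.closure_le]
      rintro z (hz | hz)
      · exact Subring.closure_mono Set.subset_union_left hz
      · exact Subring.subset_closure (Or.inr hz)
    · rw [Subring.closure_le]
      rintro z (hz | hz)
      · exact Subring.subset_closure (Or.inl (Subring.subset_closure hz))
      · exact Subring.subset_closure (Or.inr hz)
  rw [hcl] at hM' hSU'
  refine ⟨fun z hz => ?_, _, (hU.image _).union hU', hM', hSU'⟩
  obtain ⟨w, hw⟩ := hR z hz
  refine ⟨algebraMap F F' w, ?_⟩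
  rw [← hw, ← hψ]
  rfl

end inv

end Pool.Agent.H176.DT
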