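import Pool.Agent.H59.L.S8.H176.DT.B16

/-!
# Towers of subfields
-/

set_option autoImplicit false
set_option linter.unusedVariables false
set_option linter.unusedSectionVars false

universe u

namespace Pool.Agent.H176.DT

open Pool.Agent.W418.LU2 IsLocalRing Polynomial

lemma comap_le {E F : Type u} [Field E] [Field F] (f : E →+* F) (V : ValuationSubring F)
    (z w : E) : (V.comap f).valuation z ≤ (V.comap f).valuation w ↔
      V.valuation (f z) ≤ V.valuation (f w) := by
  by_cases hw : w = 0
  · subst hw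
    rw [map_zero, map_zero, map_zero, le_zero_iff, le_zero_iff, map_eq_zero, map_eq_zero,
      map_eq_zero]
  · have h1 : 0 < (V.comap f).valuation w := zero_lt_iff.2 ((_root_.map_ne_zero _).2 hw)
    have h2 : 0 < V.valuation (f w) := zero_lt_iff.2 ((_root_.map_ne_zero _).2 ((_root_.map_ne_zero _).2 hw))
    rw [← div_le_one₀ h1, ← div_le_one₀ h2, ← map_div₀, ← map_div₀, ← map_div₀,
      ValuationSubring.valuation_le_one_iff, ValuationSubring.valuation_le_one_iff,
      ValuationSubring.mem_comap]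

section sub

variable {K : Type u} [Field K] {L L' : Subfield K}

lemma sub_aeval (hL : L ≤ L') (t : L') (f : L[X]) :
    letI := (Subfield.inclusion hL).toAlgebra
    ((aeval t f : L') : K) = aeval (t : K) f := by
  letI := (Subfield.inclusion hL).toAlgebra
  have h := hom_eval₂ f (algebraMap L L') L'.subtype t
  rw [aeval_def, aeval_def]
  exact h

lemma sub_gen (hL : L ≤ L') {U : Set L'} (h : L' ≤ L ⊔ Subfield.closure (L'.subtype '' U))
    (z : L') :
    letI := (Subfield.inclusion hL).toAlgebra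
    z ∈ Subfield.closure (Set.range (algebraMap L L') ∪ U) := by
  letI := (Subfield.inclusion hL).toAlgebra
  have h1 : (z : K) ∈ (Subfield.closure (Set.range (algebraMap L L') ∪ U)).map L'.subtype := by
    rw [RingHom.map_field_closure, Set.image_union]
    have h2 : L ⊔ Subfield.closure (L'.subtype '' U) ≤ Subfield.closure
        (L'.subtype '' Set.range (algebraMap L L') ∪ L'.subtype '' U) := by
      refine sup_le ?_ (Subfield.closure_mono Set.subset_union_right)
      intro a ha
      exact Subfield.subset_closure (Or.inl ⟨algebraMap L L' ⟨a, ha⟩, ⟨_, rfl⟩, rfl⟩)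
    exact h2 (h z.2)
  obtain ⟨w, hw, hwz⟩ := h1
  have h2 : w = z := Subtype.ext hwz
  rwa [h2] at hw

lemma gen_frac {E F : Type u} [Field E] [Field F] [Algebra E F] {t : F} {z : F}
    (hz : z ∈ Subfield.closure (Set.range (algebraMap E F) ∪ {t})) :
    ∃ f g : E[X], aeval t g ≠ 0 ∧ z * aeval t g = aeval t f := by
  have h1 : Subfield.closure (Set.range (algebraMap E F) ∪ {t}) ≤
      fr (aeval (R := E) t).range.toSubring := by
    rw [Subfield.closure_le]
    rintro w (⟨a, rfl⟩ | rfl)
    · exact le_fr _ ⟨C a, aeval_C _ _⟩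
    · exact le_fr _ ⟨X, aeval_X _⟩
  obtain ⟨b, ⟨g, hg⟩, hb0, ⟨f, hf⟩⟩ := h1 hz
  have hg' : aeval t g = b := hg
  have hf' : aeval t f = z * b := hf
  exact ⟨f, g, by rw [hg']; exact hb0, by rw [hg', hf']⟩

lemma gen_alg {E F : Type u} [Field E] [Field F] [Algebra E F] {t : F} (ht : IsIntegral E t)
    {z : F} (hz : z ∈ Subfield.closure (Set.range (algebraMap E F) ∪ {t})) :
    ∃ f : E[X], aeval t f = z := by
  have h0 : ∀ f : E[X], IsIntegral E (aeval t f) := fun f =>
    adjoin_le_integralClosure ht (aeval_mem_adjoin_singleton E t)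
  obtain ⟨f, g, hg, h⟩ := gen_frac hz
  have h1 : (aeval t g)⁻¹ ∈ (aeval (R := E) t).range :=
    Subalgebra.inv_mem_of_algebraic (A := (aeval (R := E) t).range)
      (x := ⟨aeval t g, ⟨g, rfl⟩⟩) (h0 g).isAlgebraic
  obtain ⟨p, hp⟩ := h1
  have hp' : aeval t p = (aeval t g)⁻¹ := hp
  refine ⟨f * p, ?_⟩
  rw [map_mul, hp', ← h, mul_assoc, mul_inv_cancel₀ hg, mul_one]

variable (V : ValuationSubring K) (R : Subring K)

/-- The transcendental step. -/
theorem sub_tr (t : K) (ht : Transcendental L t)
    (hdom : ∀ f : L[X], ∃ a : L, ∀ j : ℕ,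
      V.valuation (((taylor a f).coeff j : K) * (t - a) ^ j) ≤ V.valuation (aeval t f))
    (h : Inv V R L.subtype) : Inv V R (L ⊔ Subfield.closure {t}).subtype := by
  have hL : L ≤ L ⊔ Subfield.closure {t} := le_sup_left
  letI := (Subfield.inclusion hL).toAlgebra
  have htm : t ∈ L ⊔ Subfield.closure {t} :=
    (le_sup_right : Subfield.closure {t} ≤ _) (Subfield.subset_closure rfl)
  have hgen : ∀ z : ↥(L ⊔ Subfield.closure {t}), z ∈ Subfield.closure
      (Set.range (algebraMap L ↥(L ⊔ Subfield.closure {t})) ∪ {⟨t, htm⟩}) := by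
    intro z
    refine sub_gen hL ?_ z
    rw [Set.image_singleton]
    exact le_rfl
  refine Inv.step (F := L) (F' := ↥(L ⊔ Subfield.closure {t})) (φ := L.subtype) rfl h ?_
  intro A hM hSU
  refine key_tr A hM hSU ⟨t, htm⟩ ?_ hgen (fun z => gen_frac (hgen z)) ?_
  · rw [transcendental_iff] at ht ⊢
    intro p hp
    apply ht
    have h1 := sub_aeval hL ⟨t, htm⟩ p
    rw [← h1]
    rw [hp]
    rfl
  · intro f
    obtain ⟨a, ha⟩ := hdom f
    refine ⟨a, fun j => ?_⟩
    rw [comap_le]
    have h1 := sub_aeval hL ⟨t, htm⟩ f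
    have h2 := ha j
    rw [← h1] at h2
    exact h2

/-- The unramified step. -/
theorem sub_unr (η : K) (μ g k : L[X]) (hu : Unr V η μ g k) (h : Inv V R L.subtype) :
    Inv V R (L ⊔ Subfield.closure {η}).subtype := by
  have hL : L ≤ L ⊔ Subfield.closure {η} := le_sup_left
  letI := (Subfield.inclusion hL).toAlgebra
  have hηm : η ∈ L ⊔ Subfield.closure {η} :=
    (le_sup_right : Subfield.closure {η} ≤ _) (Subfield.subset_closure rfl)
  have hgen : ∀ z : ↥(L ⊔ Subfield.closure {η}), z ∈ Subfield.closure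
      (Set.range (algebraMap L ↥(L ⊔ Subfield.closure {η})) ∪ {⟨η, hηm⟩}) := by
    intro z
    refine sub_gen hL ?_ z
    rw [Set.image_singleton]
    exact le_rfl
  obtain ⟨h1, h2, h3, h4, h5, h6, h7, h8, h9, h10⟩ := hu
  have h7' : aeval (⟨η, hηm⟩ : ↥(L ⊔ Subfield.closure {η})) μ = 0 := by
    apply Subtype.ext
    rw [sub_aeval hL]
    exact h7
  refine Inv.step (F := L) (F' := ↥(L ⊔ Subfield.closure {η})) (φ := L.subtype) rfl h ?_
  intro A hM hSU
  refine key_unr (μ := μ) (g := g) (h := k) A hM hSU ⟨η, hηm⟩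
    (fun z => gen_alg ⟨μ, h1, ?_⟩ (hgen z)) ⟨h1, h2, h3, h4, h5, ?_, h7', ?_, ?_, ?_⟩
  · rw [← aeval_def]
    exact h7'
  · intro i
    rw [comap_lt]
    exact h6 i
  · rw [comap_lt]
    change V.valuation ((aeval (⟨η, hηm⟩ : ↥(L ⊔ Subfield.closure {η})) g :
      ↥(L ⊔ Subfield.closure {η})) : K) < 1
    rw [sub_aeval hL]
    exact h8
  · rw [comap_one]
    change V.valuation ((aeval (⟨η, hηm⟩ : ↥(L ⊔ Subfield.closure {η})) k :
      ↥(L ⊔ Subfield.closure {η})) : K) = 1
    rw [sub_aeval hL]
    exact h9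
  · intro q hq hd hv i
    rw [comap_lt] at hv ⊢
    change V.valuation ((aeval (⟨η, hηm⟩ : ↥(L ⊔ Subfield.closure {η})) q :
      ↥(L ⊔ Subfield.closure {η})) : K) < 1 at hv
    rw [sub_aeval hL] at hv
    exact h10 q hq hd hv i

/-- The defectless step. -/
theorem sub_bas (hL : L ≤ L') (n : ℕ) (β : Fin n → K) (hβ : ∀ i, β i ∈ L')
    (hβ0 : ∀ i, β i ≠ 0) (hspan : ∀ z ∈ L', ∃ c : Fin n → L, z = ∑ i, (c i : K) * β i)
    (horth : ∀ (c : Fin n → L) (i : Fin n),
      V.valuation ((c i : K) * β i) ≤ V.valuation (∑ j, (c j : K) * β j))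
    (h : Inv V R L.subtype) : Inv V R L'.subtype := by
  letI := (Subfield.inclusion hL).toAlgebra
  refine Inv.step (F := L) (F' := L') (φ := L.subtype) rfl h ?_
  intro A hM hSU
  have hsum : ∀ c : Fin n → L, ((∑ j, algebraMap L L' (c j) * (⟨β j, hβ j⟩ : L') : L') : K) =
      ∑ j, (c j : K) * β j := by
    intro c
    change L'.subtype _ = _
    rw [map_sum]
    exact Finset.sum_congr rfl fun j _ => by rw [map_mul]; rfl
  refine key_bas (β := fun i => (⟨β i, hβ i⟩ : L')) A hM hSU ⟨?_, ?_, ?_⟩
  · intro i h0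
    exact hβ0 i (congrArg Subtype.val h0)
  · intro z
    obtain ⟨c, hc⟩ := hspan z z.2
    refine ⟨c, Subtype.ext ?_⟩
    rw [hc, hsum]
  · intro c i
    rw [comap_le]
    have h1 := horth c i
    rw [← hsum] at h1
    exact h1

/-- The base. -/
theorem sub_base {E : Type u} [Field E] [Algebra E K] (R : Subring E) [IsNoetherianRing R]
    (hM : Mod (V.comap (algebraMap E K)) R) (hLU : LogUnif (V.comap (algebraMap E K)) R) :
    Inv V (R.map (algebraMap E K)) (algebraMap E K).fieldRange.subtype := by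
  letI := (algebraMap E K).rangeRestrictField.toAlgebra
  have h0 : Inv V (R.map (algebraMap E K)) (algebraMap E K) := by
    have h1 : Subring.closure (algebraMap E K ⁻¹' (R.map (algebraMap E K) : Set K) ∪ ∅) = R := by
      have h2 : algebraMap E K ⁻¹' (R.map (algebraMap E K) : Set K) = (R : Set E) := by
        ext z
        constructor
        · rintro ⟨w, hw, h⟩
          rwa [(algebraMap E K).injective h] at hw
        · intro hz
          exact ⟨z, hz, rfl⟩
      rw [h2, Set.union_empty, Subring.closure_eq]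
    refine ⟨?_, ∅, Set.finite_empty, ?_, ?_⟩
    · rintro _ ⟨w, -, rfl⟩
      exact ⟨w, rfl⟩
    · rw [h1]
      exact hM
    · rw [h1]
      exact p_base _ R hM hLU
  refine Inv.step (F := E) (F' := (algebraMap E K).fieldRange) (φ := algebraMap E K) rfl h0 ?_
  intro A hM hSU
  exact key_triv A hM hSU (algebraMap E K).rangeRestrictField_bijective.2

/-- The conclusion. -/
theorem sub_fin [IsNoetherianRing R] (h : Inv V R (⊤ : Subfield K).subtype) (A : Subring K)
    (G : Set K) (hG : G.Finite) (hA : A = Subring.closure ((R : Set K) ∪ G))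
    (hAM : Mod V A) : LogUnif V A := by
  have h1 : Inv V R (RingHom.id K) := by
    refine Inv.step (F := (⊤ : Subfield K)) (F' := K) (φ := (⊤ : Subfield K).subtype) rfl h ?_
    intro A hM hSU
    exact key_triv A hM hSU fun z => ⟨⟨z, trivial⟩, rfl⟩
  obtain ⟨-, U, hU, hM, hSU⟩ := h1
  have hV : V.comap (RingHom.id K) = V := by
    ext z
    rfl
  rw [hV] at hM hSU
  have hpre : (RingHom.id K) ⁻¹' (R : Set K) = (R : Set K) := rfl
  rw [hpre] at hM hSU
  have hGA : ∀ g ∈ G, g ∈ V := fun g hg => hAM.1 (by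
    rw [hA]
    exact Subring.subset_closure (Or.inr hg))
  have hUA : ∀ g ∈ U, g ∈ V := fun g hg => hM.1 (Subring.subset_closure (Or.inr hg))
  have h2 := (p_move V _ hM G hG hGA).1 hSU
  have h3 : Subring.closure ((Subring.closure ((R : Set K) ∪ U) : Set K) ∪ G) =
      Subring.closure ((A : Set K) ∪ U) := by
    rw [hA]
    apply le_antisymm
    · rw [Subring.closure_le]
      rintro z (hz | hz)
      · refine (?_ : Subring.closure ((R : Set K) ∪ U) ≤ _) hz
        rw [Subring.closure_le]
        rintro z (hz | hz)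
        · exact Subring.subset_closure (Or.inl (Subring.subset_closure (Or.inl hz)))
        · exact Subring.subset_closure (Or.inr hz)
      · exact Subring.subset_closure (Or.inl (Subring.subset_closure (Or.inr hz)))
    · rw [Subring.closure_le]
      rintro z (hz | hz)
      · refine (?_ : Subring.closure ((R : Set K) ∪ G) ≤ _) hz
        rw [Subring.closure_le]
        rintro z (hz | hz)
        · exact Subring.subset_closure (Or.inl (Subring.subset_closure (Or.inl hz)))
        · exact Subring.subset_closure (Or.inr hz)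
      · exact Subring.subset_closure (Or.inl (Subring.subset_closure (Or.inr hz)))
  rw [h3] at h2
  have h4 : SU V A := (p_move V A hAM U hU hUA).2 h2
  have hN : IsNoetherianRing A := by
    rw [hA]
    exact p_noe R G hG
  exact p_fin V A hAM.1 h4

end sub

end Pool.Agent.H176.DT
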