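import Pool.Agent.H59.L.S8.H176.DT.B1

/-!
# Residues in a defectless extension
-/

set_option autoImplicit false
set_option linter.unusedVariables false
set_option linter.unusedSectionVars false

universe u

namespace Pool.Agent.H176.DT

open Pool.Agent.W418.LU2 IsLocalRing

section res

variable {E F : Type u} [Field E] [Field F] [Algebra E F] {V : ValuationSubring F} {q r : ℕ}
  {t : Fin q → F} {ee : Fin q → ℕ} {b : Fin r → F} {ff : Fin r → ℕ}
  (hS : Str (E := E) V t ee b ff)

include hS

/-- The monomials in the residues are orthogonal. -/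
lemma borth (c : ((j : Fin r) → Fin (ff j)) → E) (ν : (j : Fin r) → Fin (ff j)) :
    V.valuation (algebraMap E F (c ν)) ≤
      V.valuation (∑ ν, algebraMap E F (c ν) * ∏ j, b j ^ (ν j : ℕ)) := by
  classical
  let μ0 : (i : Fin q) → Fin (ee i) := fun i => ⟨0, hS.e0 i⟩
  have h1 := hS.orth (fun p => if p.1 = μ0 then c p.2 else 0) (μ0, ν)
  have h2 : V.valuation (∏ j, b j ^ (ν j : ℕ)) = 1 := by
    rw [map_prod]
    exact Finset.prod_eq_one fun j _ => by rw [map_pow, hS.b1, one_pow]
  have h3 : ∏ i, t i ^ (μ0 i : ℕ) = 1 := Finset.prod_eq_one fun i _ => pow_zero _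
  simp only [if_true] at h1
  rw [h3, one_mul, map_mul, h2, mul_one] at h1
  refine h1.trans (le_of_eq ?_)
  congr 1
  rw [Fintype.sum_prod_type, Finset.sum_eq_single μ0]
  · refine Finset.sum_congr rfl fun ν' _ => ?_
    simp only [if_true]
    rw [h3, one_mul]
  · intro μ _ hμ
    refine Finset.sum_eq_zero fun ν' _ => ?_
    simp only [if_neg hμ]
    rw [map_zero, zero_mul]
  · intro h; exact absurd (Finset.mem_univ _) h

/-- The powers of `b j` are residually independent over the previous elements. -/
lemma bmin (j : Fin r) (w : Fin (ff j) → F)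
    (hw : ∀ k, w k ∈ lo V.toSubring (Subring.closure
      (((V.comap (algebraMap E F)).toSubring.map (algebraMap E F) : Set F) ∪
        {z | ∃ l : Fin r, (l : ℕ) < (j : ℕ) ∧ b l = z})))
    (h : V.valuation (∑ k, w k * b j ^ (k : ℕ)) < 1) (k : Fin (ff j)) :
    V.valuation (w k) < 1 := by
  classical
  choose c hcV hcs hc using fun k => hS.fld j (w k) (hw k)
  have hb : ∀ ν : (j : Fin r) → Fin (ff j), V.valuation (∏ j, b j ^ (ν j : ℕ)) = 1 := by
    intro ν
    rw [map_prod]
    exact Finset.prod_eq_one fun j _ => by rw [map_pow, hS.b1, one_pow]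
  let S : Fin (ff j) → F := fun k => ∑ ν, algebraMap E F (c k ν) * ∏ i, b i ^ (ν i : ℕ)
  have h1 : V.valuation (∑ k, S k * b j ^ (k : ℕ)) < 1 := by
    have h2 : ∑ k, S k * b j ^ (k : ℕ) = ∑ k, w k * b j ^ (k : ℕ) -
        ∑ k, (w k - S k) * b j ^ (k : ℕ) := by
      rw [← Finset.sum_sub_distrib]
      exact Finset.sum_congr rfl fun k _ => by ring
    rw [h2]
    refine lt_of_le_of_lt (V.valuation.map_sub _ _) (max_lt h ?_)
    refine V.valuation.map_sum_lt one_ne_zero fun k _ => ?_
    rw [map_mul, map_pow, hS.b1, one_pow, mul_one]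
    exact hc k
  let ν0 : Fin (ff j) := ⟨0, hS.f0 j⟩
  let c' : ((j : Fin r) → Fin (ff j)) → E := fun ν => c (ν j) (Function.update ν j ν0)
  have hsum : ∑ k, S k * b j ^ (k : ℕ) = ∑ ν, algebraMap E F (c' ν) * ∏ i, b i ^ (ν i : ℕ) := by
    have h2 : ∀ k, S k * b j ^ (k : ℕ) = ∑ ν : (j : Fin r) → Fin (ff j),
        if ν j = k then algebraMap E F (c' ν) * ∏ i, b i ^ (ν i : ℕ) else 0 := by
      intro k
      change (∑ ν, algebraMap E F (c k ν) * ∏ i, b i ^ (ν i : ℕ)) * b j ^ (k : ℕ) = _
      rw [Finset.sum_mul]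
      have h3 : ∀ ν : (j : Fin r) → Fin (ff j), ν j ≠ ν0 → c k ν = 0 := by
        intro ν hν
        by_contra h4
        have h5 := hcs k ν h4 j le_rfl
        exact hν (Fin.ext h5)
      have h4 : ∑ ν : (j : Fin r) → Fin (ff j),
          algebraMap E F (c k ν) * (∏ i, b i ^ (ν i : ℕ)) * b j ^ (k : ℕ) =
          ∑ ν ∈ Finset.univ.filter (fun ν : (j : Fin r) → Fin (ff j) => ν j = ν0),
          algebraMap E F (c k ν) * (∏ i, b i ^ (ν i : ℕ)) * b j ^ (k : ℕ) := by
        symm
        apply Finset.sum_subset (Finset.filter_subset _ _)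
        intro ν _ hν
        rw [h3 ν (fun h => hν (Finset.mem_filter.2 ⟨Finset.mem_univ _, h⟩)), map_zero, zero_mul,
          zero_mul]
      rw [h4, ← Finset.sum_filter]
      refine Finset.sum_nbij' (fun ν => Function.update ν j k) (fun ν => Function.update ν j ν0)
        ?_ ?_ ?_ ?_ ?_
      · intro ν _
        rw [Finset.mem_filter]
        exact ⟨Finset.mem_univ _, Function.update_self _ _ _⟩
      · intro ν _
        rw [Finset.mem_filter]
        exact ⟨Finset.mem_univ _, Function.update_self _ _ _⟩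
      · intro ν hν
        rw [Finset.mem_filter] at hν
        rw [Function.update_idem, ← hν.2, Function.update_eq_self]
      · intro ν hν
        rw [Finset.mem_filter] at hν
        rw [Function.update_idem, ← hν.2, Function.update_eq_self]
      · intro ν hν
        rw [Finset.mem_filter] at hν
        have h5 : c' (Function.update ν j k) = c k ν := by
          change c (Function.update ν j k j) (Function.update (Function.update ν j k) j ν0) = _
          rw [Function.update_self, Function.update_idem, ← hν.2, Function.update_eq_self]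
        rw [h5, mul_assoc]
        congr 1
        rw [← Finset.mul_prod_erase _ _ (Finset.mem_univ j),
          ← Finset.mul_prod_erase _ (fun i => b i ^ (Function.update ν j k i : ℕ))
            (Finset.mem_univ j), hν.2, Function.update_self]
        have h6 : ∏ i ∈ Finset.univ.erase j, b i ^ (Function.update ν j k i : ℕ) =
            ∏ i ∈ Finset.univ.erase j, b i ^ (ν i : ℕ) :=
          Finset.prod_congr rfl fun i hi => by
            rw [Function.update_of_ne (Finset.mem_erase.1 hi).1]
        rw [h6]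
        have h7 : (ν0 : ℕ) = 0 := rfl
        rw [h7, pow_zero, one_mul, mul_comm]
    rw [Finset.sum_congr rfl fun k _ => h2 k, Finset.sum_comm]
    refine Finset.sum_congr rfl fun ν _ => ?_
    rw [Finset.sum_ite_eq]
    simp
  rw [hsum] at h1
  have h2 : V.valuation (S k) < 1 := by
    refine V.valuation.map_sum_lt one_ne_zero fun ν _ => ?_
    rw [map_mul, hb, mul_one]
    by_cases hν : c k ν = 0
    · rw [hν, map_zero, map_zero]
      exact zero_lt_one
    · have h3 := hcs k ν hν j le_rfl
      have h4 := borth hS c' (Function.update ν j k)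
      have h5 : c' (Function.update ν j k) = c k ν := by
        change c (Function.update ν j k j) (Function.update (Function.update ν j k) j ν0) = _
        have h6 : ν j = ν0 := Fin.ext h3
        rw [Function.update_self, Function.update_idem, ← h6, Function.update_eq_self]
      rw [h5] at h4
      exact h4.trans_lt h1
  have h3 : w k = (w k - S k) + S k := by ring
  rw [h3]
  exact lt_of_le_of_lt (V.valuation.map_add _ _) (max_lt (hc k) h2)

end res

section nu

variable {E F : Type u} [Field E] [Field F] [Algebra E F] {Θ : Type} [Fintype Θ] {y : Θ → F}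
  {V : ValuationSubring F}

lemma NU_of_val {z : FF E Θ} {w : F} (h : Pr (ph (E := E) y) z w) (hw : V.valuation w < 1) :
    NU (AT E y V) z := by
  rintro ⟨h0, w', hw', h'⟩
  have h1 : w * w' = 1 := by
    have h2 := h.mul h'
    rw [mul_inv_cancel₀ h0] at h2
    exact h2.unique Pr.one
  have h2 : V.valuation w * V.valuation w' = 1 := by rw [← map_mul, h1, map_one]
  have h3 : V.valuation w' ≤ 1 := (V.valuation_le_one_iff _).2 hw'
  have h4 : (1 : V.ValueGroup) ≤ V.valuation w := by
    calc (1 : V.ValueGroup) = V.valuation w * V.valuation w' := h2.symm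
      _ ≤ V.valuation w * 1 := mul_le_mul_right h3 _
      _ = V.valuation w := mul_one _
  exact absurd hw (not_lt.2 h4)

lemma val_of_NU {z : FF E Θ} {w : F} (h : Pr (ph (E := E) y) z w) (hw : w ∈ V)
    (hz : NU (AT E y V) z) : V.valuation w < 1 := by
  rw [val_lt_one_iff]
  refine ⟨hw, ?_⟩
  rintro ⟨h0, h1⟩
  exact hz ⟨h.ne_zero h0, _, h1, h.inv h0⟩

end nu

section chain

/-- There is a full system of `c` parameters in the set `Q`. -/
def FX {F : Type u} [Field F] (A P : Subring F) (c : ℕ) (Q : Set F) : Prop :=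
  ∃ (ι : Type) (_ : Fintype ι) (z : ι → F), Full A P z ∧ Fintype.card ι = c ∧ ∀ i, z i ∈ Q

variable {E F : Type u} [Field E] [Field F] [Algebra E F] {Θ : Type} [Fintype Θ]

open Polynomial in
/-- Adjoining all variables. -/
theorem chain (hadj : S_adj.{u}) (halg : S_alg.{u}) (y : Θ → F) (V : ValuationSubring F)
    (hyV : ∀ θ, y θ ∈ V) (C : Subring E) (hC : C ≤ (V.comap (algebraMap E F)).toSubring) (n : ℕ)
    (ord : Θ ≃ Fin n) (Q : Set (FF E Θ)) (c : ℕ)
    (h0 : FX (AT E y V) (lo (AT E y V) (C.map (emb E Θ))) c Q)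
    (hg : ∀ θ, ∃ g : (lo (AT E y V) (Subring.closure ((C.map (emb E Θ) : Set (FF E Θ)) ∪
      Zc E '' {l | ord l < ord θ})))[X], g.Monic ∧
      NU (AT E y V) (eval₂ (Subring.subtype _) (Zc E θ) g) ∧
      eval₂ (Subring.subtype _) (Zc E θ) g ∈ Q ∧
      ∀ h : (lo (AT E y V) (Subring.closure ((C.map (emb E Θ) : Set (FF E Θ)) ∪
        Zc E '' {l | ord l < ord θ})))[X], h.degree < g.degree →
        NU (AT E y V) (eval₂ (Subring.subtype _) (Zc E θ) h) →
        ∀ i, NU (AT E y V) (h.coeff i : FF E Θ)) :
    FX (AT E y V) (RZ C y V) (c + n) Q := by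
  classical
  have hZ : ∀ θ, Zc E θ ∈ AT E y V := fun θ => (Pr_Z y θ).mem_AA.2 (hyV θ)
  have hCA : C.map (emb E Θ) ≤ AT E y V := by
    rintro _ ⟨e, he, rfl⟩
    exact (emb_mem V e).2 (hC he)
  have hSA : ∀ U : Set Θ, Subring.closure ((C.map (emb E Θ) : Set (FF E Θ)) ∪ Zc E '' U) ≤
      AT E y V := by
    intro U
    rw [Subring.closure_le]
    rintro z (hz | ⟨θ, -, rfl⟩)
    · exact hCA hz
    · exact hZ θ
  have key : ∀ k : ℕ, k ≤ n → FX (AT E y V) (lo (AT E y V) (Subring.closure
      ((C.map (emb E Θ) : Set (FF E Θ)) ∪ Zc E '' {l | (ord l : ℕ) < k}))) (c + k) Q := by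
    intro k
    induction k with
    | zero =>
      intro _
      have h1 : {l : Θ | (ord l : ℕ) < 0} = ∅ := by ext l; simp
      rw [h1, Set.image_empty, Set.union_empty, Subring.closure_eq]
      exact h0
    | succ k ih =>
      intro hk
      obtain ⟨ι, _, z, hz, hcard, hzQ⟩ := ih (by omega)
      let θ : Θ := ord.symm ⟨k, by omega⟩
      have hθ : (ord θ : ℕ) = k := by simp [θ]
      have hset : {l | ord l < ord θ} = {l | (ord l : ℕ) < k} := by
        ext l
        rw [Set.mem_ofPred_eq, Set.mem_ofPred_eq, Fin.lt_def, hθ]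
      have hgθ := hg θ
      rw [hset] at hgθ
      obtain ⟨g, hg1, hg2, hg3, hg4⟩ := hgθ
      have h1 := hadj loc_AA (hSA _) hz (Zc E θ) (hZ θ)
        (halg (AT E y V) C _ θ (by
          rw [Set.mem_ofPred_eq, hθ]
          exact lt_irrefl _)) g hg1 hg2 hg4
      rw [closure_insert_closure] at h1
      have h2 : insert (Zc E θ) ((C.map (emb E Θ) : Set (FF E Θ)) ∪
          Zc E '' {l | (ord l : ℕ) < k}) = (C.map (emb E Θ) : Set (FF E Θ)) ∪
          Zc E '' {l | (ord l : ℕ) < k + 1} := by
        rw [← Set.union_insert, ← Set.image_insert_eq]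
        congr 2
        ext l
        rw [Set.mem_insert_iff, Set.mem_ofPred_eq, Set.mem_ofPred_eq, Nat.lt_succ_iff_lt_or_eq,
          or_comm]
        refine or_congr_right ?_
        constructor
        · rintro rfl; exact hθ
        · intro h
          apply ord.injective
          apply Fin.ext
          rw [h, hθ]
      rw [h2] at h1
      refine ⟨ι ⊕ Unit, inferInstance, _, h1, ?_, ?_⟩
      · rw [Fintype.card_sum, Fintype.card_unit, hcard]
        ring
      · rintro (i | i)
        · exact hzQ i
        · exact hg3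
  have h1 := key n le_rfl
  have h2 : Zc E '' {l : Θ | (ord l : ℕ) < n} = Set.range (Zc E) := by
    have h3 : {l : Θ | (ord l : ℕ) < n} = Set.univ := by
      ext l
      simp
    rw [h3, Set.image_univ]
  rw [h2] at h1
  exact h1

end chain

end Pool.Agent.H176.DT
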