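import Pool.Agent.H59.L.S8.H176.DT.B5

/-!
# The local rings of defectless extensions
-/

set_option autoImplicit false
set_option linter.unusedVariables false
set_option linter.unusedSectionVars false

universe u

namespace Pool.Agent.H176.DT

open Pool.Agent.W418.LU2 IsLocalRing

section main

variable {E F : Type u} [Field E] [Field F] [Algebra E F] {V : ValuationSubring F} {q r s : ℕ}
  {t : Fin q → F} {ee : Fin q → ℕ} {b : Fin r → F} {ff : Fin r → ℕ}
  {x : Fin s → E} {C : Subring E}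

/-- The small monomials are monomials in a positive basis. -/
theorem exists_Y (hell : S_ell.{u}) (hS : Str (E := E) V t ee b ff) (hx0 : ∀ i, x i ≠ 0)
    (hxi : ∀ δ : Fin s → ℤ, V.valuation (algebraMap E F (mo x δ)) = 1 → δ = 0)
    {γ : Fin q → Fin s → ℤ} {m₀ : Fin q → Fin q → ℤ} (hm₀ : ∀ i j, i ≤ j → m₀ i j = 0)
    (hrel : ∀ i, V.valuation (t i ^ ee i) = V.valuation (MM x t (γ i) (m₀ i)))
    {τ : Fin q → F} (hτ : ∀ i, τ i = t i ^ ee i * (MM x t (γ i) (m₀ i))⁻¹)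
    (K : Finset ((Fin s → ℤ) × (Fin q → ℤ)))
    (hK : ∀ k ∈ K, V.valuation (MM x t k.1 k.2) < 1)
    (hKx : ∀ i, ((Pi.single i 1 : Fin s → ℤ), (0 : Fin q → ℤ)) ∈ K) :
    ∃ (L : Fin s → Fin s → ℤ) (M : Fin s → Fin q → ℤ),
      (∀ j, V.valuation (MM x t (L j) (M j)) < 1) ∧
      ∀ k ∈ K, ∃ (n : Fin s → ℕ) (κ : Fin q → ℤ), n ≠ 0 ∧ MM x t k.1 k.2 =
        mo (fun j => MM x t (L j) (M j)) (fun j => (n j : ℤ)) * mo τ κ := by
  classical
  have ht0 := hS.t0
  obtain ⟨L, M, h1, h2⟩ := perron hx0 ht0 hell hxi hS.e0 hm₀ hrel K hK hKx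
  refine ⟨L, M, h1, fun k hk => ?_⟩
  obtain ⟨n, hn⟩ := h2 k hk
  have hτ1 : ∀ i, V.valuation (τ i) = 1 := by
    intro i
    rw [hτ, map_mul, map_inv₀, hrel, mul_inv_cancel₀]
    exact (map_ne_zero _).2 (MM_ne hx0 ht0 _ _)
  have h3 : MM x t (k.1 + -(∑ j, (n j : ℤ) • L j)) (k.2 + -(∑ j, (n j : ℤ) • M j)) =
      MM x t k.1 k.2 * (mo (fun j => MM x t (L j) (M j)) (fun j => (n j : ℤ)))⁻¹ := by
    rw [MM_add hx0 ht0, MM_neg, MM_mo hx0 ht0]
  have hne : mo (fun j => MM x t (L j) (M j)) (fun j => (n j : ℤ)) ≠ 0 :=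
    mo_ne_zero (fun j => MM_ne hx0 ht0 _ _) _
  obtain ⟨κ, hκ⟩ := val_one_mo hx0 ht0 hS.min hxi hm₀ hτ hτ1 _ _ (by
    rw [h3, map_mul, map_inv₀, hn, mul_inv_cancel₀]
    exact (map_ne_zero _).2 hne)
  refine ⟨n, κ, ?_, ?_⟩
  · rintro rfl
    have h4 := hK k hk
    rw [hn] at h4
    have h5 : (fun j : Fin s => (((0 : Fin s → ℕ) j : ℕ) : ℤ)) = 0 := by
      funext j
      simp
    rw [h5, mo_zero, map_one] at h4
    exact lt_irrefl _ h4
  · rw [← hκ, h3, mul_comm (MM x t k.1 k.2), mul_inv_cancel_left₀ hne]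

/-- The order of the variables. -/
def ordT (r q s : ℕ) : TT r q s ≃ Fin (r + (q + s)) :=
  (Equiv.sumCongr (Equiv.refl _) finSumFinEquiv).trans finSumFinEquiv

lemma ordT_b (j : Fin r) : ((ordT r q s (Sum.inl j) : Fin _) : ℕ) = j := by
  simp [ordT]

lemma ordT_t (i : Fin q) : ((ordT r q s (Sum.inr (Sum.inl i)) : Fin _) : ℕ) = r + i := by
  simp [ordT]

lemma ordT_Y (j : Fin s) : ((ordT r q s (Sum.inr (Sum.inr j)) : Fin _) : ℕ) = r + (q + j) := by
  simp [ordT]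

lemma mo_single_nat {F : Type u} [Field F] {ι : Type} [Fintype ι] [DecidableEq ι] (x : ι → F)
    (i : ι) : mo x (fun j => ((Pi.single i 1 : ι → ℕ) j : ℤ)) = x i := by
  rw [← mo_single x i]
  congr 1
  funext j
  by_cases h : j = i
  · subst h; simp
  · rw [Pi.single_eq_of_ne h, Pi.single_eq_of_ne h]; rfl

/-- The data of a stage for the defectless extension. -/
structure Dat (V : ValuationSubring F) (t : Fin q → F) (ee : Fin q → ℕ) (b : Fin r → F)
    (ff : Fin r → ℕ) (x : Fin s → E) (C : Subring E) (τ : Fin q → F) (Y : Fin s → F)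
    (K : Finset ((Fin s → ℤ) × (Fin q → ℤ))) : Prop where
  str : Str (E := E) V t ee b ff
  hC : C ≤ (V.comap (algebraMap E F)).toSubring
  t1 : ∀ i, V.valuation (τ i) = 1
  Y1 : ∀ j, V.valuation (Y j) < 1
  Y0 : ∀ j, Y j ≠ 0
  K0 : ∀ k ∈ K, ∃ (n : Fin s → ℕ) (κ : Fin q → ℤ), n ≠ 0 ∧
    MM x t k.1 k.2 = mo Y (fun j => (n j : ℤ)) * mo τ κ
  K1 : ∀ k ∈ K, V.valuation (MM x t k.1 k.2) < 1

/-- The coefficients are good. -/
def Good (x : Fin s → E) (C : Subring E) (V : ValuationSubring F) (t : Fin q → F)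
    (K : Finset ((Fin s → ℤ) × (Fin q → ℤ)))
    (c : ((i : Fin q) → Fin (ee i)) × ((j : Fin r) → Fin (ff j)) → E) : Prop :=
  ∀ p, c p ≠ 0 →
    (V.valuation (algebraMap E F (c p) * ∏ i, t i ^ (p.1 i : ℕ)) = 1 ∧
      c p ∈ lo (V.comap (algebraMap E F)).toSubring C ∧ ∀ i, (p.1 i : ℕ) = 0) ∨
    ∃ (u : E) (l : Fin s → ℤ), u ∈ lo (V.comap (algebraMap E F)).toSubring C ∧
      c p = u * mo x l ∧ (l, fun i => ((p.1 i : ℕ) : ℤ)) ∈ K

/-- The element of `F` with given coordinates. -/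
def el (t : Fin q → F) (b : Fin r → F)
    (c : ((i : Fin q) → Fin (ee i)) × ((j : Fin r) → Fin (ff j)) → E) : F :=
  ∑ p, algebraMap E F (c p) * ((∏ i, t i ^ (p.1 i : ℕ)) * ∏ j, b j ^ (p.2 j : ℕ))

variable {τ : Fin q → F} {Y : Fin s → F} {K : Finset ((Fin s → ℤ) × (Fin q → ℤ))}

theorem Dat.lift (D : Dat (E := E) V t ee b ff x C τ Y K)
    (c : ((i : Fin q) → Fin (ee i)) × ((j : Fin r) → Fin (ff j)) → E) (hc : Good x C V t K c) :
    ∃ ζ, Pr (ph (E := E) (yy b τ Y)) ζ (el t b c) ∧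
      InJ (JY C b τ Y V) (ζ - Z0 V t s c) :=
  lift_sum D.t1 D.Y1 D.Y0 D.str.b1 D.hC D.K0 D.K1 c hc

lemma Z0_zero (c : ((i : Fin q) → Fin (ee i)) × ((j : Fin r) → Fin (ff j)) → E)
    (h : ∀ p, V.valuation (algebraMap E F (c p) * ∏ i, t i ^ (p.1 i : ℕ)) ≠ 1) :
    Z0 V t s c = 0 := by
  classical
  unfold Z0
  exact Finset.sum_eq_zero fun p _ => if_neg (h p)

/-- The residual part of a lift lies in the ring generated by the `b j`. -/
lemma Z0_mem {y : TT r q s → F} {W : Set (FF E (TT r q s))}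
    (hW : ∀ j, Zc E (Sum.inl j : TT r q s) ∈ W)
    (c : ((i : Fin q) → Fin (ee i)) × ((j : Fin r) → Fin (ff j)) → E) (hc : Good x C V t K c)
    (hK1 : ∀ k ∈ K, V.valuation (MM x t k.1 k.2) < 1)
    (hC : C ≤ (V.comap (algebraMap E F)).toSubring) :
    Z0 V t s c ∈ lo (AT E y V) (Subring.closure
      ((C.map (emb E (TT r q s)) : Set (FF E (TT r q s))) ∪ W)) := by
  classical
  have hz : ∀ j, Zc E (Sum.inl j : TT r q s) ∈ lo (AT E y V) (Subring.closure
      ((C.map (emb E (TT r q s)) : Set (FF E (TT r q s))) ∪ W)) := fun j =>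
    le_lo _ _ (Subring.subset_closure (Or.inr (hW j)))
  unfold Z0
  refine Subring.sum_mem _ fun p _ => ?_
  by_cases h : V.valuation (algebraMap E F (c p) * ∏ i, t i ^ (p.1 i : ℕ)) = 1
  · rw [if_pos h]
    have h0 : c p ≠ 0 := by
      intro h0
      rw [h0, map_zero, zero_mul, map_zero] at h
      exact zero_ne_one h
    rcases hc p h0 with ⟨-, h2, -⟩ | ⟨u, l, hu, hcp, hk⟩
    · exact Subring.mul_mem _ (emb_mem_lo h2 _) (Subring.prod_mem _ fun j _ =>
        Subring.pow_mem _ (hz j) _)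
    · exfalso
      have h5 : algebraMap E F (c p) * ∏ i, t i ^ (p.1 i : ℕ) = algebraMap E F u *
          MM x t l fun i => ((p.1 i : ℕ) : ℤ) := by
        rw [hcp, map_mul, mul_assoc]
        unfold MM
        congr 2
        unfold mo
        exact Finset.prod_congr rfl fun i _ => (zpow_natCast _ _).symm
      rw [h5, map_mul] at h
      have h6 : V.valuation (algebraMap E F u) ≤ 1 :=
        (V.valuation_le_one_iff _).2 (lo_le hC hu)
      exact (lt_of_le_of_lt (mul_le_of_le_one_left' h6) (hK1 _ hk)).ne h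
  · rw [if_neg h]
    exact Subring.zero_mem _

/-- The values of the elements of the ideal of the coordinates. -/
lemma JY_val (D : Dat (E := E) V t ee b ff x C τ Y K) {v : FF E (TT r q s)}
    (hv : InJ (JY C b τ Y V) v) {w : F} (hw : Pr (ph (E := E) (yy b τ Y)) v w) :
    V.valuation w < 1 := by
  obtain ⟨hv, hJ⟩ := hv
  have hle : RZ C (yy b τ Y) V ≤ AT E (yy b τ Y) V :=
    lo_le (RZ_le (E := E) (C := C) (V := V) (b := b) (τ := τ) (Y := Y) D.t1 D.Y1 D.str.b1 D.hC)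
  have key : ∀ z : RZ C (yy b τ Y) V, z ∈ JY C b τ Y V →
      ∃ w, Pr (ph (E := E) (yy b τ Y)) (z : FF E (TT r q s)) w ∧ V.valuation w < 1 := by
    intro z hz
    unfold JY at hz
    induction hz using Submodule.span_induction with
    | mem z hz =>
      obtain ⟨j, rfl⟩ := hz
      exact ⟨Y j, Pr_Z (E := E) (yy b τ Y) (Sum.inr (Sum.inr j)), D.Y1 j⟩
    | zero => exact ⟨0, Pr.zero, by rw [map_zero]; exact zero_lt_one⟩
    | add a b _ _ ha hb =>
      obtain ⟨w, hw, h⟩ := ha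
      obtain ⟨w', hw', h'⟩ := hb
      exact ⟨_, hw.add hw', lt_of_le_of_lt (V.valuation.map_add _ _) (max_lt h h')⟩
    | smul a c _ hc =>
      obtain ⟨w, hw, h⟩ := hc
      obtain ⟨w', hw', h'⟩ := hle a.2
      refine ⟨_, h'.mul hw, ?_⟩
      rw [map_mul]
      exact lt_of_le_of_lt (mul_le_of_le_one_left' ((V.valuation_le_one_iff _).2 hw')) h
  obtain ⟨w', hw', h⟩ := key _ hJ
  rwa [hw'.unique hw] at h

end main

end Pool.Agent.H176.DT
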