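import Pool.Agent.H59.L.S8.H176.DT.B7

/-!
# The equations of defectless extensions are independent, continued
-/

set_option autoImplicit false
set_option linter.unusedVariables false
set_option linter.unusedSectionVars false

universe u

namespace Pool.Agent.H176.DT

open Pool.Agent.W418.LU2 IsLocalRing

section main

variable {E F : Type u} [Field E] [Field F] [Algebra E F] {V : ValuationSubring F} {q r s : ℕ}
  {t : Fin q → F} {ee : Fin q → ℕ} {b : Fin r → F} {ff : Fin r → ℕ}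
  {x : Fin s → E} {C : Subring E} {τ : Fin q → F} {Y : Fin s → F}
  {K : Finset ((Fin s → ℤ) × (Fin q → ℤ))}

/-- The residual equations. -/
noncomputable def GG (q s : ℕ) {r : ℕ} {ff : Fin r → ℕ} (j : Fin r)
    (h : Fin (ff j) → MvPolynomial (Fin r) E) : FF E (TT r q s) :=
  Zc E (Sum.inl j : TT r q s) ^ ff j +
    ∑ l, MvPolynomial.aeval (fun i => Zc E (Sum.inl i : TT r q s)) (h l) *
      Zc E (Sum.inl j : TT r q s) ^ (l : ℕ)

lemma Pr_GG (j : Fin r) (h : Fin (ff j) → MvPolynomial (Fin r) E) :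
    Pr (ph (E := E) (yy b τ Y)) (GG (E := E) q s j h)
      (b j ^ ff j + ∑ l, MvPolynomial.aeval b (h l) * b j ^ (l : ℕ)) := by
  have h1 : Pr (ph (E := E) (yy b τ Y)) (Zc E (Sum.inl j : TT r q s)) (b j) :=
    Pr_Z (E := E) (yy b τ Y) (Sum.inl j)
  refine (h1.pow _).add (Pr.sum _ fun l _ => Pr.mul ?_ (h1.pow _))
  exact Pr_aeval (E := E) (yy b τ Y) (fun i => (Sum.inl i : TT r q s)) (h l)

lemma GG_mem (hC : C ≤ (V.comap (algebraMap E F)).toSubring) (j : Fin r)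
    (h : Fin (ff j) → MvPolynomial (Fin r) E)
    (hh : ∀ l m, (h l).coeff m ∈ lo (V.comap (algebraMap E F)).toSubring C) :
    GG (E := E) q s j h ∈ RZ C (yy b τ Y) V := by
  refine Subring.add_mem _ (Subring.pow_mem _ (Z_mem _) _) (Subring.sum_mem _ fun l _ =>
    Subring.mul_mem _ ?_ (Subring.pow_mem _ (Z_mem _) _))
  refine aeval_mem (fun i => (Sum.inl i : TT r q s)) Set.univ (fun i _ => Z_mem _) (h l) ?_
    fun m => emb_mem_lo (hh l m) _
  rw [MvPolynomial.supported_univ]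
  trivial

variable (D : Dat (E := E) V t ee b ff x C τ Y K)
  (hxm : ∀ i, x i ∈ lo (V.comap (algebraMap E F)).toSubring C)
  (hKx : ∀ i, ((Pi.single i 1 : Fin s → ℤ), (0 : Fin q → ℤ)) ∈ K)
  {u : Fin q → E} (hu : ∀ i, u i ∈ lo (V.comap (algebraMap E F)).toSubring C)
  {cw : Fin q → ((i : Fin q) → Fin (ee i)) × ((j : Fin r) → Fin (ff j)) → E}
  (hcw : ∀ i, Good x C V t K (cw i)) (hτw : ∀ i, τ i = algebraMap E F (u i) * el t b (cw i))
  {h : ∀ j, Fin (ff j) → MvPolynomial (Fin r) E}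
  (hsupp : ∀ j l, h j l ∈ MvPolynomial.supported E {i | i < j})
  (hh : ∀ j l m, (h j l).coeff m ∈ lo (V.comap (algebraMap E F)).toSubring C)
  {cc : Fin r → ((i : Fin q) → Fin (ee i)) × ((j : Fin r) → Fin (ff j)) → E}
  (hcc : ∀ j, Good x C V t K (cc j))
  (hc1 : ∀ j p, V.valuation (algebraMap E F (cc j p) * ∏ i, t i ^ (p.1 i : ℕ)) < 1)
  (hbc : ∀ j, b j ^ ff j + ∑ l, MvPolynomial.aeval b (h j l) * b j ^ (l : ℕ) = el t b (cc j))

include D hxm hKx hcw hτw hu hsupp hh hcc hc1 hbc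

/-- The equations. -/
theorem exists_eqs : ∃ e : TT r q s → RZ C (yy b τ Y) V,
    (∀ k, Pr (ph (E := E) (yy b τ Y)) (e k : FF E (TT r q s)) 0) ∧
    (∀ j, InJ (JY C b τ Y V) (GG (E := E) q s j (h j) - e (Sum.inl j))) ∧
    (∀ i, InJ (JY C b τ Y V) (Zc E (Sum.inr (Sum.inl i) : TT r q s) -
      emb E (TT r q s) (u i) * Z0 V t s (cw i) - e (Sum.inr (Sum.inl i)))) ∧
    (∀ i, InJ (JY C b τ Y V) (emb E (TT r q s) (x i) - e (Sum.inr (Sum.inr i)))) := by
  classical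
  have hle : RZ C (yy b τ Y) V ≤ AT E (yy b τ Y) V :=
    lo_le (RZ_le (E := E) (C := C) (V := V) (b := b) (τ := τ) (Y := Y) D.t1 D.Y1 D.str.b1 D.hC)
  have h1 : ∀ j, ∃ e : RZ C (yy b τ Y) V, Pr (ph (E := E) (yy b τ Y)) (e : FF E (TT r q s)) 0 ∧
      InJ (JY C b τ Y V) (GG (E := E) q s j (h j) - e) := by
    intro j
    obtain ⟨ζ, hζ, hζJ⟩ := D.lift (cc j) (hcc j)
    rw [Z0_zero (cc j) fun p => (hc1 j p).ne, sub_zero] at hζJ
    refine ⟨⟨GG (E := E) q s j (h j) - ζ, Subring.sub_mem _ (GG_mem D.hC j (h j) (hh j))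
      hζJ.mem⟩, ?_, ?_⟩
    · have h2 := (Pr_GG (q := q) (s := s) (b := b) (τ := τ) (Y := Y) j (h j)).add hζ.neg
      rw [hbc, add_neg_cancel, ← sub_eq_add_neg] at h2
      exact h2
    · change InJ _ (_ - (GG (E := E) q s j (h j) - ζ))
      rw [sub_sub_cancel]
      exact hζJ
  have h2 : ∀ i, ∃ e : RZ C (yy b τ Y) V, Pr (ph (E := E) (yy b τ Y)) (e : FF E (TT r q s)) 0 ∧
      InJ (JY C b τ Y V) (Zc E (Sum.inr (Sum.inl i) : TT r q s) -
        emb E (TT r q s) (u i) * Z0 V t s (cw i) - e) := by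
    intro i
    obtain ⟨ζ, hζ, hζJ⟩ := D.lift (cw i) (hcw i)
    have hZ0 : Z0 V t s (cw i) ∈ RZ C (yy b τ Y) V :=
      Z0_mem (W := Set.range (Zc E)) (fun j => ⟨Sum.inl j, rfl⟩) (cw i) (hcw i) D.K1 D.hC
    have hζm : ζ ∈ RZ C (yy b τ Y) V := by
      have := Subring.add_mem _ hζJ.mem hZ0
      rwa [sub_add_cancel] at this
    refine ⟨⟨Zc E (Sum.inr (Sum.inl i) : TT r q s) - emb E (TT r q s) (u i) * ζ,
      Subring.sub_mem _ (Z_mem _) (Subring.mul_mem _ (emb_mem_lo (hu i) _) hζm)⟩, ?_, ?_⟩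
    · have h3 : Pr (ph (E := E) (yy b τ Y)) (Zc E (Sum.inr (Sum.inl i) : TT r q s)) (τ i) :=
        Pr_Z (E := E) (yy b τ Y) (Sum.inr (Sum.inl i))
      have h4 := h3.add ((Pr_emb (E := E) (yy b τ Y) (u i)).mul hζ).neg
      rw [← hτw, add_neg_cancel, ← sub_eq_add_neg] at h4
      exact h4
    · change InJ _ (_ - (Zc E (Sum.inr (Sum.inl i) : TT r q s) - emb E (TT r q s) (u i) * ζ))
      have h3 : Zc E (Sum.inr (Sum.inl i) : TT r q s) -
          emb E (TT r q s) (u i) * Z0 V t s (cw i) -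
          (Zc E (Sum.inr (Sum.inl i) : TT r q s) - emb E (TT r q s) (u i) * ζ) =
          emb E (TT r q s) (u i) * (ζ - Z0 V t s (cw i)) := by ring
      rw [h3]
      exact InJ.mul (emb_mem_lo (hu i) _) hζJ
  have h3 : ∀ i, ∃ e : RZ C (yy b τ Y) V, Pr (ph (E := E) (yy b τ Y)) (e : FF E (TT r q s)) 0 ∧
      InJ (JY C b τ Y V) (emb E (TT r q s) (x i) - e) ∧ True := by
    intro i
    obtain ⟨n, κ, hn, h4⟩ := D.K0 _ (hKx i)
    have h5 : MM x t (Pi.single i 1) 0 = algebraMap E F (x i) := by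
      unfold MM
      rw [mo_zero, mul_one, mo_single]
    simp only at h4
    rw [h5] at h4
    have h6 := Pr_mono (E := E) (r := r) (b := b) (V := V) (τ := τ) (Y := Y) D.t1 D.Y1 D.Y0
      D.str.b1 D.hC (fun j => (n j : ℤ)) κ
    have h7 : InJ (JY C b τ Y V) (mo (fun j => Zc E (Sum.inr (Sum.inr j) : TT r q s))
        (fun j => (n j : ℤ)) * mo (fun i => Zc E (Sum.inr (Sum.inl i) : TT r q s)) κ) := by
      rw [mul_comm]
      exact InJ.mul (Zt_mo D.t1 D.Y1 D.str.b1 D.hC κ) (mo_JY hn)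
    have hx : emb E (TT r q s) (x i) ∈ RZ C (yy b τ Y) V := emb_mem_lo (hxm i) _
    refine ⟨⟨emb E (TT r q s) (x i) - _, Subring.sub_mem _ hx h7.mem⟩, ?_, ?_, trivial⟩
    · have h8 := (Pr_emb (E := E) (yy b τ Y) (x i)).add h6.neg
      rw [h4, add_neg_cancel, ← sub_eq_add_neg] at h8
      exact h8
    · change InJ _ (_ - (emb E (TT r q s) (x i) - _))
      rw [sub_sub_cancel]
      exact h7
  choose e1 he1 he1' using h1
  choose e2 he2 he2' using h2
  choose e3 he3 he3' using h3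
  refine ⟨Sum.elim e1 (Sum.elim e2 e3), ?_, he1', he2', fun i => (he3' i).1⟩
  rintro (j | i | i)
  · exact he1 j
  · exact he2 i
  · exact he3 i

end main

end Pool.Agent.H176.DT
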