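import Pool.Agent.H59.L.S8.H176.DT.B8

/-!
# The equations of defectless extensions are independent, continued
-/

set_option autoImplicit false
set_option linter.unusedVariables false
set_option linter.unusedSectionVars false

universe u

namespace Pool.Agent.H176.DT

open Pool.Agent.W418.LU2 IsLocalRing

section main

variable {E F : Type u} [Field E] [Field F] [Algebra E F] {V : ValuationSubring F} {q r s : ℕ}
  {t : Fin q → F} {ee : Fin q → ℕ} {b : Fin r → F} {ff : Fin r → ℕ}
  {x : Fin s → E} {C : Subring E} {τ : Fin q → F} {Y : Fin s → F}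
  {K : Finset ((Fin s → ℤ) × (Fin q → ℤ))}

open Polynomial in
/-- The polynomial of a residue generator. -/
lemma exists_poly (D : Dat (E := E) V t ee b ff x C τ Y K) (j : Fin r)
    (h : Fin (ff j) → MvPolynomial (Fin r) E)
    (hsupp : ∀ l, h l ∈ MvPolynomial.supported E {i | i < j})
    (hh : ∀ l m, (h l).coeff m ∈ lo (V.comap (algebraMap E F)).toSubring C)
    (hval : V.valuation (b j ^ ff j + ∑ l, MvPolynomial.aeval b (h l) * b j ^ (l : ℕ)) < 1) :
    ∃ g : (lo (AT E (yy b τ Y) V) (Subring.closure ((C.map (emb E (TT r q s)) :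
      Set (FF E (TT r q s))) ∪ Zc E '' {l | ordT r q s l < ordT r q s (Sum.inl j)})))[X],
      g.Monic ∧ eval₂ (Subring.subtype _) (Zc E (Sum.inl j : TT r q s)) g =
        GG (E := E) q s j h ∧
      ∀ h : (lo (AT E (yy b τ Y) V) (Subring.closure ((C.map (emb E (TT r q s)) :
        Set (FF E (TT r q s))) ∪ Zc E '' {l | ordT r q s l < ordT r q s (Sum.inl j)})))[X],
        h.degree < g.degree →
        NU (AT E (yy b τ Y) V) (eval₂ (Subring.subtype _) (Zc E (Sum.inl j : TT r q s)) h) →
        ∀ i, NU (AT E (yy b τ Y) V) (h.coeff i : FF E (TT r q s)) := by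
  classical
  set P := lo (AT E (yy b τ Y) V) (Subring.closure ((C.map (emb E (TT r q s)) :
      Set (FF E (TT r q s))) ∪ Zc E '' {l | ordT r q s l < ordT r q s (Sum.inl j)})) with hP
  have hU : ∀ θ : TT r q s, ordT r q s θ < ordT r q s (Sum.inl j) ↔
      ∃ i : Fin r, i < j ∧ θ = Sum.inl i := by
    intro θ
    rw [Fin.lt_def, ordT_b]
    rcases θ with i | i | i
    · rw [ordT_b]
      constructor
      · intro h; exact ⟨i, h, rfl⟩
      · rintro ⟨i', h, h'⟩
        cases h'
        exact h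
    · rw [ordT_t]
      constructor
      · intro h
        have := j.2
        omega
      · rintro ⟨i', h, h'⟩
        cases h'
    · rw [ordT_Y]
      constructor
      · intro h
        have := j.2
        omega
      · rintro ⟨i', h, h'⟩
        cases h'
  have hmem : ∀ l, (MvPolynomial.aeval (fun i => Zc E (Sum.inl i : TT r q s)) (h l) :
      FF E (TT r q s)) ∈ P := by
    intro l
    refine aeval_mem (fun i => (Sum.inl i : TT r q s)) {i | i < j} (fun i hi => ?_) (h l)
      (hsupp l) fun m => emb_mem_lo (hh l m) _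
    exact le_lo _ _ (Subring.subset_closure (Or.inr ⟨Sum.inl i, (hU _).2 ⟨i, hi, rfl⟩, rfl⟩))
  let g : P[X] := X ^ ff j + ∑ l : Fin (ff j), Polynomial.C (⟨_, hmem l⟩ : P) * X ^ (l : ℕ)
  have hdeg : (∑ l : Fin (ff j), Polynomial.C (⟨_, hmem l⟩ : P) * X ^ (l : ℕ)).degree < ((ff j : ℕ) : WithBot ℕ) := by
    refine lt_of_le_of_lt (degree_sum_le _ _) ?_
    rw [Finset.sup_lt_iff (by exact WithBot.bot_lt_coe _)]
    intro l _
    refine lt_of_le_of_lt (degree_C_mul_X_pow_le _ _) ?_
    exact_mod_cast l.2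
  have hgm : g.Monic := monic_X_pow_add hdeg
  have hAT : Nontrivial P := inferInstance
  have hgd : g.degree = ((ff j : ℕ) : WithBot ℕ) := by
    change (X ^ ff j + ∑ l : Fin (ff j), Polynomial.C (⟨_, hmem l⟩ : P) * X ^ (l : ℕ)).degree = _
    rw [degree_add_eq_left_of_degree_lt, degree_X_pow]
    rw [degree_X_pow]
    exact hdeg
  have heval : eval₂ (Subring.subtype _) (Zc E (Sum.inl j : TT r q s)) g =
      GG (E := E) q s j h := by
    change eval₂ P.subtype _ (X ^ ff j + ∑ l : Fin (ff j), Polynomial.C (⟨_, hmem l⟩ : P) * X ^ (l : ℕ)) = _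
    rw [eval₂_add, eval₂_X_pow, eval₂_finsetSum]
    unfold GG
    congr 1
    refine Finset.sum_congr rfl fun l _ => ?_
    rw [eval₂_mul, eval₂_C, eval₂_X_pow]
    rfl
  refine ⟨g, hgm, heval, ?_⟩
  intro p hp hNU i
  rw [hgd] at hp
  by_cases hi : i < ff j
  swap
  · rw [coeff_eq_zero_of_degree_lt (lt_of_lt_of_le hp (by exact_mod_cast not_lt.1 hi))]
    intro h2
    exact h2.1 rfl
  -- the values of the coefficients
  have hw : ∀ k : ℕ, ∃ w ∈ lo V.toSubring (Subring.closure
      ((C.map (algebraMap E F) : Set F) ∪ yy b τ Y '' {l | ordT r q s l < ordT r q s (Sum.inl j)})),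
      Pr (ph (E := E) (yy b τ Y)) (p.coeff k : FF E (TT r q s)) w := fun k =>
    lo_downU _ (p.coeff k).2
  choose w hwm hw using hw
  have hsub : lo V.toSubring (Subring.closure ((C.map (algebraMap E F) : Set F) ∪
      yy b τ Y '' {l | ordT r q s l < ordT r q s (Sum.inl j)})) ≤
      lo V.toSubring (Subring.closure
      (((V.comap (algebraMap E F)).toSubring.map (algebraMap E F) : Set F) ∪
        {z | ∃ l : Fin r, (l : ℕ) < (j : ℕ) ∧ b l = z})) := by
    apply lo_mono
    apply Subring.closure_mono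
    rintro z (⟨c, hc, rfl⟩ | ⟨θ, hθ, rfl⟩)
    · exact Or.inl ⟨c, D.hC hc, rfl⟩
    · obtain ⟨i, hi, rfl⟩ := (hU θ).1 hθ
      exact Or.inr ⟨i, hi, rfl⟩
  have hwV : ∀ k, w k ∈ V := by
    intro k
    refine lo_le ?_ (hwm k)
    rw [Subring.closure_le]
    rintro z (⟨c, hc, rfl⟩ | ⟨θ, hθ, rfl⟩)
    · exact D.hC hc
    · exact yy_mem D.t1 D.Y1 D.str.b1 θ
  have hsum : Pr (ph (E := E) (yy b τ Y))
      (eval₂ (Subring.subtype _) (Zc E (Sum.inl j : TT r q s)) p)
      (∑ k : Fin (ff j), w k * b j ^ (k : ℕ)) := by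
    have h1 : eval₂ (Subring.subtype _) (Zc E (Sum.inl j : TT r q s)) p =
        ∑ k : Fin (ff j), (p.coeff k : FF E (TT r q s)) *
          Zc E (Sum.inl j : TT r q s) ^ (k : ℕ) := by
      rw [Finset.sum_range (fun k => (p.coeff k : FF E (TT r q s)) *
        Zc E (Sum.inl j : TT r q s) ^ k) |>.symm]
      rw [eval₂_eq_sum_range' _ (by
        by_cases h0 : p = 0
        · rw [h0, natDegree_zero]
          exact D.str.f0 j
        · exact (natDegree_lt_iff_degree_lt h0).2 hp)]
      rfl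
    rw [h1]
    refine Pr.sum _ fun k _ => (hw k).mul (Pr.pow ?_ _)
    exact Pr_Z (E := E) (yy b τ Y) (Sum.inl j)
  have hlt : V.valuation (∑ k : Fin (ff j), w k * b j ^ (k : ℕ)) < 1 := by
    refine val_of_NU hsum ?_ hNU
    refine Subring.sum_mem V.toSubring fun k _ => Subring.mul_mem _ (hwV k)
      (Subring.pow_mem _ ?_ _)
    exact (V.valuation_le_one_iff _).1 (D.str.b1 j).le
  have h1 := bmin D.str j (fun k => w k) (fun k => hsub (hwm k)) hlt ⟨i, hi⟩
  exact NU_of_val (hw i) h1

end main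

end Pool.Agent.H176.DT
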