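import Pool.Agent.H59.L.S8.H176.DT.Stm2

/-!
# The variables for a key polynomial
-/

set_option autoImplicit false
set_option linter.unusedVariables false
set_option linter.unusedSectionVars false

universe u

namespace Pool.Agent.H176.DT

open Pool.Agent.W418.LU2 IsLocalRing

section main

variable {E F : Type u} [Field E] [Field F] [Algebra E F] {V : ValuationSubring F} {q r s : ℕ}
  {t : Fin q → F} {b : Fin r → F}
  {x : Fin s → E} {C : Subring E} {τ : Fin q → F} {Y : Fin s → F}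
  {K : Finset ((Fin s → ℤ) × (Fin q → ℤ))}

/-- The data of a stage. -/
structure Dt (V : ValuationSubring F) (t : Fin q → F) (b : Fin r → F)
    (x : Fin s → E) (C : Subring E) (τ : Fin q → F) (Y : Fin s → F)
    (K : Finset ((Fin s → ℤ) × (Fin q → ℤ))) : Prop where
  b1 : ∀ j, V.valuation (b j) = 1
  hC : C ≤ (V.comap (algebraMap E F)).toSubring
  t1 : ∀ i, V.valuation (τ i) = 1
  Y1 : ∀ j, V.valuation (Y j) < 1
  Y0 : ∀ j, Y j ≠ 0
  K0 : ∀ k ∈ K, ∃ (n : Fin s → ℕ) (κ : Fin q → ℤ), n ≠ 0 ∧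
    MM x t k.1 k.2 = mo Y (fun j => (n j : ℤ)) * mo τ κ
  K1 : ∀ k ∈ K, V.valuation (MM x t k.1 k.2) < 1

variable (D : Dt V t b x C τ Y K)

include D

lemma Dt.hle : RZ C (yy b τ Y) V ≤ AT E (yy b τ Y) V :=
  lo_le (RZ_le (E := E) (C := C) (V := V) (b := b) (τ := τ) (Y := Y) D.t1 D.Y1 D.b1 D.hC)

/-- Lifts of small monomials. -/
theorem Dt.lift_m {a u : E} {l : Fin s → ℤ} {m : Fin q → ℤ}
    (hu : u ∈ lo (V.comap (algebraMap E F)).toSubring C) (ha : a = u * mo x l)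
    (hkK : (l, m) ∈ K) :
    ∃ ζ, Pr (ph (E := E) (yy b τ Y)) ζ (algebraMap E F a * mo t m) ∧
      InJ (JY C b τ Y V) ζ := by
  obtain ⟨n, κ, hn, h1⟩ := D.K0 _ hkK
  have h2 := Pr_mono (E := E) (r := r) (b := b) (V := V) (τ := τ) (Y := Y) (C := C) D.t1 D.Y1
    D.Y0 D.b1 D.hC (fun j => (n j : ℤ)) κ
  refine ⟨emb E (TT r q s) u * (mo (fun j => Zc E (Sum.inr (Sum.inr j) : TT r q s))
    (fun j => (n j : ℤ)) * mo (fun i => Zc E (Sum.inr (Sum.inl i) : TT r q s)) κ), ?_, ?_⟩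
  · have h3 := (Pr_emb (E := E) (yy b τ Y) u).mul h2
    have h4 : algebraMap E F u * (mo Y (fun j => (n j : ℤ)) * mo τ κ) =
        algebraMap E F a * mo t m := by
      rw [← h1, ha, map_mul, mul_assoc]
      rfl
    rw [h4] at h3
    exact h3
  · refine InJ.mul (emb_mem_lo hu _) ?_
    rw [mul_comm]
    exact InJ.mul (Zt_mo D.t1 D.Y1 D.b1 D.hC κ) (mo_JY hn)

/-- Lifts of sums of small terms. -/
theorem Dt.lift_rep {w : F} {k : ℕ} {a u : Fin k → E} {l : Fin k → Fin s → ℤ}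
    {μ : Fin k → Fin q → ℤ} {p : Fin k → Fin r}
    (hw : w = ∑ i, algebraMap E F (a i) * mo t (μ i) * b (p i))
    (hu : ∀ i, u i ∈ lo (V.comap (algebraMap E F)).toSubring C)
    (ha : ∀ i, a i = u i * mo x (l i)) (hK : ∀ i, (l i, μ i) ∈ K) :
    ∃ ζ, Pr (ph (E := E) (yy b τ Y)) ζ w ∧ InJ (JY C b τ Y V) ζ := by
  choose ζ hζ hζJ using fun i => D.lift_m (hu i) (ha i) (hK i)
  refine ⟨∑ i, Zc E (Sum.inl (p i) : TT r q s) * ζ i, ?_, ?_⟩
  · rw [hw]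
    refine Pr.sum _ fun i _ => ?_
    rw [mul_comm (algebraMap E F (a i) * mo t (μ i))]
    exact Pr.mul (Pr_Z (E := E) (yy b τ Y) (Sum.inl (p i))) (hζ i)
  · exact InJ.sum _ fun i _ => InJ.mul (Z_mem _) (hζJ i)

/-- The values of the elements of the ideal of the coordinates. -/
lemma Dt.JY_val {v : FF E (TT r q s)}
    (hv : InJ (JY C b τ Y V) v) {w : F} (hw : Pr (ph (E := E) (yy b τ Y)) v w) :
    V.valuation w < 1 := by
  obtain ⟨hv, hJ⟩ := hv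
  have hle := D.hle
  have key : ∀ z : RZ C (yy b τ Y) V, z ∈ JY C b τ Y V →
      ∃ w, Pr (ph (E := E) (yy b τ Y)) (z : FF E (TT r q s)) w ∧ V.valuation w < 1 := by
    intro z hz
    unfold JY at hz
    induction hz using Submodule.span_induction with
    | mem z hz =>
      obtain ⟨j, rfl⟩ := hz
      exact ⟨Y j, Pr_Z (E := E) (yy b τ Y) (Sum.inr (Sum.inr j)), D.Y1 j⟩
    | zero => exact ⟨0, Pr.zero, by rw [map_zero]; exact zero_lt_one⟩
    | add a b _ _ ha hb =>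
      obtain ⟨w, hw, h⟩ := ha
      obtain ⟨w', hw', h'⟩ := hb
      exact ⟨_, hw.add hw', lt_of_le_of_lt (V.valuation.map_add _ _) (max_lt h h')⟩
    | smul a c _ hc =>
      obtain ⟨w, hw, h⟩ := hc
      obtain ⟨w', hw', h'⟩ := hle a.2
      refine ⟨_, h'.mul hw, ?_⟩
      rw [map_mul]
      exact lt_of_le_of_lt (mul_le_of_le_one_left' ((V.valuation_le_one_iff _).2 hw')) h
  obtain ⟨w', hw', h⟩ := key _ hJ
  rwa [hw'.unique hw] at h

lemma Dt.le : Subring.closure ((C.map (algebraMap E F) : Set F) ∪ Set.range (yy b τ Y)) ≤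
    V.toSubring := clos_le D.hC (yy_mem D.t1 D.Y1 D.b1)

lemma Dt.t0 (i : Fin q) : τ i ≠ 0 := ne_zero_of_val (D.t1 i)

lemma Dt.tau_mem (i : Fin q) : τ i ∈ PF C V (yy b τ Y) :=
  y_mem_PF (y := yy b τ Y) (Sum.inr (Sum.inl i))

lemma Dt.tau_inv (i : Fin q) : (τ i)⁻¹ ∈ PF C V (yy b τ Y) := by
  refine inv_mem_lo D.le (D.tau_mem i) (D.t0 i) ?_
  have := D.t1 i
  exact ((val_one_iff V _).1 this).2.2

lemma Dt.Y_mem (j : Fin s) : Y j ∈ PF C V (yy b τ Y) :=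
  y_mem_PF (y := yy b τ Y) (Sum.inr (Sum.inr j))

lemma Dt.b_mem (j : Fin r) : b j ∈ PF C V (yy b τ Y) :=
  y_mem_PF (y := yy b τ Y) (Sum.inl j)

lemma Dt.mo_tau (κ : Fin q → ℤ) : mo τ κ ∈ PF C V (yy b τ Y) := by
  unfold mo
  refine Subring.prod_mem _ fun i _ => ?_
  rcases Int.eq_nat_or_neg (κ i) with ⟨n, h | h⟩
  · rw [h, zpow_natCast]
    exact Subring.pow_mem _ (D.tau_mem i) _
  · rw [h, zpow_neg, zpow_natCast, ← inv_pow]
    exact Subring.pow_mem _ (D.tau_inv i) _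

lemma Dt.mo_tau_inv (κ : Fin q → ℤ) : (mo τ κ)⁻¹ ∈ PF C V (yy b τ Y) := by
  rw [← mo_neg]
  exact D.mo_tau _

lemma Dt.tau_PMon (κ : Fin q → ℤ) : PMon (PF C V (yy b τ Y)) Y (mo τ κ) :=
  ⟨mo τ κ, mo_ne_zero D.t0 _, D.mo_tau κ, D.mo_tau_inv κ, 0, by rw [mo_zero, mul_one]⟩

lemma Dt.K_PMon {k : (Fin s → ℤ) × (Fin q → ℤ)} (hk : k ∈ K) :
    PMon (PF C V (yy b τ Y)) Y (MM x t k.1 k.2) := by
  obtain ⟨n, κ, hn, h⟩ := D.K0 k hk
  rw [h]
  exact (PMon.of_mo _).mul D.Y0 (D.tau_PMon κ)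

lemma Dt.K_mem {k : (Fin s → ℤ) × (Fin q → ℤ)} (hk : k ∈ K) :
    MM x t k.1 k.2 ∈ PF C V (yy b τ Y) := by
  obtain ⟨n, κ, hn, h⟩ := D.K0 k hk
  rw [h]
  refine Subring.mul_mem _ ?_ (D.mo_tau κ)
  unfold mo
  refine Subring.prod_mem _ fun i _ => ?_
  rw [zpow_natCast]
  exact Subring.pow_mem _ (D.Y_mem i) _

/-- The elements of `E` which are monomials stay monomials. -/
lemma Dt.alg_PMon (hKx : ∀ i, ((Pi.single i 1 : Fin s → ℤ), (0 : Fin q → ℤ)) ∈ K) {g : E}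
    (hg : PMon (lo (V.comap (algebraMap E F)).toSubring C) x g) :
    PMon (PF C V (yy b τ Y)) Y (algebraMap E F g) := by
  obtain ⟨u, u0, u1, u2, δ, rfl⟩ := hg
  have h1 : ∀ i, PMon (PF C V (yy b τ Y)) Y (algebraMap E F (x i)) := by
    intro i
    have h2 := D.K_PMon (hKx i)
    have h5 : MM x t (Pi.single i 1) 0 = algebraMap E F (x i) := by
      unfold MM
      rw [mo_zero, mul_one, mo_single]
    simp only at h2
    rwa [h5] at h2
  rw [map_mul, map_mo]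
  refine PMon.mul D.Y0 ⟨algebraMap E F u, (map_ne_zero _).2 u0, alg_mem_PF u1, ?_, 0, ?_⟩
    (PMon.mo D.Y0 h1 δ)
  · rw [← map_inv₀]
    exact alg_mem_PF u2
  · rw [mo_zero, mul_one]

end main

end Pool.Agent.H176.DT
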