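import Pool.Agent.H59.L.S8.H176.DT.C10

/-!
# The step for key polynomials, for subfields
-/

set_option autoImplicit false
set_option linter.unusedVariables false
set_option linter.unusedSectionVars false

universe u

namespace Pool.Agent.H176.DT

open Pool.Agent.W418.LU2 IsLocalRing Polynomial

section sub

variable {K : Type u} [Field K] {L L' : Subfield K} (V : ValuationSubring K)

lemma sub_val_le (hL : L ≤ L') (t : L') (f g : L[X]) :
    letI := (Subfield.inclusion hL).toAlgebra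
    ((V.comap L'.subtype).valuation (aeval t f) ≤ (V.comap L'.subtype).valuation (aeval t g) ↔
      V.valuation (aeval (t : K) f) ≤ V.valuation (aeval (t : K) g)) := by
  letI := (Subfield.inclusion hL).toAlgebra
  rw [comap_le, ← sub_aeval hL, ← sub_aeval hL]
  rfl

lemma sub_val_lt (hL : L ≤ L') (t : L') (f g : L[X]) :
    letI := (Subfield.inclusion hL).toAlgebra
    ((V.comap L'.subtype).valuation (aeval t f) < (V.comap L'.subtype).valuation (aeval t g) ↔
      V.valuation (aeval (t : K) f) < V.valuation (aeval (t : K) g)) := by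
  letI := (Subfield.inclusion hL).toAlgebra
  rw [← not_le, ← not_le, not_iff_not]
  exact sub_val_le V hL t g f

lemma sub_KP (hL : L ≤ L') (t : L') {ϕ : L[X]} {n : ℕ} {β : Fin n → L[X]}
    (h : KP V (t : K) ϕ β) :
    letI := (Subfield.inclusion hL).toAlgebra
    KP (V.comap L'.subtype) t ϕ β := by
  letI := (Subfield.inclusion hL).toAlgebra
  refine ⟨h.monic, h.deg, h.bdeg, h.b0, h.span, fun c i => ?_, fun f g hf hg hf0 hg0 => ?_⟩
  · exact (sub_val_le V hL t _ _).2 (h.orth c i)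
  · exact (sub_val_lt V hL t _ _).2 (h.key f g hf hg hf0 hg0)

lemma sub_Domi (hL : L ≤ L') (t : L') {ϕ f : L[X]} (h : Domi V (t : K) ϕ f) :
    letI := (Subfield.inclusion hL).toAlgebra
    Domi (V.comap L'.subtype) t ϕ f := by
  letI := (Subfield.inclusion hL).toAlgebra
  obtain ⟨N, d, hd, h⟩ := h
  exact ⟨N, d, hd, fun k hk => (sub_val_le V hL t _ _).2 (h k hk)⟩

variable (R : Subring K)

/-- The step for key polynomials. -/
theorem sub_kp (hmin : S2_min.{u}) (hprod : S2_prod.{u}) (hkey : S2_key.{u})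
    (θ : K) (hθ : Transcendental L θ)
    (htor : ∀ z ∈ L ⊔ Subfield.closure {θ}, z ≠ 0 → ∃ N : ℕ, 0 < N ∧ ∃ a : L,
      V.valuation (z ^ N) = V.valuation (a : K))
    (hra : ∀ z ∈ L ⊔ Subfield.closure {θ}, V.valuation z = 1 → ∃ g : L[X], g.Monic ∧
      (∀ i, (g.coeff i : K) ∈ V) ∧ V.valuation (aeval z g) < 1)
    (hdom : ∀ f : L[X], ∃ (ϕ : L[X]) (n : ℕ) (β : Fin n → L[X]),
      KP V θ ϕ β ∧ Domi V θ ϕ f)
    (h : Inv V R L.subtype) : Inv V R (L ⊔ Subfield.closure {θ}).subtype := by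
  have hL : L ≤ L ⊔ Subfield.closure {θ} := le_sup_left
  letI := (Subfield.inclusion hL).toAlgebra
  have htm : θ ∈ L ⊔ Subfield.closure {θ} :=
    (le_sup_right : Subfield.closure {θ} ≤ _) (Subfield.subset_closure rfl)
  have hgen : ∀ z : ↥(L ⊔ Subfield.closure {θ}), z ∈ Subfield.closure
      (Set.range (algebraMap L ↥(L ⊔ Subfield.closure {θ})) ∪ {⟨θ, htm⟩}) := by
    intro z
    refine sub_gen hL ?_ z
    rw [Set.image_singleton]
    exact le_rfl
  refine Inv.step (F := L) (F' := ↥(L ⊔ Subfield.closure {θ})) (φ := L.subtype) rfl h ?_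
  intro A hM hSU
  refine key_kp hmin hprod hkey A hM hSU ⟨θ, htm⟩ ?_ hgen ?_ ?_ ?_
  · rw [transcendental_iff] at hθ ⊢
    intro p hp
    apply hθ
    have h1 := sub_aeval hL ⟨θ, htm⟩ p
    rw [← h1]
    rw [hp]
    rfl
  · intro z hz
    obtain ⟨N, hN, a, ha⟩ := htor z z.2 (fun h0 => hz (Subtype.ext h0))
    refine ⟨N, hN, a, le_antisymm ?_ ?_⟩
    · rw [comap_le]
      exact ha.le
    · rw [comap_le]
      exact ha.ge
  · intro z hz
    rw [comap_one] at hz
    obtain ⟨g, hg, hgV, hg1⟩ := hra z z.2 hz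
    refine ⟨g, hg, hgV, ?_⟩
    rw [comap_lt]
    have h1 := sub_aeval hL z g
    rw [← h1] at hg1
    exact hg1
  · intro f
    obtain ⟨ϕ, n, β, hKP, hD⟩ := hdom f
    exact ⟨ϕ, n, β, sub_KP V hL ⟨θ, htm⟩ hKP, sub_Domi V hL ⟨θ, htm⟩ hD⟩

end sub

end Pool.Agent.H176.DT
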