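import Pool.Agent.H59.L.S8.H176.DT.Stm2

/-!
# Statements for the project DT, part three (transcendental key polynomials)
-/

set_option autoImplicit false
set_option linter.unusedVariables false
set_option linter.unusedSectionVars false

universe u

namespace Pool.Agent.H176.DT

open Pool.Agent.W418.LU2 IsLocalRing Polynomial

/-- The value or the residue of the key polynomial is transcendental over `E`. -/
def NA {E F : Type u} [Field E] [Field F] [Algebra E F] (V : ValuationSubring F) (θ : F)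
    (ϕ : E[X]) : Prop :=
  (∀ N : ℕ, 0 < N → ∀ a : E,
    V.valuation (aeval θ ϕ ^ N) ≠ V.valuation (algebraMap E F a)) ∨
  ∃ (N : ℕ) (a : E), 0 < N ∧ a ≠ 0 ∧
    V.valuation (aeval θ ϕ ^ N) = V.valuation (algebraMap E F a) ∧
    ∀ g : E[X], g.Monic → (∀ i, algebraMap E F (g.coeff i) ∈ V) →
      ¬ V.valuation (aeval (aeval θ ϕ ^ N * (algebraMap E F a)⁻¹) g) < 1

/-- All polynomials are dominated by a transcendental key polynomial. -/
def S3_all : Prop :=
  ∀ {E F : Type u} [Field E] [Field F] [Algebra E F] (V : ValuationSubring F) (θ : F)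
    (ϕ : E[X]) (n : ℕ) (β : Fin n → E[X]), Transcendental E θ → KP V θ ϕ β → NA V θ ϕ →
    ∀ f : E[X], Domi V θ ϕ f

/-- Quotients of polynomials which are dominated by an algebraic key polynomial are algebraic. -/
def S3_alg : Prop :=
  ∀ {E F : Type u} [Field E] [Field F] [Algebra E F] (V : ValuationSubring F) (θ : F)
    (ϕ : E[X]) (n : ℕ) (β : Fin n → E[X]), Transcendental E θ → KP V θ ϕ β → ¬ NA V θ ϕ →
    ∀ f g : E[X], f ≠ 0 → g ≠ 0 → Domi V θ ϕ f → Domi V θ ϕ g →
    (∃ N : ℕ, 0 < N ∧ ∃ a : E,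
      V.valuation ((aeval θ f * (aeval θ g)⁻¹) ^ N) = V.valuation (algebraMap E F a)) ∧
    (V.valuation (aeval θ f * (aeval θ g)⁻¹) = 1 → ∃ h : E[X], h.Monic ∧
      (∀ i, algebraMap E F (h.coeff i) ∈ V) ∧
      V.valuation (aeval (aeval θ f * (aeval θ g)⁻¹) h) < 1)

/-- The subfield generated by a transcendental key polynomial. -/
def S3_bas : Prop :=
  ∀ {K : Type u} [Field K] (V : ValuationSubring K) (L : Subfield K) (θ : K) (ϕ : L[X]) (n : ℕ)
    (β : Fin n → L[X]), Transcendental L θ → KP V θ ϕ β → (∀ f : L[X], Domi V θ ϕ f) →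
    Transcendental L (aeval θ ϕ) ∧
    (∀ (f : L[X]) (j : ℕ), V.valuation ((f.coeff j : K) * aeval θ ϕ ^ j) ≤
      V.valuation (aeval (aeval θ ϕ) f)) ∧
    L ⊔ Subfield.closure {aeval θ ϕ} ≤ L ⊔ Subfield.closure {θ} ∧
    (∀ i, aeval θ (β i) ∈ L ⊔ Subfield.closure {θ}) ∧
    (∀ z ∈ L ⊔ Subfield.closure {θ}, ∃ c : Fin n → ↥(L ⊔ Subfield.closure {aeval θ ϕ}),
      z = ∑ i, (c i : K) * aeval θ (β i)) ∧
    ∀ (c : Fin n → ↥(L ⊔ Subfield.closure {aeval θ ϕ})) (i : Fin n),
      V.valuation ((c i : K) * aeval θ (β i)) ≤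
        V.valuation (∑ j, (c j : K) * aeval θ (β j))

end Pool.Agent.H176.DT
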