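import Pool.Agent.H59.L.S8.H176.DT.C11
import Pool.Agent.H59.L.S8.H176.DT.Stm3

/-!
# Simple transcendental extensions without limit key polynomials
-/

set_option autoImplicit false
set_option linter.unusedVariables false
set_option linter.unusedSectionVars false

universe u

namespace Pool.Agent.H176.DT

open Pool.Agent.W418.LU2 IsLocalRing Polynomial

section sub

variable {K : Type u} [Field K] {L : Subfield K} (V : ValuationSubring K) (R : Subring K)

lemma sub_frac {θ z : K} (hz : z ∈ L ⊔ Subfield.closure {θ}) :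
    ∃ f g : L[X], aeval θ g ≠ 0 ∧ z * aeval θ g = aeval θ f := by
  refine gen_frac ?_
  refine (?_ : L ⊔ Subfield.closure {θ} ≤ _) hz
  refine sup_le ?_ (Subfield.closure_mono Set.subset_union_right)
  intro a ha
  exact Subfield.subset_closure (Or.inl ⟨⟨a, ha⟩, rfl⟩)

/-- The step for simple transcendental extensions. -/
theorem sub_trk (hmin : S2_min.{u}) (hprod : S2_prod.{u}) (hkey : S2_key.{u})
    (hall : S3_all.{u}) (halg : S3_alg.{u}) (hbas : S3_bas.{u})
    (θ : K) (hθ : Transcendental L θ)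
    (hdom : ∀ f : L[X], ∃ (ϕ : L[X]) (n : ℕ) (β : Fin n → L[X]),
      KP V θ ϕ β ∧ Domi V θ ϕ f)
    (h : Inv V R L.subtype) : Inv V R (L ⊔ Subfield.closure {θ}).subtype := by
  have h0 : ∀ f : L[X], f ≠ 0 → aeval θ f ≠ 0 := fun f hf h =>
    hf ((transcendental_iff.1 hθ) f h)
  by_cases hNA : ∃ (ϕ : L[X]) (n : ℕ) (β : Fin n → L[X]), KP V θ ϕ β ∧ NA V θ ϕ
  · obtain ⟨ϕ, n, β, hKP, hNA⟩ := hNA
    obtain ⟨h1, h2, h3, h4, h5, h6⟩ := hbas V L θ ϕ n β hθ hKP (hall V θ ϕ n β hθ hKP hNA)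
    have s1 := sub_tr V R (aeval θ ϕ) h1 (fun f => ⟨0, fun j => by
      rw [taylor_zero]
      have h7 : aeval θ ϕ - ((0 : L) : K) = aeval θ ϕ := sub_zero _
      rw [h7]
      exact h2 f j⟩) h
    exact sub_bas V R h3 n (fun i => aeval θ (β i)) h4 (fun i => h0 _ (hKP.b0 i)) h5 h6 s1
  · have key : ∀ z ∈ L ⊔ Subfield.closure {θ}, z ≠ 0 →
        (∃ N : ℕ, 0 < N ∧ ∃ a : L, V.valuation (z ^ N) = V.valuation (a : K)) ∧
        (V.valuation z = 1 → ∃ g : L[X], g.Monic ∧ (∀ i, (g.coeff i : K) ∈ V) ∧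
          V.valuation (aeval z g) < 1) := by
      intro z hz hz0
      obtain ⟨f, g, hg, hfg⟩ := sub_frac hz
      have hg0 : g ≠ 0 := by
        rintro rfl
        exact hg (map_zero _)
      have hf0 : f ≠ 0 := by
        rintro rfl
        rw [map_zero] at hfg
        exact (mul_ne_zero hz0 hg) hfg
      obtain ⟨ϕ, n, β, hKP, hD⟩ := hdom (f * g)
      have hDf := hprod V θ ϕ n β hθ hKP f g hf0 hg0 hD
      rw [mul_comm] at hD
      have hDg := hprod V θ ϕ n β hθ hKP g f hg0 hf0 hD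
      have h1 := halg V θ ϕ n β hθ hKP (fun h => hNA ⟨ϕ, n, β, hKP, h⟩) f g hf0 hg0 hDf hDg
      have h2 : aeval θ f * (aeval θ g)⁻¹ = z := by
        rw [← hfg, mul_assoc, mul_inv_cancel₀ hg, mul_one]
      rw [h2] at h1
      exact h1
    refine sub_kp V R hmin hprod hkey θ hθ (fun z hz hz0 => (key z hz hz0).1)
      (fun z hz h1 => (key z hz ?_).2 h1) hdom h
    rintro rfl
    rw [map_zero] at h1
    exact zero_ne_one h1

end sub

end Pool.Agent.H176.DT
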