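import Pool.Agent.H59.L.S8.H176.DT.D5
import Pool.Agent.H59.L.S8.H290.DT2.Key
import Pool.Agent.H59.L.S8.H971.DT2.Prod

/-!
# The data of an algebraic element
-/

set_option autoImplicit false
set_option linter.unusedVariables false
set_option linter.unusedSectionVars false

universe u

namespace Pool.Agent.H176.DT

open Pool.Agent.W418.LU2 IsLocalRing Polynomial
open Pool.Agent.H290.DT2 (orth_of mo_snoc tf_cast tf_last)

theorem p4_key : S4_key.{u} := by
  intro E F _ _ _ V θ ϕ n β hθ hK hgen N d hd hd1 hsum hlt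
  obtain ⟨M, iM, iA, W, π, hR⟩ := Q2.field V θ ϕ n β hθ hK
  obtain ⟨q, r, t, ee, b, ff, hS⟩ := p_str W n (fun i => π (β i)) (orth_of V θ ϕ β hK W π hR)
  choose tt htd htπ using fun i => hR.sur (t i)
  choose bb hbd hbπ using fun j => hR.sur (b j)
  choose zz hzd hzπ using fun p : ((i : Fin q) → Fin (ee i)) × ((j : Fin r) → Fin (ff j)) =>
    hR.sur ((∏ i, t i ^ (p.1 i : ℕ)) * ∏ j, b j ^ (p.2 j : ℕ))
  have hL : Lft V θ ϕ W π t ee b ff tt bb zz := ⟨hR, hS, htd, htπ, hbd, hbπ, hzd, hzπ⟩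
  obtain ⟨A1, A2, A3, A4, A5⟩ := Q3.liftA V θ ϕ n β hθ hK W π t ee b ff tt bb zz hL
  obtain ⟨B1, B2, B3, B4, B5⟩ := Q4.liftB Q1.dig Q3.liftA V θ ϕ n β hθ hK W π t ee b ff tt bb zz hL
  obtain ⟨Dsmall, Dadd, Dneg, Dmul, Ddvd⟩ := Q1.dig V θ ϕ n β hθ hK
  obtain ⟨c, hcd, hc0, hcv, N', e, f, hE, hf, hek⟩ := last_rel hθ hK hR hd hd1 hsum hlt
  obtain ⟨gl, ml, hgl, hWl, hVl⟩ := B5 c hcd hc0
  have hWV : ∀ x : E, algebraMap E M x ∈ W ↔ algebraMap E F x ∈ V := by
    intro x
    have := hR.comap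
    rw [← ValuationSubring.mem_comap, this, ValuationSubring.mem_comap]
  -- the relations for `t i`
  choose ga ma hga hma hrel using hS.rel
  have htf0 : ∀ i, tf θ ϕ tt i ≠ 0 := by
    intro i
    refine Fin.lastCases ?_ (fun i => ?_) i
    · rw [tf_last]; exact hθ
    · rw [tf_cast]; exact A1 i
  set E1 : Fin (q + 1) → ℕ := Fin.snoc (α := fun _ => ℕ) ee 1 with hE1
  set G1 : Fin (q + 1) → E := Fin.snoc (α := fun _ => E) ga gl with hG1
  set M1 : Fin (q + 1) → Fin (q + 1) → ℤ := Fin.snoc (α := fun _ => Fin (q + 1) → ℤ)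
    (fun i => Fin.snoc (α := fun _ => ℤ) (ma i) 0) (Fin.snoc (α := fun _ => ℤ) ml 0) with hM1
  have E1c : ∀ i : Fin q, E1 i.castSucc = ee i := fun i => by rw [hE1, Fin.snoc_castSucc]
  have E1l : E1 (Fin.last q) = 1 := by rw [hE1, Fin.snoc_last]
  have G1c : ∀ i : Fin q, G1 i.castSucc = ga i := fun i => by rw [hG1, Fin.snoc_castSucc]
  have G1l : G1 (Fin.last q) = gl := by rw [hG1, Fin.snoc_last]
  have mo1 : ∀ i : Fin q, mo (tf θ ϕ tt) (M1 i.castSucc) = mo (fun i => aeval θ (tt i)) (ma i) := by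
    intro i
    rw [mo_snoc, hM1]
    simp only [Fin.snoc_castSucc, Fin.snoc_last, zpow_zero, mul_one]
  have mo2 : mo (tf θ ϕ tt) (M1 (Fin.last q)) = mo (fun i => aeval θ (tt i)) ml := by
    rw [mo_snoc, hM1]
    simp only [Fin.snoc_castSucc, Fin.snoc_last, zpow_zero, mul_one]
  have hVϕ : V.valuation (aeval θ ϕ) =
      V.valuation (algebraMap E F gl * mo (tf θ ϕ tt) (M1 (Fin.last q))) := by
    rw [mo2, ← hVl, hcv]
  refine ⟨q + 1, r, _, inferInstance, tf θ ϕ tt, E1, G1, M1, fun j => aeval θ (bb j), ff,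
    zf θ tt zz, ?_⟩
  constructor
  · exact htf0
  · intro i
    refine Fin.lastCases ?_ (fun i => ?_) i
    · rw [E1l]; exact Nat.one_pos
    · rw [E1c]; exact hS.e0 i
  · intro i
    refine Fin.lastCases ?_ (fun i => ?_) i
    · rw [G1l]; exact hgl
    · rw [G1c]; exact hga i
  · exact A2
  · exact hS.f0
  · exact A3
  · intro i j
    refine Fin.lastCases ?_ (fun i => ?_) i
    · intro hij
      have : j = Fin.last q := le_antisymm (Fin.le_last _) hij
      rw [this, hM1]
      simp only [Fin.snoc_last]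
    · refine Fin.lastCases ?_ (fun j => ?_) j
      · intro _
        rw [hM1]
        simp only [Fin.snoc_castSucc, Fin.snoc_last]
      · intro hij
        rw [hM1]
        simp only [Fin.snoc_castSucc]
        exact hma i j (Fin.castSucc_le_castSucc_iff.1 hij)
  · intro i
    refine Fin.lastCases ?_ (fun i => ?_) i
    · rw [tf_last, E1l, G1l, pow_one, hVϕ]
    · rw [tf_cast, E1c, G1c, mo1]
      have := (A4 i (ee i : ℤ) (ga i) (ma i) (hga i)).1 (by rw [zpow_natCast]; exact hrel i)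
      rwa [zpow_natCast] at this
  · intro i k a m ha
    refine Fin.lastCases ?_ (fun i => ?_) i
    · intro hm h
      rw [E1l, Nat.cast_one]
      exact one_dvd _
    · intro hm h
      rw [E1c]
      rw [tf_cast, mo_snoc, hm _ (Fin.castSucc_lt_last i).le, zpow_zero, mul_one] at h
      have := (A4 i k a (fun i => m i.castSucc) ha).2 h
      exact hS.min i k a _ ha (fun j hj => hm _ (Fin.castSucc_le_castSucc_iff.2 hj)) this
  · exact A5
  · intro j
    obtain ⟨h, hs, hc, hv⟩ := hS.res j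
    refine ⟨h, hs, fun l m => (hWV _).1 (hc l m), ?_⟩
    exact B1 j h (fun l m => (hWV _).1 (hc l m)) hv
  · intro i
    refine Fin.lastCases ?_ (fun i => ?_) i
    · rw [tf_last, E1l, G1l, pow_one]
      obtain ⟨p, hp, hprep⟩ := B2 c gl ml hgl (hK.ne hcd hc0)
        (Dsmall _ _ hcd le_rfl ((Valuation.ne_zero_iff _).2 (hK.ne hcd hc0))) hWl hVl
      refine ⟨p, hp, ?_⟩
      have h1 := B4 (· < V.valuation (aeval θ ϕ)) N' e f hE
        (fun k hk x hx => lt_of_le_of_lt hx (hek k hk))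
      have h2 := Q4.rep_neg htf0 (Q4.rep_div htf0 hgl (M1 (Fin.last q)) hVϕ.symm h1)
      have h3 := Q4.rep_add hprep h2
      convert h3 using 1
      rw [hf, mo2]
      ring
    · rw [tf_cast, E1c, G1c, mo1]
      have hti : aeval θ (tt i ^ ee i) = aeval θ (tt i) ^ ee i := map_pow _ _ _
      have hV1 := (A4 i (ee i : ℤ) (ga i) (ma i) (hga i)).1 (by rw [zpow_natCast]; exact hrel i)
      rw [zpow_natCast] at hV1
      have hD : Q4.DC V θ ϕ := ⟨Dsmall, Dadd, Dneg, Dmul, Ddvd⟩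
      have h1 := B2 (tt i ^ ee i) (ga i) (ma i) (hga i) (by
          rw [hti]
          exact pow_ne_zero _ (A1 i)) (by
          rw [hti, map_pow]
          exact Q4.dig_pow hK hD ((Valuation.ne_zero_iff _).2 (A1 i))
            (Dsmall _ _ (htd i) le_rfl ((Valuation.ne_zero_iff _).2 (A1 i))) _) (by
          rw [map_pow, htπ]
          exact hrel i) (by
          rw [hti]
          exact hV1)
      rw [hti] at h1
      exact h1
  · exact B3
  · intro v
    obtain ⟨f, rfl⟩ := hgen v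
    obtain ⟨N', he⟩ := Pool.Agent.H971.DT2.dg_exists hK.monic hK.deg f
    exact B4 (fun _ => True) N' _ f he fun _ _ _ _ => trivial

end Pool.Agent.H176.DT
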