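import Pool.Agent.H59.L.S8.H176.DT.D10
import Pool.Agent.H59.L.S8.H176.DT.D6
import Pool.Agent.H59.L.S8.H176.DT.C11

/-!
# The step for algebraic elements
-/

set_option autoImplicit false
set_option linter.unusedVariables false
set_option linter.unusedSectionVars false

universe u

namespace Pool.Agent.H176.DT

open Pool.Agent.W418.LU2 IsLocalRing Polynomial

section main

variable {E F : Type u} [Field E] [Field F] [Algebra E F]

lemma exn_ne {ϕ : E[X]} (hϕ : ϕ.Monic) {N : ℕ} {d : ℕ → E[X]}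
    (hd : ∀ k, (d k).degree < ϕ.degree) (hd1 : d 1 ≠ 0) :
    ∑ k ∈ Finset.range (N + 2), d k * ϕ ^ k ≠ 0 := by
  intro h
  have h1 := (Pool.Agent.H971.DT2.dg_uniq hϕ (N + 2) d 0 ⟨hd, h.symm⟩).1 1 (by omega)
  rw [Pool.Agent.H971.DT2.dg_zero] at h1
  exact hd1 h1.symm

lemma gen_isAlg {θ : F} {f : E[X]} (hf : f ≠ 0) (h : aeval θ f = 0)
    (hgen : ∀ z : F, ∃ f : E[X], aeval θ f = z) : Algebra.IsAlgebraic E F := by
  have h0 : IsIntegral E θ := IsAlgebraic.isIntegral ⟨f, hf, h⟩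
  refine ⟨fun z => ?_⟩
  obtain ⟨g, rfl⟩ := hgen z
  exact (adjoin_le_integralClosure h0 (aeval_mem_adjoin_singleton E θ) :
    IsIntegral E (aeval θ g)).isAlgebraic

/-- The step for algebraic elements. -/
lemma key_alg {V : ValuationSubring F} (A : Subring E) (hM : Mod (V.comap (algebraMap E F)) A)
    (hSU : SU (V.comap (algebraMap E F)) A) (θ : F) {ϕ : E[X]} {n : ℕ} {β : Fin n → E[X]}
    (hK : KP V θ ϕ β) (hgen : ∀ z : F, ∃ f : E[X], aeval θ f = z)
    {N : ℕ} {d : ℕ → E[X]} (hd : ∀ k, (d k).degree < ϕ.degree) (hd1 : d 1 ≠ 0)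
    (hsum : aeval θ (∑ k ∈ Finset.range (N + 2), d k * ϕ ^ k) = 0)
    (hlt : ∀ k, 2 ≤ k → k < N + 2 →
      V.valuation (aeval θ (d k * ϕ ^ k)) < V.valuation (aeval θ (d 1 * ϕ))) :
    ∃ U : Set F, U.Finite ∧
      Mod V (Subring.closure ((A.map (algebraMap E F) : Set F) ∪ U)) ∧
      SU V (Subring.closure ((A.map (algebraMap E F) : Set F) ∪ U)) := by
  classical
  by_cases hθ : aeval θ ϕ = 0
  · have hC : ∀ (c : Fin n → E), aeval θ (∑ i, C (c i) * β i) =
        ∑ i, algebraMap E F (c i) * aeval θ (β i) := by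
      intro c
      rw [map_sum]
      exact Finset.sum_congr rfl fun i _ => by rw [map_mul, aeval_C]
    refine key_bas (β := fun i => aeval θ (β i)) A hM hSU ⟨fun i => hK.ne (hK.bdeg i) (hK.b0 i),
      fun z => ?_, fun c i => ?_⟩
    · obtain ⟨f, rfl⟩ := hgen z
      obtain ⟨c, hc⟩ := hK.span (f %ₘ ϕ) (degree_modByMonic_lt _ hK.monic)
      refine ⟨c, ?_⟩
      rw [← hC, ← hc]
      conv_lhs => rw [← modByMonic_add_div f ϕ]
      rw [map_add, map_mul, hθ, zero_mul, add_zero]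
    · have h1 := hK.orth c i
      rw [hC, map_mul (aeval θ), aeval_C] at h1
      exact h1
  · obtain ⟨q, r, P, _, t, ee, g, m₀, b, ff, z, hKF⟩ := p4_key V θ ϕ n β hθ hK hgen N d hd hd1
      hsum hlt
    have hA : Algebra.IsAlgebraic E F := gen_isAlg (exn_ne hK.monic hd hd1) hsum hgen
    have hKF' := hKF.fin (Fintype.equivFin P)
    have hUb : ∀ j, b j ∈ Ug V t (Fin.append b fun i => z ((Fintype.equivFin P).symm i)) :=
      fun j => Or.inl ⟨Fin.castAdd _ j, Fin.append_left _ _ _⟩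
    have hUz : ∀ j, z ((Fintype.equivFin P).symm j) ∈
        Ug V t (Fin.append b fun i => z ((Fintype.equivFin P).symm i)) :=
      fun j => Or.inl ⟨Fin.natAdd _ j, Fin.append_right _ _ _⟩
    refine ⟨Ug V t (Fin.append b fun i => z ((Fintype.equivFin P).symm i)), Ug_fin,
      mod_ext hM ?_ ?_, F_SU p_fac p_ref p_ell p_ind p_adj p_alg p_map p_ext p_cut A hM hSU hKF'⟩
    · intro v hv
      rcases Ug_cases hv with ⟨j, rfl⟩ | ⟨i, h, rfl⟩ | ⟨i, h, rfl⟩
      · refine Fin.addCases (fun i => ?_) (fun i => ?_) j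
        · rw [Fin.append_left]
          exact (V.valuation_le_one_iff _).1 (hKF.b1 i).le
        · rw [Fin.append_right]
          exact (V.valuation_le_one_iff _).1 (hKF'.z1 i).le
      · exact h
      · exact (V.mem_or_inv_mem _).resolve_left h
    · intro v
      obtain ⟨k, a, μ, p, hv, -⟩ := hKF'.all v
      rw [hv]
      refine sum_mem fun i _ => mul_mem (mul_mem (Subfield.subset_closure (Or.inl ⟨_, rfl⟩)) ?_)
        (Subfield.subset_closure (Or.inr (hUz _)))
      unfold mo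
      refine prod_mem fun j _ => zpow_mem ?_ _
      by_cases h : t j ∈ V
      · exact Subfield.subset_closure (Or.inr (Ug_t j h))
      · have h1 := inv_mem (Subfield.subset_closure
          (s := Set.range (algebraMap E F) ∪ Ug V t (Fin.append b fun i =>
            z ((Fintype.equivFin P).symm i))) (Or.inr (Ug_t' j h)))
        rwa [inv_inv] at h1

end main

section sub

variable {K : Type u} [Field K] {L : Subfield K} (V : ValuationSubring K) (R : Subring K)

/-- The step for algebraic elements. -/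
theorem sub_alg (η : K) {ϕ : L[X]} {n : ℕ} {β : Fin n → L[X]} (hK : KP V η ϕ β)
    {N : ℕ} {d : ℕ → L[X]} (hd : ∀ k, (d k).degree < ϕ.degree) (hd1 : d 1 ≠ 0)
    (hsum : aeval η (∑ k ∈ Finset.range (N + 2), d k * ϕ ^ k) = 0)
    (hlt : ∀ k, 2 ≤ k → k < N + 2 →
      V.valuation (aeval η (d k * ϕ ^ k)) < V.valuation (aeval η (d 1 * ϕ)))
    (h : Inv V R L.subtype) : Inv V R (L ⊔ Subfield.closure {η}).subtype := by
  have hL : L ≤ L ⊔ Subfield.closure {η} := le_sup_left
  letI := (Subfield.inclusion hL).toAlgebra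
  have htm : η ∈ L ⊔ Subfield.closure {η} :=
    (le_sup_right : Subfield.closure {η} ≤ _) (Subfield.subset_closure rfl)
  have hgen : ∀ z : ↥(L ⊔ Subfield.closure {η}), z ∈ Subfield.closure
      (Set.range (algebraMap L ↥(L ⊔ Subfield.closure {η})) ∪ {⟨η, htm⟩}) := by
    intro z
    refine sub_gen hL ?_ z
    rw [Set.image_singleton]
    exact le_rfl
  have hsum' : aeval (⟨η, htm⟩ : ↥(L ⊔ Subfield.closure {η}))
      (∑ k ∈ Finset.range (N + 2), d k * ϕ ^ k) = 0 := by
    apply Subtype.ext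
    rw [sub_aeval hL]
    exact hsum
  refine Inv.step (F := L) (F' := ↥(L ⊔ Subfield.closure {η})) (φ := L.subtype) rfl h ?_
  intro A hM hSU
  exact key_alg A hM hSU ⟨η, htm⟩ (sub_KP V hL ⟨η, htm⟩ hK) (fun z => gen_alg
    (IsAlgebraic.isIntegral ⟨_, exn_ne hK.monic hd hd1, hsum'⟩) (hgen z)) hd hd1 hsum'
    fun k h2 hk => (sub_val_lt V hL ⟨η, htm⟩ _ _).2 (hlt k h2 hk)

end sub

end Pool.Agent.H176.DT
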