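import Pool.Agent.H59.L.S8.H176.DT.C12
import Pool.Agent.H59.L.S8.H176.DT.D11
import Pool.Agent.H59.L.S8.Y761.DT2.Dig
import Pool.Agent.H59.L.S8.H971.DT2.Prod
import Pool.Agent.H59.L.S8.H872.DT2.Field
import Pool.Agent.H59.L.S8.Y195.DT2.LiftB
import Pool.Agent.H59.L.S8.H290.DT2.Key
import Pool.Agent.H59.L.S8.H297.DT2.LiftA
import Pool.Agent.H59.L.S8.Y421.DT2.Min
import Pool.Agent.H59.L.S8.Y779.DT3.All
import Pool.Agent.H59.L.S8.Y317.DT3.Alg
import Pool.Agent.H59.L.S8.Y606.DT3.Bas

/-!
# Towers without limit key polynomials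
-/

set_option autoImplicit false
set_option linter.unusedVariables false
set_option linter.unusedSectionVars false

universe u

namespace Pool.Agent.H176.DT

open Pool.Agent.W418.LU2 IsLocalRing Polynomial

theorem p2_dig : S2_dig.{u} := Pool.Agent.Y761.DT2.dig
theorem p2_prod : S2_prod.{u} := Pool.Agent.H971.DT2.prod'
theorem p2_field : S2_field.{u} := Pool.Agent.H872.DT2.field
theorem p2_A : S2_A.{u} := Pool.Agent.H297.DT2.liftA
theorem p2_B : S2_B.{u} := Pool.Agent.Y195.DT2.liftB p2_dig p2_A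
theorem p2_key : S2_key.{u} := Pool.Agent.H290.DT2.key' p2_field p2_A p2_B
theorem p2_min : S2_min.{u} := Pool.Agent.Y421.DT2.min'
theorem p3_all : S3_all.{u} := Pool.Agent.Y779.DT3.all
theorem p3_alg : S3_alg.{u} := Pool.Agent.Y317.DT3.alg'
theorem p3_bas : S3_bas.{u} := Pool.Agent.Y606.DT3.bas'

section sub

variable {K : Type u} [Field K] {L : Subfield K} (V : ValuationSubring K) (R : Subring K)

/-- The step for simple transcendental extensions without limit key polynomials. -/
theorem sub_trans (θ : K) (hθ : Transcendental L θ)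
    (hdom : ∀ f : L[X], ∃ (ϕ : L[X]) (n : ℕ) (β : Fin n → L[X]),
      KP V θ ϕ β ∧ Domi V θ ϕ f)
    (h : Inv V R L.subtype) : Inv V R (L ⊔ Subfield.closure {θ}).subtype :=
  sub_trk V R p2_min p2_prod p2_key p3_all p3_alg p3_bas θ hθ hdom h

end sub

end Pool.Agent.H176.DT
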