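import Pool.Agent.H59.L.S8.H176.DT.C1

/-!
# The polynomials of the residue generators
-/

set_option autoImplicit false
set_option linter.unusedVariables false
set_option linter.unusedSectionVars false

universe u

namespace Pool.Agent.H176.DT

open Pool.Agent.W418.LU2 IsLocalRing

section main

variable {E F : Type u} [Field E] [Field F] [Algebra E F] {V : ValuationSubring F} {q r n s : ℕ}
  {t : Fin q → F} {b : Fin r → F} {ff : Fin r → ℕ} {z : Fin n → F}
  {x : Fin s → E} {C : Subring E} {τ : Fin q → F} {Y : Fin s → F}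
  {K : Finset ((Fin s → ℤ) × (Fin q → ℤ))}

/-- The residual equations. -/
noncomputable def GK (n q s : ℕ) {r : ℕ} {ff : Fin r → ℕ} (j : Fin r)
    (h : Fin (ff j) → MvPolynomial (Fin r) E) : FF E (TT (r + n) q s) :=
  Zc E (Sum.inl (Fin.castAdd n j) : TT (r + n) q s) ^ ff j +
    ∑ l, MvPolynomial.aeval (fun i => Zc E (Sum.inl (Fin.castAdd n i) : TT (r + n) q s)) (h l) *
      Zc E (Sum.inl (Fin.castAdd n j) : TT (r + n) q s) ^ (l : ℕ)

/-- The values of polynomials in the residue generators. -/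
lemma Pr_ab (p : MvPolynomial (Fin r) E) :
    Pr (ph (E := E) (yy (Fin.append b z) τ Y))
      (MvPolynomial.aeval (fun i => Zc E (Sum.inl (Fin.castAdd n i) : TT (r + n) q s)) p :
        FF E (TT (r + n) q s)) (MvPolynomial.aeval b p) := by
  have h := Pr_aeval (E := E) (yy (Fin.append b z) τ Y)
    (fun i => (Sum.inl (Fin.castAdd n i) : TT (r + n) q s)) p
  have h1 : (fun i => yy (Fin.append b z) τ Y (Sum.inl (Fin.castAdd n i))) = b := by
    funext i
    exact Fin.append_left b z i
  rw [h1] at h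
  exact h

lemma Pr_zb (j : Fin r) : Pr (ph (E := E) (yy (Fin.append b z) τ Y))
    (Zc E (Sum.inl (Fin.castAdd n j) : TT (r + n) q s)) (b j) := by
  have h := Pr_Z (E := E) (yy (Fin.append b z) τ Y)
    (Sum.inl (Fin.castAdd n j) : TT (r + n) q s)
  have h1 : yy (Fin.append b z) τ Y (Sum.inl (Fin.castAdd n j)) = b j := Fin.append_left b z j
  rw [h1] at h
  exact h

lemma Pr_zz (p : Fin n) : Pr (ph (E := E) (yy (Fin.append b z) τ Y))
    (Zc E (Sum.inl (Fin.natAdd r p) : TT (r + n) q s)) (z p) := by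
  have h := Pr_Z (E := E) (yy (Fin.append b z) τ Y)
    (Sum.inl (Fin.natAdd r p) : TT (r + n) q s)
  have h1 : yy (Fin.append b z) τ Y (Sum.inl (Fin.natAdd r p)) = z p := Fin.append_right b z p
  rw [h1] at h
  exact h

lemma Pr_GK (j : Fin r) (h : Fin (ff j) → MvPolynomial (Fin r) E) :
    Pr (ph (E := E) (yy (Fin.append b z) τ Y)) (GK (E := E) n q s j h)
      (b j ^ ff j + ∑ l, MvPolynomial.aeval b (h l) * b j ^ (l : ℕ)) := by
  have h1 : Pr (ph (E := E) (yy (Fin.append b z) τ Y))
      (Zc E (Sum.inl (Fin.castAdd n j) : TT (r + n) q s)) (b j) := Pr_zb j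
  exact (h1.pow _).add (Pr.sum _ fun l _ => Pr.mul (Pr_ab (h l)) (h1.pow _))

/-- The polynomials in the residue generators. -/
lemma ab_mem {W : Set (FF E (TT (r + n) q s))} {y : TT (r + n) q s → F} (S : Set (Fin r))
    (hW : ∀ i ∈ S, Zc E (Sum.inl (Fin.castAdd n i) : TT (r + n) q s) ∈ W)
    (p : MvPolynomial (Fin r) E) (hS : p ∈ MvPolynomial.supported E S)
    (hp : ∀ m, p.coeff m ∈ lo (V.comap (algebraMap E F)).toSubring C) :
    (MvPolynomial.aeval (fun i => Zc E (Sum.inl (Fin.castAdd n i) : TT (r + n) q s)) p :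
      FF E (TT (r + n) q s)) ∈ lo (AT E y V) (Subring.closure
        ((C.map (emb E (TT (r + n) q s)) : Set (FF E (TT (r + n) q s))) ∪ W)) := by
  refine aeval_mem (fun i => (Sum.inl (Fin.castAdd n i) : TT (r + n) q s)) S (fun i hi => ?_) p hS
    fun m => emb_mem_lo (hp m) _
  exact le_lo _ _ (Subring.subset_closure (Or.inr (hW i hi)))

lemma GK_mem (hC : C ≤ (V.comap (algebraMap E F)).toSubring) (j : Fin r)
    (h : Fin (ff j) → MvPolynomial (Fin r) E)
    (hh : ∀ l m, (h l).coeff m ∈ lo (V.comap (algebraMap E F)).toSubring C) :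
    GK (E := E) n q s j h ∈ RZ C (yy (Fin.append b z) τ Y) V := by
  refine Subring.add_mem _ (Subring.pow_mem _ (Z_mem _) _) (Subring.sum_mem _ fun l _ =>
    Subring.mul_mem _ ?_ (Subring.pow_mem _ (Z_mem _) _))
  refine ab_mem (W := Set.range (Zc E)) Set.univ (fun i _ => ⟨_, rfl⟩) (h l) ?_ (hh l)
  rw [MvPolynomial.supported_univ]
  trivial

open Polynomial in
/-- The polynomial of a residue generator. -/
lemma exists_polyK (D : Dt V t (Fin.append b z) x C τ Y K) (j : Fin r) (hf0 : 0 < ff j)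
    (hbm : ∀ (w : Fin (ff j) → F),
      (∀ k, w k ∈ lo V.toSubring (Subring.closure
        (((V.comap (algebraMap E F)).toSubring.map (algebraMap E F) : Set F) ∪
          {z | ∃ l : Fin r, (l : ℕ) < (j : ℕ) ∧ b l = z}))) →
      V.valuation (∑ k, w k * b j ^ (k : ℕ)) < 1 → ∀ k, V.valuation (w k) < 1)
    (h : Fin (ff j) → MvPolynomial (Fin r) E)
    (hsupp : ∀ l, h l ∈ MvPolynomial.supported E {i | i < j})
    (hh : ∀ l m, (h l).coeff m ∈ lo (V.comap (algebraMap E F)).toSubring C) :
    ∃ g : (lo (AT E (yy (Fin.append b z) τ Y) V)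
      (Subring.closure ((C.map (emb E (TT (r + n) q s)) :
      Set (FF E (TT (r + n) q s))) ∪ Zc E '' {l | ordT (r + n) q s l <
        ordT (r + n) q s (Sum.inl (Fin.castAdd n j))})))[X],
      g.Monic ∧ eval₂ (Subring.subtype _) (Zc E (Sum.inl (Fin.castAdd n j) : TT (r + n) q s)) g =
        GK (E := E) n q s j h ∧
      ∀ h : (lo (AT E (yy (Fin.append b z) τ Y) V)
        (Subring.closure ((C.map (emb E (TT (r + n) q s)) :
        Set (FF E (TT (r + n) q s))) ∪ Zc E '' {l | ordT (r + n) q s l <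
          ordT (r + n) q s (Sum.inl (Fin.castAdd n j))})))[X],
        h.degree < g.degree →
        NU (AT E (yy (Fin.append b z) τ Y) V) (eval₂ (Subring.subtype _)
          (Zc E (Sum.inl (Fin.castAdd n j) : TT (r + n) q s)) h) →
        ∀ i, NU (AT E (yy (Fin.append b z) τ Y) V) (h.coeff i : FF E (TT (r + n) q s)) := by
  classical
  set P := lo (AT E (yy (Fin.append b z) τ Y) V)
    (Subring.closure ((C.map (emb E (TT (r + n) q s)) :
      Set (FF E (TT (r + n) q s))) ∪ Zc E '' {l | ordT (r + n) q s l <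
        ordT (r + n) q s (Sum.inl (Fin.castAdd n j))})) with hP
  have hU : ∀ θ : TT (r + n) q s, ordT (r + n) q s θ <
      ordT (r + n) q s (Sum.inl (Fin.castAdd n j)) ↔
      ∃ i : Fin r, i < j ∧ θ = Sum.inl (Fin.castAdd n i) := by
    intro θ
    rw [Fin.lt_def, ordT_b]
    have hj : ((Fin.castAdd n j : Fin (r + n)) : ℕ) = j := rfl
    rcases θ with i | i | i
    · rw [ordT_b]
      constructor
      · intro h
        have h1 : (i : ℕ) < r := by
          have := j.2
          omega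
        exact ⟨⟨i, h1⟩, h, rfl⟩
      · rintro ⟨i', h, h'⟩
        cases h'
        exact h
    · rw [ordT_t]
      constructor
      · intro h
        have := j.2
        omega
      · rintro ⟨i', h, h'⟩
        cases h'
    · rw [ordT_Y]
      constructor
      · intro h
        have := j.2
        omega
      · rintro ⟨i', h, h'⟩
        cases h'
  have hmem : ∀ l, (MvPolynomial.aeval
      (fun i => Zc E (Sum.inl (Fin.castAdd n i) : TT (r + n) q s)) (h l) :
      FF E (TT (r + n) q s)) ∈ P := by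
    intro l
    exact ab_mem (W := Zc E '' {l | ordT (r + n) q s l <
      ordT (r + n) q s (Sum.inl (Fin.castAdd n j))}) {i | i < j}
      (fun i hi => ⟨Sum.inl (Fin.castAdd n i), (hU _).2 ⟨i, hi, rfl⟩, rfl⟩) (h l) (hsupp l) (hh l)
  let g : P[X] := X ^ ff j + ∑ l : Fin (ff j), Polynomial.C (⟨_, hmem l⟩ : P) * X ^ (l : ℕ)
  have hdeg : (∑ l : Fin (ff j), Polynomial.C (⟨_, hmem l⟩ : P) * X ^ (l : ℕ)).degree <
      ((ff j : ℕ) : WithBot ℕ) := by
    refine lt_of_le_of_lt (degree_sum_le _ _) ?_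
    rw [Finset.sup_lt_iff (by exact WithBot.bot_lt_coe _)]
    intro l _
    refine lt_of_le_of_lt (degree_C_mul_X_pow_le _ _) ?_
    exact_mod_cast l.2
  have hgm : g.Monic := monic_X_pow_add hdeg
  have hAT : Nontrivial P := inferInstance
  have hgd : g.degree = ((ff j : ℕ) : WithBot ℕ) := by
    change (X ^ ff j + ∑ l : Fin (ff j), Polynomial.C (⟨_, hmem l⟩ : P) * X ^ (l : ℕ)).degree = _
    rw [degree_add_eq_left_of_degree_lt, degree_X_pow]
    rw [degree_X_pow]
    exact hdeg
  have heval : eval₂ (Subring.subtype _)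
      (Zc E (Sum.inl (Fin.castAdd n j) : TT (r + n) q s)) g = GK (E := E) n q s j h := by
    change eval₂ P.subtype _ (X ^ ff j + ∑ l : Fin (ff j),
      Polynomial.C (⟨_, hmem l⟩ : P) * X ^ (l : ℕ)) = _
    rw [eval₂_add, eval₂_X_pow, eval₂_finsetSum]
    unfold GK
    congr 1
    refine Finset.sum_congr rfl fun l _ => ?_
    rw [eval₂_mul, eval₂_C, eval₂_X_pow]
    rfl
  refine ⟨g, hgm, heval, ?_⟩
  intro p hp hNU i
  rw [hgd] at hp
  by_cases hi : i < ff j
  swap
  · rw [coeff_eq_zero_of_degree_lt (lt_of_lt_of_le hp (by exact_mod_cast not_lt.1 hi))]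
    intro h2
    exact h2.1 rfl
  -- the values of the coefficients
  have hw : ∀ k : ℕ, ∃ w ∈ lo V.toSubring (Subring.closure
      ((C.map (algebraMap E F) : Set F) ∪ yy (Fin.append b z) τ Y '' {l | ordT (r + n) q s l <
        ordT (r + n) q s (Sum.inl (Fin.castAdd n j))})),
      Pr (ph (E := E) (yy (Fin.append b z) τ Y)) (p.coeff k : FF E (TT (r + n) q s)) w :=
    fun k => lo_downU _ (p.coeff k).2
  choose w hwm hw using hw
  have hsub : lo V.toSubring (Subring.closure ((C.map (algebraMap E F) : Set F) ∪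
      yy (Fin.append b z) τ Y '' {l | ordT (r + n) q s l <
        ordT (r + n) q s (Sum.inl (Fin.castAdd n j))})) ≤
      lo V.toSubring (Subring.closure
      (((V.comap (algebraMap E F)).toSubring.map (algebraMap E F) : Set F) ∪
        {z | ∃ l : Fin r, (l : ℕ) < (j : ℕ) ∧ b l = z})) := by
    apply lo_mono
    apply Subring.closure_mono
    rintro w (⟨c, hc, rfl⟩ | ⟨θ, hθ, rfl⟩)
    · exact Or.inl ⟨c, D.hC hc, rfl⟩
    · obtain ⟨i, hi, rfl⟩ := (hU θ).1 hθ
      exact Or.inr ⟨i, hi, (Fin.append_left b z i).symm⟩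
  have hwV : ∀ k, w k ∈ V := by
    intro k
    refine lo_le ?_ (hwm k)
    rw [Subring.closure_le]
    rintro w (⟨c, hc, rfl⟩ | ⟨θ, hθ, rfl⟩)
    · exact D.hC hc
    · exact yy_mem D.t1 D.Y1 D.b1 θ
  have hbV : b j ∈ V := by
    have h1 := D.b1 (Fin.castAdd n j)
    rw [Fin.append_left] at h1
    exact (V.valuation_le_one_iff _).1 h1.le
  have hsum : Pr (ph (E := E) (yy (Fin.append b z) τ Y))
      (eval₂ (Subring.subtype _) (Zc E (Sum.inl (Fin.castAdd n j) : TT (r + n) q s)) p)
      (∑ k : Fin (ff j), w k * b j ^ (k : ℕ)) := by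
    have h1 : eval₂ (Subring.subtype _) (Zc E (Sum.inl (Fin.castAdd n j) : TT (r + n) q s)) p =
        ∑ k : Fin (ff j), (p.coeff k : FF E (TT (r + n) q s)) *
          Zc E (Sum.inl (Fin.castAdd n j) : TT (r + n) q s) ^ (k : ℕ) := by
      rw [Finset.sum_range (fun k => (p.coeff k : FF E (TT (r + n) q s)) *
        Zc E (Sum.inl (Fin.castAdd n j) : TT (r + n) q s) ^ k) |>.symm]
      rw [eval₂_eq_sum_range' _ (by
        by_cases h0 : p = 0
        · rw [h0, natDegree_zero]
          exact hf0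
        · exact (natDegree_lt_iff_degree_lt h0).2 hp)]
      rfl
    rw [h1]
    exact Pr.sum _ fun k _ => (hw k).mul (Pr.pow (Pr_zb j) _)
  have hlt : V.valuation (∑ k : Fin (ff j), w k * b j ^ (k : ℕ)) < 1 := by
    refine val_of_NU hsum ?_ hNU
    exact Subring.sum_mem V.toSubring fun k _ => Subring.mul_mem _ (hwV k)
      (Subring.pow_mem _ hbV _)
  have h1 := hbm (fun k => w k) (fun k => hsub (hwm k)) hlt ⟨i, hi⟩
  exact NU_of_val (hw i) h1

end main

end Pool.Agent.H176.DT
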