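import Pool.Agent.H59.L.S8.H176.DT.C6

/-!
# The stages of key polynomials, continued
-/

set_option autoImplicit false
set_option linter.unusedVariables false
set_option linter.unusedSectionVars false

universe u

namespace Pool.Agent.H176.DT

open Pool.Agent.W418.LU2 IsLocalRing

section rep

variable {E F : Type u} [Field E] [Field F] [Algebra E F] {V : ValuationSubring F} {q n : ℕ}
  {t : Fin q → F} {z : Fin n → F}

/-- Sums of terms with coefficients and exponents in given sets. -/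
def RepIn (V : ValuationSubring F) (t : Fin q → F) (z : Fin n → F) (Q : V.ValueGroup → Prop)
    (GE : Set E) (ME : Set (Fin q → ℤ)) (w : F) : Prop :=
  ∃ (k : ℕ) (a : Fin k → E) (μ : Fin k → Fin q → ℤ) (p : Fin k → Fin n),
    w = ∑ i, algebraMap E F (a i) * mo t (μ i) * z (p i) ∧
    ∀ i, a i ∈ GE ∧ μ i ∈ ME ∧ Q (V.valuation (algebraMap E F (a i) * mo t (μ i)))

lemma RepIn.mono {Q : V.ValueGroup → Prop} {GE GE' : Set E} {ME ME' : Set (Fin q → ℤ)}
    (h1 : GE ⊆ GE') (h2 : ME ⊆ ME') {w : F} (h : RepIn V t z Q GE ME w) :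
    RepIn V t z Q GE' ME' w := by
  obtain ⟨k, a, μ, p, hw, h⟩ := h
  exact ⟨k, a, μ, p, hw, fun i => ⟨h1 (h i).1, h2 (h i).2.1, (h i).2.2⟩⟩

lemma Rep.exists_in {Q : V.ValueGroup → Prop} {w : F} (h : Rep E V t z Q w) :
    ∃ (GE : Set E) (ME : Set (Fin q → ℤ)), GE.Finite ∧ ME.Finite ∧ (∀ a ∈ GE, a ≠ 0) ∧
      RepIn V t z Q GE ME w := by
  obtain ⟨k, a, μ, p, hw, h⟩ := h
  refine ⟨Set.range a, Set.range μ, Set.finite_range _, Set.finite_range _, ?_,
    k, a, μ, p, hw, fun i => ⟨⟨i, rfl⟩, ⟨i, rfl⟩, (h i).2⟩⟩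
  rintro _ ⟨i, rfl⟩
  exact (h i).1

end rep

section main

variable {E F : Type u} [Field E] [Field F] [Algebra E F] {V : ValuationSubring F} {q r n : ℕ}
  {t : Fin q → F} {ee : Fin q → ℕ} {b : Fin r → F} {z : Fin n → F}
  {s : ℕ} {x : Fin s → E} {τ : Fin q → F} {Y : Fin s → F} {u : Fin q → E}
  {K : Finset ((Fin s → ℤ) × (Fin q → ℤ))} {A : Subring E} {GE : Set E}
  {ME : Set (Fin q → ℤ)} {g : Fin q → E} {m₀ : Fin q → Fin q → ℤ} {T : Set E}

lemma Lf.mul {C : Subring E} {b : Fin r → F} {w : F} (h : Lf C b τ Y V w) {v : E}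
    (hv : v ∈ lo (V.comap (algebraMap E F)).toSubring C) :
    Lf C b τ Y V (algebraMap E F v * w) := by
  obtain ⟨ζ, hζ, hζJ⟩ := h
  exact ⟨emb E (TT r q s) v * ζ, (Pr_emb (E := E) (yy b τ Y) v).mul hζ,
    InJ.mul (emb_mem_lo hv _) hζJ⟩

/-- The sums of small terms have lifts. -/
lemma ConsK.lf (H : ConsK V t ee (Fin.append b z) A GE ME g m₀ T x τ u Y K) {w : F}
    (h : RepIn V t z (· < 1) GE ME w) :
    Lf (Subring.closure ((A : Set E) ∪ T)) (Fin.append b z) τ Y V w := by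
  obtain ⟨k, a, μ, p, hw, h⟩ := h
  choose v l hv ha hK using fun i => H.small (a i) (h i).1 (μ i) (h i).2.1 (h i).2.2
  refine H.dat.lift_rep (a := a) (μ := μ) (p := fun i => Fin.natAdd r (p i)) ?_ hv ha hK
  rw [hw]
  exact Finset.sum_congr rfl fun i _ => by rw [Fin.append_right]

/-- The bounded monomials lie in the local ring. -/
lemma ConsK.mon_mem {b : Fin r → F} (H : ConsK V t ee b A GE ME g m₀ T x τ u Y K) {a : E}
    (ha : a ∈ GE) {m : Fin q → ℤ} (hm : m ∈ ME)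
    (h : V.valuation (algebraMap E F a * mo t m) ≤ 1) :
    algebraMap E F a * mo t m ∈ PF (Subring.closure ((A : Set E) ∪ T)) V (yy b τ Y) := by
  rcases h.lt_or_eq with h | h
  · obtain ⟨v, l, hv, h1, hK⟩ := H.small a ha m hm h
    have h2 : algebraMap E F a * mo t m = algebraMap E F v * MM x t l m := by
      rw [h1, map_mul, mul_assoc]
      rfl
    rw [h2]
    exact Subring.mul_mem _ (alg_mem_PF hv) (H.dat.K_mem hK)
  · obtain ⟨v, κ, hv, h1⟩ := H.one a ha m hm h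
    rw [h1]
    exact Subring.mul_mem _ (alg_mem_PF hv) (H.dat.mo_tau κ)

/-- The bounded sums lie in the local ring. -/
lemma ConsK.rep_mem (H : ConsK V t ee (Fin.append b z) A GE ME g m₀ T x τ u Y K) {w : F}
    (h : RepIn V t z (· ≤ 1) GE ME w) :
    w ∈ PF (Subring.closure ((A : Set E) ∪ T)) V (yy (Fin.append b z) τ Y) := by
  obtain ⟨k, a, μ, p, hw, h⟩ := h
  rw [hw]
  refine Subring.sum_mem _ fun i _ => Subring.mul_mem _
    (H.mon_mem (h i).1 (h i).2.1 (h i).2.2) ?_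
  have h1 := H.dat.b_mem (Fin.natAdd r (p i))
  rwa [Fin.append_right] at h1

/-- The generators are monomials. -/
lemma ConsK.t_PMon {b : Fin r → F} (H : ConsK V t ee b A GE ME g m₀ T x τ u Y K) (i : Fin q) :
    PMon (PF (Subring.closure ((A : Set E) ∪ T)) V (yy b τ Y)) Y (t i) := by
  obtain ⟨k, κ, h⟩ := H.gen i
  have h1 := (PMon.of_mo (P := PF (Subring.closure ((A : Set E) ∪ T)) V (yy b τ Y)) (x := Y)
    (fun j => (k j : ℤ))).mul H.dat.Y0 (H.dat.tau_PMon κ)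
  rcases h with ⟨-, h⟩ | ⟨-, h⟩
  · rw [h]; exact h1
  · rw [← inv_inv (t i), h]; exact h1.inv

lemma ConsK.unit_PMon {b : Fin r → F} (H : ConsK V t ee b A GE ME g m₀ T x τ u Y K) {w : F}
    (hw : w ∈ PF (Subring.closure ((A : Set E) ∪ T)) V (yy b τ Y)) (h1 : V.valuation w = 1) :
    PMon (PF (Subring.closure ((A : Set E) ∪ T)) V (yy b τ Y)) Y w := by
  have h2 := (val_one_iff V w).1 h1
  exact ⟨w, h2.1, hw, inv_mem_lo H.dat.le hw h2.1 h2.2.2, 0, by rw [mo_zero, mul_one]⟩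

lemma ConsK.mo_PMon {b : Fin r → F} (H : ConsK V t ee b A GE ME g m₀ T x τ u Y K) {a : E}
    (ha : a ∈ GE) (m : Fin q → ℤ) :
    PMon (PF (Subring.closure ((A : Set E) ∪ T)) V (yy b τ Y)) Y
      (algebraMap E F a * mo t m) :=
  (H.dat.alg_PMon H.Kx (H.mon a ha).1).mul H.dat.Y0 (PMon.mo H.dat.Y0 H.t_PMon m)

/-- The monomials times units. -/
def MonoIn (V : ValuationSubring F) (t : Fin q → F) (z : Fin n → F)
    (GE : Set E) (ME : Set (Fin q → ℤ)) (v : F) : Prop :=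
  ∃ (a : E) (m : Fin q → ℤ) (w : F), a ≠ 0 ∧ v = algebraMap E F a * mo t m * w ∧
    V.valuation w = 1 ∧ a ∈ GE ∧ a⁻¹ ∈ GE ∧ m ∈ ME ∧ -m ∈ ME ∧ RepIn V t z (· ≤ 1) GE ME w

lemma MonoIn.mono {GE GE' : Set E} {ME ME' : Set (Fin q → ℤ)}
    (h1 : GE ⊆ GE') (h2 : ME ⊆ ME') {w : F} (h : MonoIn V t z GE ME w) :
    MonoIn V t z GE' ME' w := by
  obtain ⟨a, m, v, ha0, hv, hv1, ha, ha', hm, hm', hr⟩ := h
  exact ⟨a, m, v, ha0, hv, hv1, h1 ha, h1 ha', h2 hm, h2 hm', hr.mono h1 h2⟩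

lemma Mono.exists_in {v : F} (h : Mono E V t z v) :
    ∃ (GE : Set E) (ME : Set (Fin q → ℤ)), GE.Finite ∧ ME.Finite ∧ (∀ a ∈ GE, a ≠ 0) ∧
      MonoIn V t z GE ME v := by
  obtain ⟨a, m, w, ha, hv, hw1, hw⟩ := h
  obtain ⟨GE, ME, hG, hM, hG0, hr⟩ := hw.exists_in
  refine ⟨GE ∪ {a, a⁻¹}, ME ∪ {m, -m}, hG.union ((Set.finite_singleton _).insert _),
    hM.union ((Set.finite_singleton _).insert _), ?_,
    a, m, w, ha, hv, hw1, Or.inr (Or.inl rfl), Or.inr (Or.inr rfl), Or.inr (Or.inl rfl),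
    Or.inr (Or.inr rfl), hr.mono Set.subset_union_left Set.subset_union_left⟩
  rintro c (hc | rfl | rfl)
  · exact hG0 c hc
  · exact ha
  · exact inv_ne_zero ha

lemma ConsK.mono_PMon (H : ConsK V t ee (Fin.append b z) A GE ME g m₀ T x τ u Y K) {v : F}
    (h : MonoIn V t z GE ME v) :
    PMon (PF (Subring.closure ((A : Set E) ∪ T)) V (yy (Fin.append b z) τ Y)) Y v := by
  obtain ⟨a, m, w, ha0, hv, hv1, ha, ha', hm, hm', hr⟩ := h
  rw [hv]
  exact (H.mo_PMon ha m).mul H.dat.Y0 (H.unit_PMon (H.rep_mem hr) hv1)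

lemma ConsK.mono_mem (H : ConsK V t ee (Fin.append b z) A GE ME g m₀ T x τ u Y K) {v : F}
    (h : MonoIn V t z GE ME v) (hV : v ∈ V) :
    v ∈ PF (Subring.closure ((A : Set E) ∪ T)) V (yy (Fin.append b z) τ Y) := by
  obtain ⟨a, m, w, ha0, hv, hv1, ha, ha', hm, hm', hr⟩ := h
  have h1 : V.valuation (algebraMap E F a * mo t m) ≤ 1 := by
    have h2 := (V.valuation_le_one_iff _).2 hV
    rw [hv, map_mul, hv1, mul_one] at h2
    exact h2
  rw [hv]
  exact Subring.mul_mem _ (H.mon_mem ha hm h1) (H.rep_mem hr)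

lemma ConsK.mono_inv_mem (H : ConsK V t ee (Fin.append b z) A GE ME g m₀ T x τ u Y K) {v : F}
    (h : MonoIn V t z GE ME v) (hV : v⁻¹ ∈ V) :
    v⁻¹ ∈ PF (Subring.closure ((A : Set E) ∪ T)) V (yy (Fin.append b z) τ Y) := by
  obtain ⟨a, m, w, ha0, hv, hv1, ha, ha', hm, hm', hr⟩ := h
  have h3 : v⁻¹ = algebraMap E F a⁻¹ * mo t (-m) * w⁻¹ := by
    rw [hv, mul_inv, mul_inv, map_inv₀, mo_neg]
  have h1 : V.valuation (algebraMap E F a⁻¹ * mo t (-m)) ≤ 1 := by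
    have h2 := (V.valuation_le_one_iff _).2 hV
    rw [h3, map_mul, map_inv₀ V.valuation w, hv1, inv_one, mul_one] at h2
    exact h2
  have h4 := (val_one_iff V w).1 hv1
  rw [h3]
  exact Subring.mul_mem _ (H.mon_mem ha' hm' h1)
    (inv_mem_lo H.dat.le (H.rep_mem hr) h4.1 h4.2.2)

end main

end Pool.Agent.H176.DT
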