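import Pool.Agent.H59.L.S8.H176.DT.Stm2

/-!
# Statements for the project DT, part four (algebraic elements)
-/

set_option autoImplicit false
set_option linter.unusedVariables false
set_option linter.unusedSectionVars false

universe u

namespace Pool.Agent.H176.DT

open Pool.Agent.W418.LU2 IsLocalRing Polynomial

/-- The calculus of digits. -/
def S4_dig : Prop :=
  ∀ {E F : Type u} [Field E] [Field F] [Algebra E F] (V : ValuationSubring F) (θ : F)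
    (ϕ : E[X]) (n : ℕ) (β : Fin n → E[X]), aeval θ ϕ ≠ 0 → KP V θ ϕ β →
    (∀ (ρ : V.ValueGroup) (f : E[X]), f.degree < ϕ.degree → V.valuation (aeval θ f) ≤ ρ →
      ρ ≠ 0 → Dig V θ ϕ ρ f) ∧
    (∀ (ρ : V.ValueGroup) (f g : E[X]), Dig V θ ϕ ρ f → Dig V θ ϕ ρ g → Dig V θ ϕ ρ (f + g)) ∧
    (∀ (ρ : V.ValueGroup) (f : E[X]), Dig V θ ϕ ρ f → Dig V θ ϕ ρ (-f)) ∧
    (∀ (ρ σ : V.ValueGroup) (f g : E[X]), ρ ≠ 0 → σ ≠ 0 → Dig V θ ϕ ρ f → Dig V θ ϕ σ g →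
      Dig V θ ϕ (ρ * σ) (f * g)) ∧
    ∀ (ρ : V.ValueGroup) (f : E[X]), Dig V θ ϕ ρ f → ϕ ∣ f →
      ∃ (N : ℕ) (d : ℕ → E[X]), Exn ϕ (N + 1) d f ∧ d 0 = 0 ∧
        ∀ k, 1 ≤ k → k ≤ N → V.valuation (aeval θ (d k * ϕ ^ k)) < ρ

/-- The residue field of a key polynomial. -/
def S4_field : Prop :=
  ∀ {E F : Type u} [Field E] [Field F] [Algebra E F] (V : ValuationSubring F) (θ : F)
    (ϕ : E[X]) (n : ℕ) (β : Fin n → E[X]), aeval θ ϕ ≠ 0 → KP V θ ϕ β →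
    ∃ (M : Type u) (_ : Field M) (_ : Algebra E M) (W : ValuationSubring M) (π : E[X] →ₐ[E] M),
      Rsd V θ ϕ W π

/-- Values and residues of the lifts. -/
def S4_A : Prop :=
  ∀ {E F : Type u} [Field E] [Field F] [Algebra E F] (V : ValuationSubring F) (θ : F)
    (ϕ : E[X]) (n : ℕ) (β : Fin n → E[X]), aeval θ ϕ ≠ 0 → KP V θ ϕ β →
    ∀ {M : Type u} [Field M] [Algebra E M] (W : ValuationSubring M) (π : E[X] →ₐ[E] M)
      {q r : ℕ} (t : Fin q → M) (ee : Fin q → ℕ) (b : Fin r → M) (ff : Fin r → ℕ)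
      (tt : Fin q → E[X]) (bb : Fin r → E[X])
      (zz : ((i : Fin q) → Fin (ee i)) × ((j : Fin r) → Fin (ff j)) → E[X]),
    Lft V θ ϕ W π t ee b ff tt bb zz →
    (∀ i, aeval θ (tt i) ≠ 0) ∧
    (∀ j, V.valuation (aeval θ (bb j)) = 1) ∧
    (∀ p, V.valuation (zf θ tt zz p) = 1) ∧
    (∀ (i : Fin q) (k : ℤ) (a : E) (m : Fin q → ℤ), a ≠ 0 →
      (W.valuation (t i ^ k) = W.valuation (algebraMap E M a * mo t m) ↔
        V.valuation (aeval θ (tt i) ^ k) =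
          V.valuation (algebraMap E F a * mo (fun i => aeval θ (tt i)) m))) ∧
    ∀ (j : Fin r) (w : Fin (ff j) → F),
      (∀ k, w k ∈ lo V.toSubring (Subring.closure
        (((V.comap (algebraMap E F)).toSubring.map (algebraMap E F) : Set F) ∪
          {z | ∃ l : Fin r, (l : ℕ) < (j : ℕ) ∧ aeval θ (bb l) = z}))) →
      V.valuation (∑ k, w k * aeval θ (bb j) ^ (k : ℕ)) < 1 → ∀ k, V.valuation (w k) < 1

/-- The relations of the lifts. -/
def S4_B : Prop :=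
  ∀ {E F : Type u} [Field E] [Field F] [Algebra E F] (V : ValuationSubring F) (θ : F)
    (ϕ : E[X]) (n : ℕ) (β : Fin n → E[X]), aeval θ ϕ ≠ 0 → KP V θ ϕ β →
    ∀ {M : Type u} [Field M] [Algebra E M] (W : ValuationSubring M) (π : E[X] →ₐ[E] M)
      {q r : ℕ} (t : Fin q → M) (ee : Fin q → ℕ) (b : Fin r → M) (ff : Fin r → ℕ)
      (tt : Fin q → E[X]) (bb : Fin r → E[X])
      (zz : ((i : Fin q) → Fin (ee i)) × ((j : Fin r) → Fin (ff j)) → E[X]),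
    Lft V θ ϕ W π t ee b ff tt bb zz →
    (∀ (j : Fin r) (h : Fin (ff j) → MvPolynomial (Fin r) E),
      (∀ l m, algebraMap E F ((h l).coeff m) ∈ V) →
      W.valuation (b j ^ ff j + ∑ l, MvPolynomial.aeval b (h l) * b j ^ (l : ℕ)) < 1 →
      Rep E V (tf θ ϕ tt) (zf θ tt zz) (· < 1) (aeval θ (bb j) ^ ff j +
        ∑ l, MvPolynomial.aeval (fun i => aeval θ (bb i)) (h l) * aeval θ (bb j) ^ (l : ℕ))) ∧
    (∀ (f : E[X]) (g : E) (m : Fin q → ℤ), g ≠ 0 → aeval θ f ≠ 0 →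
      Dig V θ ϕ (V.valuation (aeval θ f)) f →
      W.valuation (π f) = W.valuation (algebraMap E M g * mo t m) →
      V.valuation (aeval θ f) =
        V.valuation (algebraMap E F g * mo (fun i => aeval θ (tt i)) m) →
      ∃ p : MvPolynomial (Fin r) E, (∀ m, algebraMap E F (p.coeff m) ∈ V) ∧
        Rep E V (tf θ ϕ tt) (zf θ tt zz) (· < 1) (aeval θ f *
          (algebraMap E F g * mo (fun i => aeval θ (tt i)) m)⁻¹ -
          MvPolynomial.aeval (fun i => aeval θ (bb i)) p)) ∧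
    (∀ k, ∃ p : MvPolynomial (Fin r) E, (∀ m, algebraMap E F (p.coeff m) ∈ V) ∧
      Rep E V (tf θ ϕ tt) (zf θ tt zz) (· < 1) (zf θ tt zz k -
        MvPolynomial.aeval (fun i => aeval θ (bb i)) p)) ∧
    (∀ (Q : V.ValueGroup → Prop) (N : ℕ) (d : ℕ → E[X]) (f : E[X]), Exn ϕ N d f →
      (∀ k < N, ∀ x, x ≤ V.valuation (aeval θ (d k * ϕ ^ k)) → Q x) →
      Rep E V (tf θ ϕ tt) (zf θ tt zz) Q (aeval θ f)) ∧
    ∀ f : E[X], f.degree < ϕ.degree → f ≠ 0 → ∃ (g : E) (m : Fin q → ℤ), g ≠ 0 ∧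
      W.valuation (π f) = W.valuation (algebraMap E M g * mo t m) ∧
      V.valuation (aeval θ f) =
        V.valuation (algebraMap E F g * mo (fun i => aeval θ (tt i)) m)

section defs

variable {E F : Type u} [Field E] [Field F] [Algebra E F]

/-- The data of an algebraic element. -/
structure KeyF (V : ValuationSubring F) {q r : ℕ} {P : Type} [Fintype P]
    (t : Fin q → F) (ee : Fin q → ℕ) (g : Fin q → E)
    (m₀ : Fin q → Fin q → ℤ) (b : Fin r → F) (ff : Fin r → ℕ) (z : P → F) : Prop where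
  t0 : ∀ i, t i ≠ 0
  e0 : ∀ i, 0 < ee i
  g0 : ∀ i, g i ≠ 0
  b1 : ∀ j, V.valuation (b j) = 1
  f0 : ∀ j, 0 < ff j
  z1 : ∀ p, V.valuation (z p) = 1
  m0 : ∀ i j, i ≤ j → m₀ i j = 0
  rel : ∀ i, V.valuation (t i ^ ee i) = V.valuation (algebraMap E F (g i) * mo t (m₀ i))
  min : ∀ (i : Fin q) (k : ℤ) (a : E) (m : Fin q → ℤ), a ≠ 0 →
    (∀ j, i ≤ j → m j = 0) →
    V.valuation (t i ^ k) = V.valuation (algebraMap E F a * mo t m) → (ee i : ℤ) ∣ k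
  bm : ∀ (j : Fin r) (w : Fin (ff j) → F),
    (∀ k, w k ∈ lo V.toSubring (Subring.closure
      (((V.comap (algebraMap E F)).toSubring.map (algebraMap E F) : Set F) ∪
        {z | ∃ l : Fin r, (l : ℕ) < (j : ℕ) ∧ b l = z}))) →
    V.valuation (∑ k, w k * b j ^ (k : ℕ)) < 1 → ∀ k, V.valuation (w k) < 1
  res : ∀ j, ∃ h : Fin (ff j) → MvPolynomial (Fin r) E,
    (∀ l, h l ∈ MvPolynomial.supported E {i | i < j}) ∧
    (∀ l m, algebraMap E F ((h l).coeff m) ∈ V) ∧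
    Rep E V t z (· < 1) (b j ^ ff j + ∑ l, MvPolynomial.aeval b (h l) * b j ^ (l : ℕ))
  tw : ∀ i : Fin q, ∃ p : MvPolynomial (Fin r) E, (∀ m, algebraMap E F (p.coeff m) ∈ V) ∧
    Rep E V t z (· < 1) (t i ^ ee i * (algebraMap E F (g i) * mo t (m₀ i))⁻¹ -
      MvPolynomial.aeval b p)
  zw : ∀ k : P, ∃ p : MvPolynomial (Fin r) E, (∀ m, algebraMap E F (p.coeff m) ∈ V) ∧
    Rep E V t z (· < 1) (z k - MvPolynomial.aeval b p)
  all : ∀ v : F, Rep E V t z (fun _ => True) v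

end defs

/-- From algebraic elements to the data. -/
def S4_key : Prop :=
  ∀ {E F : Type u} [Field E] [Field F] [Algebra E F] (V : ValuationSubring F) (θ : F)
    (ϕ : E[X]) (n : ℕ) (β : Fin n → E[X]), aeval θ ϕ ≠ 0 → KP V θ ϕ β →
    (∀ z : F, ∃ f : E[X], aeval θ f = z) →
    ∀ (N : ℕ) (d : ℕ → E[X]), (∀ k, (d k).degree < ϕ.degree) → d 1 ≠ 0 →
    aeval θ (∑ k ∈ Finset.range (N + 2), d k * ϕ ^ k) = 0 →
    (∀ k, 2 ≤ k → k < N + 2 →
      V.valuation (aeval θ (d k * ϕ ^ k)) < V.valuation (aeval θ (d 1 * ϕ))) →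
    ∃ (q r : ℕ) (P : Type) (_ : Fintype P) (t : Fin q → F) (ee : Fin q → ℕ)
      (g : Fin q → E) (m₀ : Fin q → Fin q → ℤ) (b : Fin r → F)
      (ff : Fin r → ℕ) (z : P → F), KeyF V t ee g m₀ b ff z

end Pool.Agent.H176.DT
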