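import Pool.Agent.H59.L.S8.H176.DT.D7

/-!
# The local rings of algebraic elements are regular, continued
-/

set_option autoImplicit false
set_option linter.unusedVariables false
set_option linter.unusedSectionVars false

universe u

namespace Pool.Agent.H176.DT

open Pool.Agent.W418.LU2 IsLocalRing

section main

variable {E F : Type u} [Field E] [Field F] [Algebra E F] {V : ValuationSubring F} {q r n s : ℕ}
  {t : Fin q → F} {b : Fin r → F} {ff : Fin r → ℕ} {z : Fin n → F}
  {x : Fin s → E} {C : Subring E} {τ : Fin q → F} {Y : Fin s → F}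
  {K : Finset ((Fin s → ℤ) × (Fin q → ℤ))}

open Polynomial in
/-- The regularity of the local rings of key polynomials. -/
theorem reg_F (hadj : S_adj.{u}) (halg : S_alg.{u}) (hmap : S_map.{u}) (hext : S_ext.{u})
    (hcut : S_cut.{u})
    (D : Dt V t (Fin.append b z) x C τ Y K)
    (hreg : RegP (V.comap (algebraMap E F)).toSubring
      (lo (V.comap (algebraMap E F)).toSubring C) x)
    (hxu : ∀ i, (x i)⁻¹ ∉ (V.comap (algebraMap E F)).toSubring)
    (hCE : ∀ a : E, ∃ b ∈ C, b ≠ 0 ∧ a * b ∈ C)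
    (hKx : ∀ i, ((Pi.single i 1 : Fin s → ℤ), (0 : Fin q → ℤ)) ∈ K)
    (hf0 : ∀ j, 0 < ff j)
    (hbm : ∀ (j : Fin r) (w : Fin (ff j) → F),
      (∀ k, w k ∈ lo V.toSubring (Subring.closure
        (((V.comap (algebraMap E F)).toSubring.map (algebraMap E F) : Set F) ∪
          {z | ∃ l : Fin r, (l : ℕ) < (j : ℕ) ∧ b l = z}))) →
      V.valuation (∑ k, w k * b j ^ (k : ℕ)) < 1 → ∀ k, V.valuation (w k) < 1)
    {h : ∀ j, Fin (ff j) → MvPolynomial (Fin r) E}
    (hsupp : ∀ j l, h j l ∈ MvPolynomial.supported E {i | i < j})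
    (hh : ∀ j l m, (h j l).coeff m ∈ lo (V.comap (algebraMap E F)).toSubring C)
    (hb : ∀ j, Lf C (Fin.append b z) τ Y V
      (b j ^ ff j + ∑ l, MvPolynomial.aeval b (h j l) * b j ^ (l : ℕ)))
    {u : Fin q → E} (hu : ∀ i, u i ∈ lo (V.comap (algebraMap E F)).toSubring C)
    {pt : Fin q → MvPolynomial (Fin r) E}
    (hpt : ∀ i m, (pt i).coeff m ∈ lo (V.comap (algebraMap E F)).toSubring C)
    (hτ : ∀ i : Fin q, Lf C (Fin.append b z) τ Y V
      (τ i - algebraMap E F (u i) * MvPolynomial.aeval b (pt i)))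
    {pz : Fin n → MvPolynomial (Fin r) E}
    (hpz : ∀ i m, (pz i).coeff m ∈ lo (V.comap (algebraMap E F)).toSubring C)
    (hz : ∀ i : Fin n, Lf C (Fin.append b z) τ Y V (z i - MvPolynomial.aeval b (pz i)))
    (hfr : ∀ w : F, ∃ a c : MvPolynomial (TT (r + n) q s) E,
      ph (E := E) (yy (Fin.append b z) τ Y) c ≠ 0 ∧
      w * ph (E := E) (yy (Fin.append b z) τ Y) c = ph (E := E) (yy (Fin.append b z) τ Y) a)
    (htr : Algebra.trdeg E F = 0) :
    RegP V.toSubring (lo V.toSubring (Subring.closure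
      ((C.map (algebraMap E F) : Set F) ∪ Set.range (yy (Fin.append b z) τ Y)))) Y := by
  classical
  obtain ⟨e, he0, heb, heτ, hez, hex⟩ := exists_eqsF D (fun i => hreg.mem i) hKx hh hb hu hpt hτ
    hpz hz
  have hSA := RZ_le (E := E) (C := C) (V := V) (b := Fin.append b z) (τ := τ) (Y := Y) D.t1 D.Y1
    D.b1 D.hC
  have hPA : RZ C (yy (Fin.append b z) τ Y) V ≤ AT E (yy (Fin.append b z) τ Y) V := lo_le hSA
  -- the base
  obtain ⟨m, z₁, hz₁⟩ := hext hreg hxu
  have hz' := hmap (emb E (TT (r + n) q s))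
    (fun a => emb_mem (y := yy (Fin.append b z) τ Y) V a) hz₁
  have hzm : ∀ k, z₁ k ∈ lo (V.comap (algebraMap E F)).toSubring C := fun k =>
    hz₁.mem (Sum.inr k)
  have hzP : ∀ k, emb E (TT (r + n) q s) (z₁ k) ∈ RZ C (yy (Fin.append b z) τ Y) V :=
    fun k => emb_mem_lo (hzm k) _
  let Y' : Fin s → RZ C (yy (Fin.append b z) τ Y) V :=
    fun j => ⟨Zc E (Sum.inr (Sum.inr j)), Z_mem _⟩
  let z' : Fin m → RZ C (yy (Fin.append b z) τ Y) V :=
    fun k => ⟨emb E (TT (r + n) q s) (z₁ k), hzP k⟩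
  let J : Ideal (RZ C (yy (Fin.append b z) τ Y) V) :=
    Ideal.span (Set.range (Sum.elim (Sum.elim Y' z') e))
  have hJY : JY C (Fin.append b z) τ Y V ≤ J := by
    unfold JY
    rw [Ideal.span_le]
    rintro _ ⟨j, rfl⟩
    exact Ideal.subset_span ⟨Sum.inl (Sum.inl j), rfl⟩
  have hJe : ∀ θ, InJ J (e θ : FF E (TT (r + n) q s)) := fun θ =>
    ⟨(e θ).2, Ideal.subset_span ⟨Sum.inr θ, rfl⟩⟩
  have hJz : ∀ k, InJ J (emb E (TT (r + n) q s) (z₁ k)) := fun k =>
    ⟨hzP k, Ideal.subset_span ⟨Sum.inl (Sum.inr k), rfl⟩⟩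
  have hJx : ∀ i, InJ J (emb E (TT (r + n) q s) (x i)) := by
    intro i
    have h1 := ((hex i).mono hJY).add (hJe (Sum.inr (Sum.inr (Sum.inr i))))
    rwa [sub_add_cancel] at h1
  have hJG : ∀ j, InJ J (GK (E := E) n q s j (h j)) := by
    intro j
    have h1 := ((heb j).mono hJY).add (hJe (Sum.inl j))
    rwa [sub_add_cancel] at h1
  have hJT : ∀ i, InJ J (Zc E (Sum.inr (Sum.inl i) : TT (r + n) q s) -
        emb E (TT (r + n) q s) (u i) * MvPolynomial.aeval
          (fun i => Zc E (Sum.inl (Fin.castAdd n i) : TT (r + n) q s)) (pt i)) := by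
    intro i
    have h1 := ((heτ i).mono hJY).add (hJe (Sum.inr (Sum.inl i)))
    rwa [sub_add_cancel] at h1
  have hJZ : ∀ i, InJ J (Zc E (Sum.inl (Fin.natAdd r i) : TT (r + n) q s) -
        MvPolynomial.aeval
          (fun i => Zc E (Sum.inl (Fin.castAdd n i) : TT (r + n) q s)) (pz i)) := by
    intro i
    have h1 := ((hez i).mono hJY).add (hJe (Sum.inr (Sum.inr (Sum.inl i))))
    rwa [sub_add_cancel] at h1
  -- linear variables
  have hlin : ∀ (θ : TT (r + n) q s) (v : FF E (TT (r + n) q s)),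
      v ∈ lo (AT E (yy (Fin.append b z) τ Y) V)
        (Subring.closure ((C.map (emb E (TT (r + n) q s)) :
          Set (FF E (TT (r + n) q s))) ∪ Zc E '' {l | ordT (r + n) q s l <
            ordT (r + n) q s θ})) → InJ J (Zc E θ - v) →
      NU (AT E (yy (Fin.append b z) τ Y) V) (Zc E θ - v) →
      ∃ g : (lo (AT E (yy (Fin.append b z) τ Y) V)
        (Subring.closure ((C.map (emb E (TT (r + n) q s)) :
          Set (FF E (TT (r + n) q s))) ∪ Zc E '' {l | ordT (r + n) q s l <
            ordT (r + n) q s θ})))[X], g.Monic ∧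
        NU (AT E (yy (Fin.append b z) τ Y) V) (Polynomial.eval₂ (Subring.subtype _) (Zc E θ) g) ∧
        Polynomial.eval₂ (Subring.subtype _) (Zc E θ) g ∈ {v | InJ J v} ∧
        ∀ h : (lo (AT E (yy (Fin.append b z) τ Y) V)
          (Subring.closure ((C.map (emb E (TT (r + n) q s)) :
            Set (FF E (TT (r + n) q s))) ∪ Zc E '' {l | ordT (r + n) q s l <
              ordT (r + n) q s θ})))[X], h.degree < g.degree →
          NU (AT E (yy (Fin.append b z) τ Y) V)
            (Polynomial.eval₂ (Subring.subtype _) (Zc E θ) h) →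
          ∀ i, NU (AT E (yy (Fin.append b z) τ Y) V)
            (h.coeff i : FF E (TT (r + n) q s)) := by
    intro θ v hv hJ hNU
    obtain ⟨g, hg1, hg2, hg3⟩ := lin_poly (AT E (yy (Fin.append b z) τ Y) V)
      (⟨v, hv⟩ : lo (AT E (yy (Fin.append b z) τ Y) V)
        (Subring.closure ((C.map (emb E (TT (r + n) q s)) :
          Set (FF E (TT (r + n) q s))) ∪ Zc E '' {l | ordT (r + n) q s l <
            ordT (r + n) q s θ}))) (Zc E θ)
    refine ⟨g, hg1, ?_, ?_, hg3⟩
    · rw [hg2]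
      exact hNU
    · rw [hg2]
      exact hJ
  have hJYNU : ∀ v : FF E (TT (r + n) q s), ∀ θ,
      InJ (JY C (Fin.append b z) τ Y V) (v - e θ) → NU (AT E (yy (Fin.append b z) τ Y) V) v := by
    intro v θ hv
    obtain ⟨w, hw, hpw⟩ := hPA hv.mem
    have h1 := D.JY_val hv hpw
    have h2 := hpw.add (he0 θ)
    rw [sub_add_cancel, add_zero] at h2
    exact NU_of_val h2 h1
  -- adjoining the variables
  have hchain := chain hadj halg (yy (Fin.append b z) τ Y) V (yy_mem D.t1 D.Y1 D.b1) C D.hC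
    ((r + n) + (q + s)) (ordT (r + n) q s) {v | InJ J v}
    (Fintype.card (Fin s ⊕ Fin m))
    ⟨Fin s ⊕ Fin m, inferInstance, _, hz', rfl, by
      rintro (i | k)
      · exact hJx i
      · exact hJz k⟩ (by
    rintro (j | i | j)
    · refine Fin.addCases (fun j => ?_) (fun p => ?_) j
      · obtain ⟨g, hg1, hg2, hg3⟩ := exists_polyK D j (hf0 j) (hbm j) (h j) (hsupp j) (hh j)
        refine ⟨g, hg1, ?_, ?_, hg3⟩
        · rw [hg2]
          exact hJYNU _ _ (heb j)
        · rw [hg2]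
          exact hJG j
      · refine hlin _ _ ?_ (hJZ p) (hJYNU _ _ (hez p))
        refine ab_mem (W := Zc E '' {l | ordT (r + n) q s l <
          ordT (r + n) q s (Sum.inl (Fin.natAdd r p))}) Set.univ
          (fun i _ => ⟨Sum.inl (Fin.castAdd n i), ?_, rfl⟩) (pz p) ?_ (hpz p)
        · change ordT (r + n) q s (Sum.inl (Fin.castAdd n i)) <
            ordT (r + n) q s (Sum.inl (Fin.natAdd r p))
          rw [Fin.lt_def, ordT_b, ordT_b, Fin.val_castAdd, Fin.val_natAdd]
          have := i.2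
          omega
        · rw [MvPolynomial.supported_univ]
          trivial
    · refine hlin _ _ ?_ (hJT i) (hJYNU _ _ (heτ i))
      refine Subring.mul_mem _ (emb_mem_lo (hu i) _) ?_
      refine ab_mem (W := Zc E '' {l | ordT (r + n) q s l <
        ordT (r + n) q s (Sum.inr (Sum.inl i))}) Set.univ
        (fun i' _ => ⟨Sum.inl (Fin.castAdd n i'), ?_, rfl⟩) (pt i) ?_ (hpt i)
      · change ordT (r + n) q s (Sum.inl (Fin.castAdd n i')) <
          ordT (r + n) q s (Sum.inr (Sum.inl i))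
        rw [Fin.lt_def, ordT_b, ordT_t, Fin.val_castAdd]
        have := i'.2
        omega
      · rw [MvPolynomial.supported_univ]
        trivial
    · refine hlin _ 0 (Subring.zero_mem _) ?_ ?_
      · rw [sub_zero]
        exact ⟨Z_mem _, Ideal.subset_span ⟨Sum.inl (Sum.inl j), rfl⟩⟩
      · rw [sub_zero]
        exact NU_of_val (Pr_Z (E := E) (yy (Fin.append b z) τ Y) (Sum.inr (Sum.inr j))) (D.Y1 j))
  obtain ⟨ι, _, ζ, hζ, hcard, hζJ⟩ := hchain
  have hPreg : IsRegularLocalRing (RZ C (yy (Fin.append b z) τ Y) V) := hζ.reg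
  -- the ideal
  have hmax : Ideal.span (Set.range (Sum.elim (Sum.elim Y' z') e)) =
      maximalIdeal (RZ C (yy (Fin.append b z) τ Y) V) := by
    apply le_antisymm
    · rw [Ideal.span_le]
      rintro _ ⟨(j | k) | θ, rfl⟩
      · rw [SetLike.mem_coe, hζ.mem_max]
        exact NU_of_val (Pr_Z (E := E) (yy (Fin.append b z) τ Y) (Sum.inr (Sum.inr j))) (D.Y1 j)
      · rw [SetLike.mem_coe, hζ.mem_max]
        refine NU_of_val (Pr_emb (E := E) (yy (Fin.append b z) τ Y) (z₁ k)) ?_
        rw [val_lt_one_iff]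
        refine ⟨lo_le D.hC (hzm k), ?_⟩
        rintro ⟨h1, h2⟩
        refine hz₁.nu (Sum.inr k) ⟨fun h3 => h1 ?_, ?_⟩
        · have h4 : z₁ k = 0 := h3
          rw [h4, map_zero]
        · change algebraMap E F (z₁ k)⁻¹ ∈ V
          rw [map_inv₀]
          exact h2
      · rw [SetLike.mem_coe, hζ.mem_max]
        refine NU_of_val (he0 θ) ?_
        rw [map_zero]
        exact zero_lt_one
    · rw [← hζ.span, Ideal.span_le]
      rintro _ ⟨i, rfl⟩
      exact (hζJ i).2
  have hInd : Ind (Sum.elim (Sum.elim Y' z') e) := by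
    refine ind_of_span hmax ?_
    rw [hζ.dim, hcard]
    simp only [Fintype.card_sum, Fintype.card_fin]
    have h1 : s + m + (r + (q + (n + s))) = s + m + (r + n + (q + s)) := by ring
    rw [h1]
  -- cutting
  have hz0 : ∀ k, algebraMap E F (z₁ k) ≠ 0 := by
    intro k h0
    have h1 := hInd.ne_zero (Sum.inl (Sum.inr k))
    apply h1
    apply Subtype.ext
    change emb E (TT (r + n) q s) (z₁ k) = 0
    rw [(_root_.map_eq_zero _).1 h0, map_zero]
  have h1 := hcut (yy (Fin.append b z) τ Y) V C D.hC hCE (yy_mem D.t1 D.Y1 D.b1)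
    (Sum.elim Y' z') e hInd he0
    (Sum.elim Y fun k => algebraMap E F (z₁ k)) (by
      rintro (j | k)
      · exact Pr_Z (E := E) (yy (Fin.append b z) τ Y) (Sum.inr (Sum.inr j))
      · exact Pr_emb (E := E) (yy (Fin.append b z) τ Y) (z₁ k)) (by
      rintro (j | k)
      · exact D.Y0 j
      · exact hz0 k) hfr (by
      rw [htr]
      simp only [Fintype.card_sum, Fintype.card_fin]
      have h1 : r + (q + (n + s)) = r + n + (q + s) := by ring
      rw [← h1]
      push_cast
      ring)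
  exact RegP_comp h1 (fun j => Sum.inl j) (fun i j h => by
    simpa using h)

end main

end Pool.Agent.H176.DT
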