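import Pool.Agent.H59.L.S8.H176.DT.G2

/-!
# Projective models which are regular at the centre of a valuation
-/

set_option autoImplicit false
set_option linter.unusedVariables false
set_option linter.unusedSectionVars false

universe u

namespace Pool.Agent.H176.DT

open Pool.Agent.W418.LU2 IsLocalRing Polynomial

section model

variable {K : Type u} [Field K] (V : ValuationSubring K) (O : Subring K)

/-- The coordinate ring of a chart. -/
abbrev ch (W : Set K) (w : K) : Subring K :=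
  Subring.closure ((O : Set K) ∪ {z | ∃ v ∈ W, z = v / w})

open Pointwise in
lemma ch_form {W : Set K} {w : K} (hw : w ∈ W) (hw0 : w ≠ 0) {a : K} (ha : a ∈ ch O W w) :
    ∃ d₀ : ℕ, ∀ d, d₀ ≤ d → a * w ^ d ∈ (Submodule.span O W) ^ d := by
  have hwm : w ∈ Submodule.span O W := Submodule.subset_span hw
  have hwd : ∀ d : ℕ, w ^ d ∈ (Submodule.span O W) ^ d := fun d => Submodule.pow_mem_pow _ hwm d
  induction ha using Subring.closure_induction with
  | mem a ha =>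
    rcases ha with ha | ⟨v, hv, rfl⟩
    · exact ⟨0, fun d _ => Submodule.smul_mem _ (⟨a, ha⟩ : O) (hwd d)⟩
    · refine ⟨1, fun d hd => ?_⟩
      obtain ⟨e, rfl⟩ := Nat.exists_eq_add_of_le' hd
      have h1 : v / w * w ^ (e + 1) = w ^ e * v := by
        rw [pow_succ, div_mul_eq_mul_div, mul_comm (w ^ e) w, mul_comm w, ← mul_assoc,
          mul_div_assoc, div_self hw0, mul_one, mul_comm]
      rw [h1, pow_succ]
      exact Submodule.mul_mem_mul (hwd e) (Submodule.subset_span hv)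
  | zero => exact ⟨0, fun d _ => by rw [zero_mul]; exact Submodule.zero_mem _⟩
  | one => exact ⟨0, fun d _ => by rw [one_mul]; exact hwd d⟩
  | add a b _ _ ha hb =>
    obtain ⟨d₁, h₁⟩ := ha
    obtain ⟨d₂, h₂⟩ := hb
    refine ⟨max d₁ d₂, fun d hd => ?_⟩
    rw [add_mul]
    exact Submodule.add_mem _ (h₁ d ((le_max_left _ _).trans hd))
      (h₂ d ((le_max_right _ _).trans hd))
  | neg a _ ha =>
    obtain ⟨d₁, h₁⟩ := ha
    refine ⟨d₁, fun d hd => ?_⟩
    rw [neg_mul]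
    exact Submodule.neg_mem _ (h₁ d hd)
  | mul a b _ _ ha hb =>
    obtain ⟨d₁, h₁⟩ := ha
    obtain ⟨d₂, h₂⟩ := hb
    refine ⟨d₁ + d₂, fun d hd => ?_⟩
    obtain ⟨e, rfl⟩ := Nat.exists_eq_add_of_le hd
    have h3 : a * b * w ^ (d₁ + d₂ + e) = (a * w ^ d₁) * (b * w ^ (d₂ + e)) := by ring
    rw [h3, add_assoc, pow_add]
    exact Submodule.mul_mem_mul (h₁ d₁ le_rfl) (h₂ (d₂ + e) (Nat.le_add_right _ _))

open Pointwise in
lemma set_pow_form {W : Set K} {w : K} (d : ℕ) : ∀ z ∈ W ^ d, z / w ^ d ∈ ch O W w := by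
  induction d with
  | zero =>
    intro z hz
    rw [pow_zero, Set.mem_one] at hz
    rw [hz, pow_zero, div_one]
    exact Subring.one_mem _
  | succ d ih =>
    intro z hz
    rw [pow_succ, Set.mem_mul] at hz
    obtain ⟨a, ha, b, hb, rfl⟩ := hz
    rw [pow_succ, mul_div_mul_comm]
    exact Subring.mul_mem _ (ih a ha) (Subring.subset_closure (Or.inr ⟨b, hb, rfl⟩))

/-- The products of two sets. -/
def bu (W Y : Set K) : Set K := {z | ∃ y ∈ Y, ∃ v ∈ W, z = y * v}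

open Pointwise in
/-- The models. -/
theorem model_stage (hO : ∀ a ∈ O, a ∈ V) {W : Set K} (hWf : W.Finite) {w : K} (hw : w ∈ W)
    (hw0 : w ≠ 0) (hwV : ∀ v ∈ W, v / w ∈ V) {p : K} (hpO : p ∈ O) {T : Set K} {s : ℕ}
    {x : Fin s → K} (hSt : St V (ch O W w) T x) {u : K} {η : Fin s → ℤ}
    (hu1 : u ∈ PP V (ch O W w) T) (hu2 : u⁻¹ ∈ PP V (ch O W w) T) (hu0 : u ≠ 0)
    (hp : p = u * mo x η) (hη : ∀ i, 0 < η i) :
    ∃ (Y : Set K) (d n : ℕ), Y.Finite ∧
      Y ⊆ ((Submodule.span O W) ^ d : Submodule O K) ∧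
      (∀ z ∈ (Submodule.span O W) ^ d, p ^ n * z ∈ Submodule.span O Y) ∧
      ∃ w' ∈ bu W Y, w' ≠ 0 ∧ (∀ v ∈ bu W Y, v / w' ∈ V) ∧
        lo V.toSubring (ch O (bu W Y) w') = PP V (ch O W w) T := by
  classical
  set A := ch O W w with hA
  set P := PP V A T with hP
  obtain ⟨β, hβA, ⟨v, hv0, hv1, hv2, γ, hγ⟩, hTβ, hxβ⟩ := hSt.den
  have hreg : RegP V.toSubring P x := hSt.reg
  have hβ0 : β ≠ 0 := by
    rw [hγ]
    exact mul_ne_zero hv0 (mo_ne_zero hreg.ne γ)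
  have hBP : Subring.closure ((A : Set K) ∪ T) ≤ P := le_lo _ _
  have hPV : P ≤ V.toSubring := hreg.PA
  have hAP : A ≤ P := fun a ha => hBP (Subring.subset_closure (Or.inl ha))
  have hTP : ∀ t ∈ T, t ∈ P := fun t ht => hBP (Subring.subset_closure (Or.inr ht))
  -- the exponent
  obtain ⟨n, hn⟩ : ∃ n : ℕ, p ^ n * β⁻¹ ∈ P := by
    obtain ⟨n, hn⟩ : ∃ n : ℕ, ∀ i, γ i ≤ (n : ℤ) := by
      refine ⟨∑ i, (γ i).toNat, fun i => ?_⟩
      have h1 : (γ i).toNat ≤ ∑ i, (γ i).toNat :=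
        Finset.single_le_sum (f := fun i => (γ i).toNat) (fun _ _ => Nat.zero_le _)
          (Finset.mem_univ i)
      exact (Int.self_le_toNat _).trans (by exact_mod_cast h1)
    refine ⟨n, ?_⟩
    have h1 : p ^ n * β⁻¹ = u ^ n * v⁻¹ * mo x ((n : ℤ) • η - γ) := by
      rw [sub_eq_add_neg, mo_add hreg.ne, mo_neg, Pool.Agent.Y67.DT.mo_zsmul, zpow_natCast, hp,
        hγ, mul_pow, mul_inv]
      ring
    rw [h1]
    refine P.mul_mem (P.mul_mem (P.pow_mem hu1 _) hv2) (mo_mem hreg.mem fun i => ?_)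
    rw [Pi.zero_apply, Pi.sub_apply, Pi.smul_apply, smul_eq_mul]
    have h2 := hn i
    have h3 : (n : ℤ) * 1 ≤ (n : ℤ) * η i :=
      mul_le_mul_of_nonneg_left (hη i) (Int.natCast_nonneg _)
    linarith
  -- the degree
  obtain ⟨d, hdβ, hdT⟩ : ∃ d : ℕ, β * w ^ d ∈ (Submodule.span O W) ^ d ∧
      ∀ t ∈ T, β * t * w ^ d ∈ (Submodule.span O W) ^ d := by
    obtain ⟨d₀, hd₀⟩ := ch_form O hw hw0 hβA
    have h1 : ∀ t, ∃ d₁ : ℕ, t ∈ T → ∀ d, d₁ ≤ d → β * t * w ^ d ∈ (Submodule.span O W) ^ d := by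
      intro t
      by_cases ht : t ∈ T
      · obtain ⟨d₁, hd₁⟩ := ch_form O hw hw0 (hTβ t ht)
        exact ⟨d₁, fun _ => hd₁⟩
      · exact ⟨0, fun h => absurd h ht⟩
    choose e he using h1
    refine ⟨d₀ + ∑ t ∈ hSt.fin.toFinset, e t, hd₀ _ (Nat.le_add_right _ _), fun t ht => ?_⟩
    refine he t ht _ ?_
    have h2 : e t ≤ ∑ t ∈ hSt.fin.toFinset, e t :=
      Finset.single_le_sum (f := e) (fun _ _ => Nat.zero_le _) (hSt.fin.mem_toFinset.2 ht)
    exact h2.trans (Nat.le_add_left _ _)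
  set M := Submodule.span O W with hM
  set b := β * w ^ d with hb
  have hb0 : b ≠ 0 := mul_ne_zero hβ0 (pow_ne_zero _ hw0)
  set Y : Set K := ({b} ∪ (fun t => β * t * w ^ d) '' T) ∪ (fun z => p ^ n * z) '' (W ^ d) with hY
  have hWfin : (W ^ d).Finite := by
    have h1 : ∀ e : ℕ, (W ^ e).Finite := by
      intro e
      induction e with
      | zero => rw [pow_zero]; exact Set.finite_one
      | succ e ih => rw [pow_succ]; exact ih.mul hWf
    exact h1 _
  have hmemP : ∀ v ∈ bu W Y, v / (b * w) ∈ P := by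
    rintro _ ⟨y, ((hy | ⟨t, ht, rfl⟩) | ⟨m, hm, rfl⟩), z, hz, rfl⟩
    · rw [Set.mem_singleton_iff.1 hy, mul_div_mul_left _ _ hb0]
      exact hAP (Subring.subset_closure (Or.inr ⟨z, hz, rfl⟩))
    · have h1 : β * t * w ^ d * z / (b * w) = t * (z / w) := by
        rw [hb]
        have hwd := pow_ne_zero d hw0
        field_simp
      change β * t * w ^ d * z / (b * w) ∈ P
      rw [h1]
      exact P.mul_mem (hTP t ht) (hAP (Subring.subset_closure (Or.inr ⟨z, hz, rfl⟩)))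
    · have h1 : p ^ n * m * z / (b * w) = p ^ n * β⁻¹ * (m / w ^ d) * (z / w) := by
        rw [hb]
        have hwd := pow_ne_zero d hw0
        field_simp
      change p ^ n * m * z / (b * w) ∈ P
      rw [h1]
      exact P.mul_mem (P.mul_mem hn (hAP (set_pow_form O d m hm)))
        (hAP (Subring.subset_closure (Or.inr ⟨z, hz, rfl⟩)))
  have hbw : b * w ∈ bu W Y := ⟨b, Or.inl (Or.inl rfl), w, hw, rfl⟩
  refine ⟨Y, d, n, ?_, ?_, ?_, b * w, hbw, mul_ne_zero hb0 hw0, fun v hv => hPV (hmemP v hv), ?_⟩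
  · exact ((Set.finite_singleton _).union (hSt.fin.image _)).union (hWfin.image _)
  · rintro z ((hz | ⟨t, ht, rfl⟩) | ⟨v, hv, rfl⟩)
    · rw [Set.mem_singleton_iff.1 hz]
      exact hdβ
    · exact hdT t ht
    · rw [hM, Submodule.span_pow]
      exact Submodule.smul_mem _ (⟨p ^ n, O.pow_mem hpO n⟩ : O) (Submodule.subset_span hv)
  · intro z hz
    rw [hM, Submodule.span_pow] at hz
    induction hz using Submodule.span_induction with
    | mem z hz => exact Submodule.subset_span (Or.inr ⟨z, hz, rfl⟩)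
    | zero => rw [mul_zero]; exact Submodule.zero_mem _
    | add a c _ _ ha hc => rw [mul_add]; exact Submodule.add_mem _ ha hc
    | smul c a _ ha =>
      rw [mul_smul_comm]
      exact Submodule.smul_mem _ _ ha
  · refine lo_eq (hBP.trans hPV) ?_ ?_
    · rw [Subring.closure_le]
      have h1 : A ≤ ch O (bu W Y) (b * w) := by
        rw [hA, Subring.closure_le]
        rintro z (hz | ⟨v, hv, rfl⟩)
        · exact Subring.subset_closure (Or.inl hz)
        · refine Subring.subset_closure (Or.inr ⟨b * v, ⟨b, Or.inl (Or.inl rfl), v, hv, rfl⟩, ?_⟩)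
          rw [mul_div_mul_left _ _ hb0]
      rintro z (hz | hz)
      · exact h1 hz
      · refine Subring.subset_closure (Or.inr ⟨β * z * w ^ d * w, ⟨β * z * w ^ d,
          Or.inl (Or.inr ⟨z, hz, rfl⟩), w, hw, rfl⟩, ?_⟩)
        rw [hb]
        have hwd := pow_ne_zero d hw0
        field_simp
    · rw [Subring.closure_le]
      rintro z (hz | ⟨v, hv, rfl⟩)
      · exact hAP (Subring.subset_closure (Or.inl hz))
      · exact hmemP v hv

/-- Regular systems of parameters of stages. -/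
theorem adapted_of_stage {A : Subring K} {T : Set K} {s : ℕ} {x : Fin s → K} (hSt : St V A T x)
    (hxV : ∀ i, (x i)⁻¹ ∉ V) {Z : Set K}
    (hmon : ∀ z ∈ Z, PMon (PP V A T) x z ∧ (z ∈ V → z ∈ PP V A T)) :
    ∃ (_ : IsRegularLocalRing (PP V A T)) (n : ℕ) (x : Fin n → PP V A T),
        Ideal.span (Set.range x) = maximalIdeal (PP V A T) ∧ ringKrullDim (PP V A T) = n ∧
        ∀ z ∈ Z, ∃ (u : (PP V A T)ˣ) (γ : Fin n → ℤ),
          z = ((u : PP V A T) : K) * ∏ i, (x i : K) ^ γ i ∧ (z ∈ V → ∀ i, 0 ≤ γ i) := by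
  obtain ⟨m, z, hF⟩ := p_ext hSt.reg hxV
  have hreg := hSt.reg
  obtain ⟨hPA, hmem, hR, hinv, hspan, hdim⟩ := hF
  refine ⟨hR, Fintype.card (Fin s ⊕ Fin m),
    fun i => ⟨_, hmem ((Fintype.equivFin (Fin s ⊕ Fin m)).symm i)⟩, ?_, hdim, ?_⟩
  · rw [← hspan]
    congr 1
    ext w
    constructor
    · rintro ⟨i, rfl⟩
      exact ⟨_, rfl⟩
    · rintro ⟨i, rfl⟩
      exact ⟨Fintype.equivFin _ i, by simp⟩
  · intro w hw
    obtain ⟨⟨u, hu0, hu1, hu2, δ, hδ⟩, hwV⟩ := hmon w hw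
    refine ⟨⟨⟨u, hu1⟩, ⟨u⁻¹, hu2⟩, Subtype.ext (mul_inv_cancel₀ hu0),
      Subtype.ext (inv_mul_cancel₀ hu0)⟩,
      fun i => Sum.elim δ (fun _ => 0) ((Fintype.equivFin (Fin s ⊕ Fin m)).symm i), ?_, ?_⟩
    · have h1 : ∏ i, (Sum.elim x z ((Fintype.equivFin (Fin s ⊕ Fin m)).symm i)) ^
          (Sum.elim δ (fun _ => 0) ((Fintype.equivFin (Fin s ⊕ Fin m)).symm i) : ℤ) = mo x δ := by
        rw [(Fintype.equivFin (Fin s ⊕ Fin m)).symm.prod_comp
          (fun j => (Sum.elim x z j) ^ (Sum.elim δ (fun _ => 0) j : ℤ)), Fintype.prod_sum_type]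
        simp only [Sum.elim_inl, Sum.elim_inr, zpow_zero, Finset.prod_const_one, mul_one]
        rfl
      rw [hδ]
      change u * mo x δ = u * ∏ i, (Sum.elim x z ((Fintype.equivFin (Fin s ⊕ Fin m)).symm i)) ^
          (Sum.elim δ (fun _ => 0) ((Fintype.equivFin (Fin s ⊕ Fin m)).symm i) : ℤ)
      rw [h1]
    · intro hwv i
      have h1 : mo x δ ∈ PP V A T := by
        have h2 : mo x δ = u⁻¹ * w := by
          rw [hδ, ← mul_assoc, inv_mul_cancel₀ hu0, one_mul]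
        rw [h2]
        exact (PP V A T).mul_mem hu2 (hwV hwv)
      change 0 ≤ Sum.elim δ (fun _ => 0) ((Fintype.equivFin (Fin s ⊕ Fin m)).symm i)
      rcases h3 : (Fintype.equivFin (Fin s ⊕ Fin m)).symm i with j | j
      · exact p_expo hreg δ h1 j (hxV j)
      · exact le_rfl

/-- Projective models. -/
theorem vert_model (hO : ∀ a ∈ O, a ∈ V) {W : Set K} (hWf : W.Finite) {w : K} (hw : w ∈ W)
    (hw0 : w ≠ 0) (hwV : ∀ v ∈ W, v / w ∈ V) {p : K} (hpO : p ∈ O) (hp0 : p ≠ 0)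
    (hpV : ∀ z : K, ∃ n : ℕ, p ^ n * z ∈ V) (h : SU V (ch O W w)) (Z : Set K) (hZ : Z.Finite)
    (hZ0 : ∀ z ∈ Z, z ≠ 0) :
    ∃ (Y : Set K) (d n : ℕ), Y.Finite ∧
      Y ⊆ ((Submodule.span O W) ^ d : Submodule O K) ∧
      (∀ z ∈ (Submodule.span O W) ^ d, p ^ n * z ∈ Submodule.span O Y) ∧
      ∃ w' ∈ bu W Y, w' ≠ 0 ∧ (∀ v ∈ bu W Y, v / w' ∈ V) ∧
        ∃ P : Subring K, lo V.toSubring (ch O (bu W Y) w') = P ∧
        ∃ (_ : IsRegularLocalRing P) (n : ℕ) (x : Fin n → P),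
        Ideal.span (Set.range x) = maximalIdeal P ∧ ringKrullDim P = n ∧
        ∀ z ∈ Z, ∃ (u : Pˣ) (γ : Fin n → ℤ),
          z = ((u : P) : K) * ∏ i, (x i : K) ^ γ i ∧ (z ∈ V → ∀ i, 0 ≤ γ i) := by
  obtain ⟨T, s, x, hSt, hxV, hmon, u, η, hu1, hu2, hu0, hp, hη⟩ :=
    vert_stage V (ch O W w) h p hp0 (hO p hpO) hpV Z hZ hZ0
  obtain ⟨Y, d, n, h1, h2, h3, w', h4, h5, h6, h7⟩ :=
    model_stage V O hO hWf hw hw0 hwV hpO hSt hu1 hu2 hu0 hp hη
  exact ⟨Y, d, n, h1, h2, h3, w', h4, h5, h6, _, h7, adapted_of_stage V hSt hxV hmon⟩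

end model

end Pool.Agent.H176.DT
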