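import Pool.Agent.H59.L.S8.H176.DT.H9

/-!
# Semistable models, continued
-/

set_option autoImplicit false
set_option linter.unusedVariables false
set_option linter.unusedSectionVars false

universe u

namespace Pool.Agent.H176.DT

open Pool.Agent.W418.LU2 IsLocalRing Polynomial

section lemmas

variable {F : Type u} [Field F] {P : Subring F} {ι κ : Type} [Fintype ι] [Fintype κ]
  {x : ι → F}

lemma pmon_zpow (hx : ∀ i, x i ≠ 0) {z : F} (hz : PMon P x z) (n : ℤ) : PMon P x (z ^ n) := by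
  have h1 : ∀ k : ℕ, PMon P x (z ^ k) := by
    intro k
    induction k with
    | zero => rw [pow_zero]; exact PMon.one
    | succ k ih => rw [pow_succ]; exact ih.mul hx hz
  rcases Int.eq_nat_or_neg n with ⟨k, h | h⟩
  · rw [h, zpow_natCast]
    exact h1 k
  · rw [h, zpow_neg, zpow_natCast]
    exact (h1 k).inv

lemma pmon_mo (hx : ∀ i, x i ≠ 0) {y : κ → F} (hy : ∀ k, PMon P x (y k)) (δ : κ → ℤ) :
    PMon P x (mo y δ) := by
  classical
  have h1 : ∀ S : Finset κ, PMon P x (∏ k ∈ S, y k ^ δ k) := by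
    intro S
    induction S using Finset.induction_on with
    | empty => rw [Finset.prod_empty]; exact PMon.one
    | insert a S ha ih => rw [Finset.prod_insert ha]; exact (pmon_zpow hx (hy a) _).mul hx ih
  exact h1 _

lemma mo_mul_fun (a b : ι → F) (δ : ι → ℤ) : mo (fun i => a i * b i) δ = mo a δ * mo b δ := by
  unfold mo
  rw [← Finset.prod_mul_distrib]
  exact Finset.prod_congr rfl fun i _ => mul_zpow _ _ _

lemma mo_zpow_const {w : F} (hw : w ≠ 0) (c δ : ι → ℤ) :
    mo (fun i => w ^ c i) δ = w ^ ∑ i, c i * δ i := by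
  unfold mo
  have h1 : ∀ S : Finset ι, ∏ i ∈ S, (w ^ c i) ^ δ i = w ^ ∑ i ∈ S, c i * δ i := by
    classical
    intro S
    induction S using Finset.induction_on with
    | empty => rw [Finset.prod_empty, Finset.sum_empty, zpow_zero]
    | insert a S ha ih =>
      rw [Finset.prod_insert ha, Finset.sum_insert ha, ih, zpow_add₀ hw, zpow_mul]
  exact h1 _

variable {K : Type u} [Field K]

lemma vs_mem (v : Valuation K NNReal) (z : K) : z ∈ v.valuationSubring ↔ v z ≤ 1 := Iff.rfl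

lemma vs_one (v : Valuation K NNReal) (z : K) :
    v.valuationSubring.valuation z = 1 ↔ v z = 1 := by
  rw [val_one_iff, vs_mem, vs_mem, map_inv₀]
  constructor
  · rintro ⟨h0, h1, h2⟩
    have h3 : 0 < v z := zero_lt_iff.2 ((_root_.map_ne_zero _).2 h0)
    exact le_antisymm h1 ((inv_le_one₀ h3).1 h2)
  · intro h
    refine ⟨?_, h.le, by rw [h, inv_one]⟩
    rintro rfl
    rw [map_zero] at h
    exact zero_ne_one h

lemma vs_lt (v : Valuation K NNReal) {z : K} (h : z ∈ v.valuationSubring)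
    (h' : z⁻¹ ∉ v.valuationSubring) : v z < 1 := by
  refine lt_of_le_of_ne h fun h1 => h' ?_
  rw [vs_mem, map_inv₀, h1, inv_one]

end lemmas

section gcd

/-- The content of an integer vector. -/
lemma exists_content {s : ℕ} (γ : Fin s → ℤ) (h : γ ≠ 0) : ∃ (d : ℕ) (γ0 c : Fin s → ℤ), 0 < d ∧
    (∀ i, γ i = d * γ0 i) ∧ ∑ i, c i * γ0 i = 1 := by
  classical
  obtain ⟨D, hD⟩ : ∃ D : ℤ, Ideal.span (Set.range γ) = Ideal.span {D} :=
    (IsPrincipalIdealRing.principal (Ideal.span (Set.range γ))).principal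
  rw [← Int.span_natAbs] at hD
  have h1 : ∀ i, ((D.natAbs : ℕ) : ℤ) ∣ γ i := fun i => by
    rw [← Ideal.mem_span_singleton, ← hD]
    exact Ideal.subset_span ⟨i, rfl⟩
  choose γ0 hγ0 using h1
  have h2 : ((D.natAbs : ℕ) : ℤ) ∈ Ideal.span (Set.range γ) := by
    rw [hD]
    exact Ideal.mem_span_singleton_self _
  obtain ⟨c, hc⟩ := (Ideal.mem_span_range_iff_exists_fun (R := ℤ)).1 h2
  have hd : 0 < D.natAbs := by
    rw [Nat.pos_iff_ne_zero]
    intro h3
    apply h
    funext i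
    rw [hγ0 i, h3]
    simp
  refine ⟨D.natAbs, γ0, c, hd, hγ0, ?_⟩
  have h3 : ((D.natAbs : ℕ) : ℤ) * (∑ i, c i * γ0 i) = ((D.natAbs : ℕ) : ℤ) * 1 := by
    rw [mul_one]
    nth_rewrite 2 [← hc]
    rw [Finset.mul_sum]
    refine Finset.sum_congr rfl fun i _ => ?_
    rw [hγ0 i]
    ring
  exact mul_left_cancel₀ (by exact_mod_cast hd.ne') h3

end gcd

section main

variable {K : Type u} [Field K]

/-- The ring of integers of the ramified extension. -/
abbrev Orm (O : Subring K) {K' : Type u} [Field K'] [Algebra K K'] (ϖ : K') : Subring K' :=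
  Subring.closure ((O.map (algebraMap K K') : Set K') ∪ {ϖ})

/-- The stage over the ramified extension. -/
theorem ss_stage (het : S6_et.{u}) (htor : S6_tor.{u}) (hcomb : S6_comb.{u})
    (v : Valuation K NNReal) (O : Subring K) (hO : ∀ a ∈ O, v a ≤ 1) {W : Set K}
    (hWf : W.Finite) {w : K} (hw : w ∈ W) (hw0 : w ≠ 0) (hwV : ∀ z ∈ W, v (z / w) ≤ 1)
    (hM : Mod v.valuationSubring (ch O W w)) (hSU : SU v.valuationSubring (ch O W w)) (π : K)
    (hπ0 : π ≠ 0) (hπ1 : v π < 1)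
    (hdiv : ∀ q : ℕ, q.Prime → v (q : K) < 1 → ∀ z : K, v z ^ q ≠ v π) :
    ∃ d N₀ : ℕ, 0 < d ∧ v (d : K) = 1 ∧ ∀ N : ℕ, N₀ ≤ N → d ∣ N →
      ∀ {K' : Type u} [Field K'] [Algebra K K'] (V' : ValuationSubring K') (ϖ : K'),
      V'.comap (algebraMap K K') = v.valuationSubring → ϖ ^ N = algebraMap K K' π →
      (∀ z : K', z ∈ Subfield.closure (Set.range (algebraMap K K') ∪ {ϖ})) →
      ∃ (T' : Set K') (s : ℕ) (m : Fin s → K'), 0 < s ∧
        St V' (ch (Orm O ϖ) (algebraMap K K' '' W) (algebraMap K K' w)) T' m ∧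
        (∀ j, (m j)⁻¹ ∉ V') ∧ ∏ j, m j = ϖ := by
  classical
  obtain ⟨T, s, x, hSt, hxV, hind, hmon⟩ := p_ind v.valuationSubring (ch O W w) hSU {π}
    (Set.finite_singleton π) (by rintro g rfl; exact hπ0)
  obtain ⟨⟨u, hu0, hu1, hu2, γ, hγ⟩, -⟩ := hmon π rfl
  have hx0 := hSt.reg.ne
  have hPV : PP v.valuationSubring (ch O W w) T ≤ v.valuationSubring.toSubring := hSt.reg.PA
  have hvu : v u = 1 := (vs_one v u).1 ((val_one_iff _ u).2 ⟨hu0, hPV hu1, hPV hu2⟩)
  have hvx : ∀ i, v (x i) < 1 := fun i => vs_lt v (hPV (hSt.reg.mem i)) (hxV i)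
  have hvind : ∀ δ : Fin s → ℤ, v (mo x δ) = 1 → δ = 0 := fun δ h => hind δ ((vs_one v _).2 h)
  have hvγ : v (mo x γ) = v π := by rw [hγ, map_mul, hvu, one_mul]
  have hγ0' : γ ≠ 0 := by
    rintro rfl
    rw [mo_zero, map_one] at hvγ
    rw [← hvγ] at hπ1
    exact lt_irrefl _ hπ1
  obtain ⟨d, γ0, c, hd, hγd, hc⟩ := exists_content γ hγ0'
  have hmoγ : mo x γ = mo x γ0 ^ d := by
    have h1 : γ = (d : ℤ) • γ0 := funext fun i => hγd i
    rw [h1, Pool.Agent.Y67.DT.mo_zsmul, zpow_natCast]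
  have hvnat : ∀ n : ℕ, v (n : K) ≤ 1 := fun n => natCast_mem v.valuationSubring n
  have hvd : ∀ n : ℕ, n ∣ d → n ≠ 0 → v (n : K) = 1 := by
    intro n
    induction n using induction_on_primes with
    | zero => exact fun _ h => absurd rfl h
    | one => intro _ _; rw [Nat.cast_one, map_one]
    | prime_mul q a hq ih =>
      intro hdvd hne
      rw [Nat.cast_mul, map_mul, ih (dvd_of_mul_left_dvd hdvd) (right_ne_zero_of_mul hne), mul_one]
      by_contra hcon
      have h1 : v (q : K) < 1 := lt_of_le_of_ne (hvnat q) hcon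
      obtain ⟨e, he⟩ := dvd_of_mul_right_dvd hdvd
      refine hdiv q hq h1 (mo x γ0 ^ e) ?_
      rw [← map_pow, ← pow_mul, mul_comm e q, ← he, ← hmoγ, hvγ]
  have hlt : v (mo x γ0) < 1 := by
    by_contra hcon
    push Not at hcon
    have h1 : 1 ≤ v (mo x γ0) ^ d := one_le_pow₀ hcon
    rw [← map_pow, ← hmoγ, hvγ] at h1
    exact absurd hπ1 (not_lt.2 h1)
  obtain ⟨N1, hN1⟩ := hcomb v x hx0 hvx hvind γ0 ⟨c, hc⟩ hlt
  refine ⟨d, d * (N1 + 1), hd, hvd d dvd_rfl hd.ne', ?_⟩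
  rintro N hN ⟨M, rfl⟩ K' _ _ V' ϖ hV' hϖ hgen
  have hM1 : N1 + 1 ≤ M := Nat.le_of_mul_le_mul_left hN hd
  have hM0 : 0 < M := by omega
  have hN0 : 0 < d * M := Nat.mul_pos hd hM0
  set φ := algebraMap K K' with hφ
  have hφ0 : ∀ {z : K}, z ≠ 0 → φ z ≠ 0 := fun h => (_root_.map_ne_zero φ).2 h
  have hϖ0 : ϖ ≠ 0 := by
    rintro rfl
    rw [zero_pow hN0.ne'] at hϖ
    exact hφ0 hπ0 hϖ.symm
  have hxγ0 : mo x γ0 ≠ 0 := mo_ne_zero hx0 _
  set ω : K' := ϖ ^ M * (φ (mo x γ0))⁻¹ with hω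
  have hωd : ω ^ d = φ u := by
    rw [hω, mul_pow, ← pow_mul, mul_comm M d, hϖ, hγ, inv_pow, ← map_pow, ← hmoγ, map_mul,
      mul_assoc, mul_inv_cancel₀ (hφ0 (mo_ne_zero hx0 _)), mul_one]
  have hω0 : ω ≠ 0 := mul_ne_zero (pow_ne_zero _ hϖ0) (inv_ne_zero (hφ0 hxγ0))
  have hωV : V'.valuation ω = 1 := by
    have h1 : V'.valuation ω ^ d = 1 := by
      rw [← map_pow, hωd, hφ, ← comap_one, hV', vs_one]
      exact hvu
    exact (pow_eq_one_iff.1 h1).resolve_right hd.ne'
  have hωu : ∀ n : ℤ, V'.valuation (ω ^ n) = 1 := fun n => by rw [map_zpow₀, hωV, one_zpow]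
  set x' : Fin s → K' := fun i => ω ^ c i * φ (x i) with hx'
  have hϖM : ϖ ^ M = mo x' γ0 := by
    rw [hx', mo_mul_fun, mo_zpow_const hω0, hc, zpow_one, ← map_mo, hω, mul_assoc,
      inv_mul_cancel₀ (hφ0 hxγ0), mul_one]
  obtain ⟨m, A, hm0, hmV, hmV', hxm, hA, hprod, hmm⟩ := hN1 M (by omega) hM0 V' hV' x'
    (fun i => ⟨ω ^ c i, zpow_ne_zero _ hω0, ((val_one_iff _ _).1 (hωu _)).2.1,
      ((val_one_iff _ _).1 (hωu _)).2.2, rfl⟩) ϖ hϖM
  have hs : 0 < s := by
    rw [Nat.pos_iff_ne_zero]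
    rintro rfl
    rw [Finset.univ_eq_empty, Finset.sum_empty] at hc
    exact zero_ne_one hc
  -- the local ring
  set C : Subring K := Subring.closure ((ch O W w : Set K) ∪ T) with hC
  have hregC : RegP (V'.comap (algebraMap K K')).toSubring
      (lo (V'.comap (algebraMap K K')).toSubring C) x := by
    rw [hV']
    exact hSt.reg
  have hCV : C ≤ (V'.comap (algebraMap K K')).toSubring := (le_lo _ _).trans hregC.PA
  have hCK : ∀ a : K, ∃ b ∈ C, b ≠ 0 ∧ a * b ∈ C := by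
    intro a
    obtain ⟨a, ha, b, hb, hb0, rfl⟩ := hM.2 a
    refine ⟨b, Subring.subset_closure (Or.inl hb), hb0, ?_⟩
    rw [mul_assoc, inv_mul_cancel₀ hb0, mul_one]
    exact Subring.subset_closure (Or.inl ha)
  have hϖm : ϖ ∈ Subfield.closure (Set.range (algebraMap K K') ∪ Set.range m) := by
    rw [← hprod]
    exact prod_mem fun j _ => Subfield.subset_closure (Or.inr ⟨j, rfl⟩)
  have halg : Algebra.IsAlgebraic K K' := by
    have hint : IsIntegral K ϖ := by
      refine ⟨X ^ (d * M) - Polynomial.C π, monic_X_pow_sub_C _ hN0.ne', ?_⟩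
      rw [eval₂_sub, eval₂_X_pow, eval₂_C, hϖ, sub_self]
    refine ⟨fun z => ?_⟩
    obtain ⟨f, rfl⟩ := gen_alg hint (hgen z)
    exact (adjoin_le_integralClosure hint (aeval_mem_adjoin_singleton K ϖ)).isAlgebraic
  have hP := ss_reg het htor V' C hCV hCK x hregC (fun i h => hxV i (by rw [← hV']; exact h)) ω d
    hd u hu0 (by rw [hV']; exact hu1) (by rw [hV']; exact hu2) hωd (by
      rw [← map_natCast (algebraMap K K'), ← comap_one, hV', vs_one]
      exact hvd d dvd_rfl hd.ne') c m A hm0 hmV hmV'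
    (fun i => by rw [← hxm i, hx']; exact mul_comm _ _) hA (fun z => by
      have h1 : Subfield.closure (Set.range (algebraMap K K') ∪ {ϖ}) ≤
          Subfield.closure (Set.range (algebraMap K K') ∪ Set.range m) := by
        rw [Subfield.closure_le]
        rintro z (hz | hz)
        · exact Subfield.subset_closure (Or.inl hz)
        · rw [Set.mem_singleton_iff.1 hz]
          exact hϖm
      exact h1 (hgen z)) halg
  -- the model
  set O' : Subring K' := Orm O ϖ with hO'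
  set A' : Subring K' := ch O' (φ '' W) (φ w) with hA'
  set T' : Set K' := φ '' T ∪ ({ω} ∪ Set.range m) with hT'
  have hϖO : ϖ ∈ O' := Subring.subset_closure (Or.inr rfl)
  have hOA : ∀ z ∈ O', z ∈ A' := fun z hz => Subring.subset_closure (Or.inl hz)
  have hAA : ∀ a ∈ ch O W w, φ a ∈ A' := by
    have h1 : ch O W w ≤ A'.comap φ := by
      rw [Subring.closure_le]
      rintro z (hz | ⟨v, hv, rfl⟩)
      · exact hOA _ (Subring.subset_closure (Or.inl ⟨z, hz, rfl⟩))
      · refine Subring.subset_closure (Or.inr ⟨φ v, ⟨v, hv, rfl⟩, ?_⟩)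
        rw [map_div₀]
    exact fun a ha => h1 ha
  have hcl : Subring.closure ((A' : Set K') ∪ T') =
      Subring.closure ((C.map (algebraMap K K') : Set K') ∪ ({ω} ∪ Set.range m)) := by
    have h1 : ∀ a ∈ C, φ a ∈ Subring.closure ((A' : Set K') ∪ T') := by
      have h2 : C ≤ (Subring.closure ((A' : Set K') ∪ T')).comap φ := by
        rw [hC, Subring.closure_le]
        rintro z (hz | hz)
        · exact Subring.subset_closure (Or.inl (hAA z hz))
        · exact Subring.subset_closure (Or.inr (Or.inl ⟨z, hz, rfl⟩))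
      exact fun a ha => h2 ha
    have h3 : ∀ a ∈ C, φ a ∈ Subring.closure ((C.map (algebraMap K K') : Set K') ∪
        ({ω} ∪ Set.range m)) := fun a ha => Subring.subset_closure (Or.inl ⟨a, ha, rfl⟩)
    have h4 : ϖ ∈ Subring.closure ((C.map (algebraMap K K') : Set K') ∪
        ({ω} ∪ Set.range m)) := by
      rw [← hprod]
      exact Subring.prod_mem _ fun j _ => Subring.subset_closure (Or.inr (Or.inr ⟨j, rfl⟩))
    apply le_antisymm
    · rw [Subring.closure_le]
      rintro z (hz | ⟨a, ha, rfl⟩ | hz)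
      · refine (?_ : A' ≤ _) hz
        rw [hA', Subring.closure_le]
        rintro z (hz | ⟨_, ⟨v, hv, rfl⟩, rfl⟩)
        · refine (?_ : O' ≤ _) hz
          rw [hO', Subring.closure_le]
          rintro z (⟨a, ha, rfl⟩ | hz)
          · exact h3 a (Subring.subset_closure (Or.inl (Subring.subset_closure (Or.inl ha))))
          · rw [Set.mem_singleton_iff.1 hz]
            exact h4
        · rw [← map_div₀]
          exact h3 _ (Subring.subset_closure (Or.inl (Subring.subset_closure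
            (Or.inr ⟨v, hv, rfl⟩))))
      · exact h3 a (Subring.subset_closure (Or.inr ha))
      · exact Subring.subset_closure (Or.inr hz)
    · rw [Subring.closure_le]
      rintro z (⟨a, ha, rfl⟩ | hz)
      · exact h1 a ha
      · exact Subring.subset_closure (Or.inr (Or.inr hz))
  have hP' : RegP V'.toSubring (PP V' A' T') m := by
    unfold PP
    rw [hcl]
    exact hP
  have hclV : Subring.closure ((A' : Set K') ∪ T') ≤ V'.toSubring := (le_lo _ _).trans hP'.PA
  have hωP : ω ∈ PP V' A' T' :=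
    le_lo _ _ (Subring.subset_closure (Or.inr (Or.inr (Or.inl rfl))))
  have hωP' : ω⁻¹ ∈ PP V' A' T' :=
    inv_mem_lo hclV hωP hω0 ((val_one_iff _ _).1 hωV).2.2
  have hCP : ∀ a ∈ PP v.valuationSubring (ch O W w) T, φ a ∈ PP V' A' T' := by
    intro a ha
    have h1 : φ a ∈ lo V'.toSubring (C.map (algebraMap K K')) := by
      rw [lo_map (algebraMap K K') (A' := (V'.comap (algebraMap K K')).toSubring)
        (fun e => Iff.rfl)]
      rw [hV']
      exact ⟨a, ha, rfl⟩
    have h2 : lo V'.toSubring (C.map (algebraMap K K')) ≤ PP V' A' T' := by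
      unfold PP
      rw [hcl]
      exact lo_mono fun z hz => Subring.subset_closure (Or.inl hz)
    exact h2 h1
  -- monomials
  have hpω : PMon (PP V' A' T') m ω := ⟨ω, hω0, hωP, hωP', 0, by rw [mo_zero, mul_one]⟩
  have hpx : ∀ i, PMon (PP V' A' T') m (φ (x i)) := by
    intro i
    have h1 : φ (x i) = (ω ^ c i)⁻¹ * mo m (fun j => (A i j : ℤ)) := by
      have h2 := hxm i
      have h3 : mo m (fun j => (A i j : ℤ)) = ∏ j, m j ^ A i j := by
        unfold mo
        exact Finset.prod_congr rfl fun j _ => zpow_natCast _ _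
      rw [h3, ← h2, hx']
      simp only
      rw [← mul_assoc, inv_mul_cancel₀ (zpow_ne_zero _ hω0), one_mul]
    rw [h1]
    exact (pmon_zpow hm0 hpω _).inv.mul hm0 ⟨1, one_ne_zero, Subring.one_mem _, by
      rw [inv_one]; exact Subring.one_mem _, _, (one_mul _).symm⟩
  have hmo1 : mo m (fun _ => 1) = ϖ := by
    rw [← hprod]
    unfold mo
    exact Finset.prod_congr rfl fun j _ => zpow_one _
  have hpϖ : PMon (PP V' A' T') m ϖ := ⟨1, one_ne_zero, Subring.one_mem _, by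
    rw [inv_one]; exact Subring.one_mem _, fun _ => 1, by rw [one_mul, hmo1]⟩
  obtain ⟨β, hβ, hβm, hβT, hβx⟩ := hSt.den
  have hpβ : PMon (PP V' A' T') m (φ β) := by
    obtain ⟨u1, a0, a1, a2, δ, ha⟩ := hβm
    rw [ha, map_mul, map_mo]
    refine PMon.mul hm0 ⟨φ u1, hφ0 a0, hCP _ a1, ?_, 0, by rw [mo_zero, mul_one]⟩
      (pmon_mo hm0 hpx δ)
    rw [← map_inv₀]
    exact hCP _ a2
  have hfx : ∀ i, Fra A' (PP V' A' T') m (φ (x i)) := fun i =>
    ⟨hpx i, φ β, hAA _ hβ, hpβ, by rw [← map_mul]; exact hAA _ (hβx i)⟩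
  have hfϖ : Fra A' (PP V' A' T') m ϖ := ⟨hpϖ, 1, A'.one_mem, PMon.one, by
    rw [one_mul]; exact hOA _ hϖO⟩
  have hfω : Fra A' (PP V' A' T') m ω := by
    rw [hω, map_mo]
    exact (hfϖ.pow hm0 M).mul hm0 ((Fra.mo hm0 (fun i => hφ0 (hx0 i)) hfx γ0).inv hm0
      (mo_ne_zero (fun i => hφ0 (hx0 i)) _))
  have hx'0 : ∀ i, x' i ≠ 0 := fun i => mul_ne_zero (zpow_ne_zero _ hω0) (hφ0 (hx0 i))
  have hfx' : ∀ i, Fra A' (PP V' A' T') m (x' i) := fun i =>
    (hfω.zpow hm0 hω0 (c i)).mul hm0 (hfx i)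
  have hfm : ∀ j, Fra A' (PP V' A' T') m (m j) := by
    intro j
    obtain ⟨n, g, h⟩ := hmm j
    rw [h]
    exact (hfϖ.zpow hm0 hϖ0 n).mul hm0 (Fra.mo hm0 hx'0 hfx' g)
  have hT'f : T'.Finite := (hSt.fin.image _).union
    ((Set.finite_singleton _).union (Set.finite_range _))
  obtain ⟨δ, hδ, hδm, hδT⟩ := exists_den (A := A') (P := PP V' A' T') hm0 hT'f (by
    rintro z (⟨a, ha, rfl⟩ | hz | ⟨j, rfl⟩)
    · exact ⟨φ β, hAA _ hβ, hpβ, by rw [← map_mul]; exact hAA _ (hβT a ha)⟩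
    · rw [Set.mem_singleton_iff.1 hz]
      exact hfω.2
    · exact (hfm j).2)
  exact ⟨T', s, m, hs, ⟨hT'f, hP', δ, hδ, hδm, hδT, fun j => hδT _ (Or.inr (Or.inr ⟨j, rfl⟩))⟩,
    hmV', hprod⟩

end main

end Pool.Agent.H176.DT
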