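import Pool.Agent.H59.L.S8.H176.DT.H10

/-!
# Semistable models, conclusion
-/

set_option autoImplicit false
set_option linter.unusedVariables false
set_option linter.unusedSectionVars false

universe u

namespace Pool.Agent.H176.DT

open Pool.Agent.W418.LU2 IsLocalRing Polynomial

section semi

variable {K : Type u} [Field K]

/-- Regular systems of parameters with the product `ϖ`. -/
theorem semi_of_stage (V : ValuationSubring K) {A : Subring K} {T : Set K} {s : ℕ}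
    {m : Fin s → K} (hs : 0 < s) (hSt : St V A T m) (hmV : ∀ i, (m i)⁻¹ ∉ V) :
    ∃ (_ : IsRegularLocalRing (PP V A T)) (n : ℕ) (y : Fin n → PP V A T) (S : Finset (Fin n)),
        Ideal.span (Set.range y) = maximalIdeal (PP V A T) ∧ ringKrullDim (PP V A T) = n ∧
        S.Nonempty ∧ ∏ j, m j = ∏ i ∈ S, (y i : K) := by
  classical
  obtain ⟨k, z, hF⟩ := p_ext hSt.reg hmV
  obtain ⟨hPA, hmem, hR, hinv, hspan, hdim⟩ := hF
  let e := Fintype.equivFin (Fin s ⊕ Fin k)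
  refine ⟨hR, Fintype.card (Fin s ⊕ Fin k), fun i => ⟨_, hmem (e.symm i)⟩,
    Finset.univ.image fun j : Fin s => e (Sum.inl j), ?_, hdim, ?_, ?_⟩
  · rw [← hspan]
    congr 1
    ext w
    constructor
    · rintro ⟨i, rfl⟩
      exact ⟨_, rfl⟩
    · rintro ⟨i, rfl⟩
      exact ⟨e i, by simp⟩
  · exact ⟨_, Finset.mem_image.2 ⟨⟨0, hs⟩, Finset.mem_univ _, rfl⟩⟩
  · rw [Finset.prod_image fun a _ b _ h => Sum.inl_injective (e.injective h)]
    exact Finset.prod_congr rfl fun j _ => by simp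

/-- Semistable models. -/
theorem ss_main (het : S6_et.{u}) (htor : S6_tor.{u}) (hcomb : S6_comb.{u})
    (v : Valuation K NNReal) (O : Subring K) (hO : ∀ a ∈ O, v a ≤ 1) {W : Set K}
    (hWf : W.Finite) {w : K} (hw : w ∈ W) (hw0 : w ≠ 0) (hwV : ∀ z ∈ W, v (z / w) ≤ 1)
    (hM : Mod v.valuationSubring (ch O W w)) (hSU : SU v.valuationSubring (ch O W w)) (π : K)
    (hπ0 : π ≠ 0) (hπ1 : v π < 1)
    (hdiv : ∀ q : ℕ, q.Prime → v (q : K) < 1 → ∀ z : K, v z ^ q ≠ v π) :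
    ∃ d N₀ : ℕ, 0 < d ∧ v (d : K) = 1 ∧ ∀ N : ℕ, N₀ ≤ N → d ∣ N →
      ∀ {K' : Type u} [Field K'] [Algebra K K'] (V' : ValuationSubring K') (ϖ : K'),
      V'.comap (algebraMap K K') = v.valuationSubring → ϖ ^ N = algebraMap K K' π →
      (∀ z : K', z ∈ Subfield.closure (Set.range (algebraMap K K') ∪ {ϖ})) →
      ∃ (Y : Set K') (d' n' : ℕ), Y.Finite ∧
        Y ⊆ ((Submodule.span (Orm O ϖ) (algebraMap K K' '' W)) ^ d' :
          Submodule (Orm O ϖ) K') ∧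
        (∀ z ∈ (Submodule.span (Orm O ϖ) (algebraMap K K' '' W)) ^ d',
          ϖ ^ n' * z ∈ Submodule.span (Orm O ϖ) Y) ∧
        ∃ w' ∈ bu (algebraMap K K' '' W) Y, w' ≠ 0 ∧
          (∀ z ∈ bu (algebraMap K K' '' W) Y, z / w' ∈ V') ∧
          ∃ P : Subring K',
            lo V'.toSubring (ch (Orm O ϖ) (bu (algebraMap K K' '' W) Y) w') = P ∧
            ∃ (_ : IsRegularLocalRing P) (n : ℕ) (y : Fin n → P) (S : Finset (Fin n)),
              Ideal.span (Set.range y) = maximalIdeal P ∧ ringKrullDim P = n ∧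
              S.Nonempty ∧ ϖ = ∏ i ∈ S, (y i : K') := by
  obtain ⟨d, N₀, hd, hvd, hN⟩ := ss_stage het htor hcomb v O hO hWf hw hw0 hwV hM hSU π hπ0 hπ1
    hdiv
  refine ⟨d, N₀, hd, hvd, ?_⟩
  intro N hN0 hdN K' _ _ V' ϖ hV' hϖ hgen
  obtain ⟨T', s, m, hs, hSt, hmV, hprod⟩ := hN N hN0 hdN V' ϖ hV' hϖ hgen
  have hmem : ∀ z : K, algebraMap K K' z ∈ V' ↔ v z ≤ 1 := by
    intro z
    have h1 : algebraMap K K' z ∈ V' ↔ z ∈ V'.comap (algebraMap K K') := Iff.rfl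
    rw [h1, hV']
    exact Iff.rfl
  have hϖV : ϖ ∈ V' := by
    rw [← hprod]
    exact prod_mem fun j _ => hSt.reg.PA (hSt.reg.mem j)
  have hO' : ∀ a ∈ Orm O ϖ, a ∈ V' := by
    have h1 : Orm O ϖ ≤ V'.toSubring := by
      rw [Subring.closure_le]
      rintro z (⟨a, ha, rfl⟩ | hz)
      · exact (hmem a).2 (hO a ha)
      · rw [Set.mem_singleton_iff.1 hz]
        exact hϖV
    exact fun a ha => h1 ha
  have hmo1 : mo m (fun _ => 1) = ϖ := by
    rw [← hprod]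
    unfold mo
    exact Finset.prod_congr rfl fun j _ => zpow_one _
  obtain ⟨Y, d', n', h1, h2, h3, w', h4, h5, h6, h7⟩ :=
    model_stage V' (Orm O ϖ) hO' (hWf.image _) (w := algebraMap K K' w) ⟨w, hw, rfl⟩
      ((_root_.map_ne_zero _).2 hw0) (by
        rintro _ ⟨z, hz, rfl⟩
        rw [← map_div₀]
        exact (hmem _).2 (hwV z hz)) (p := ϖ) (Subring.subset_closure (Or.inr rfl)) hSt (u := 1)
      (η := fun _ => 1) (Subring.one_mem _) (by rw [inv_one]; exact Subring.one_mem _)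
      one_ne_zero (by rw [one_mul, hmo1]) (fun _ => one_pos)
  refine ⟨Y, d', n', h1, h2, h3, w', h4, h5, h6, _, h7, ?_⟩
  obtain ⟨hr, n, y, S, e1, e2, e3, e4⟩ := semi_of_stage V' hs hSt hmV
  exact ⟨hr, n, y, S, e1, e2, e3, hprod.symm.trans e4⟩

end semi

end Pool.Agent.H176.DT
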