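import Pool.Agent.H59.L.S8.H176.DT.H11
import Pool.Agent.H59.L.S8.H176.DT.Lat
import Pool.Agent.H59.L.S8.H297.DT6.Tor
import Pool.Agent.H59.L.S8.H306.DT6.Sort_
import Pool.Agent.H59.L.S8.Y547.DT6.Comb
import Pool.Agent.H59.L.S8.Y739.DT6.Et6

/-!
# Semistable models: the parts
-/

set_option autoImplicit false
set_option linter.unusedVariables false
set_option linter.unusedSectionVars false

universe u

namespace Pool.Agent.H176.DT

theorem p_tor6 : S6_tor.{u} := Pool.Agent.H297.DT6.tor6
theorem p_sort6 : S6_sort := Pool.Agent.H306.DT6.sort6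
theorem p_lat6 : S6_lat := lat6
theorem p_comb6 : S6_comb.{u} := Pool.Agent.Y547.DT6.comb6 p_lat6 p_sort6
theorem p_et6 : S6_et.{u} := Pool.Agent.Y739.DT6.et6

end Pool.Agent.H176.DT
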