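import Mathlib

/-!
# Existence of the lifts of a valuation ring to the extension by a root
-/

set_option autoImplicit false

universe u

namespace Pool.Agent.H176.DT

/-- Extension of a valuation ring to a larger field (after helper755). -/
theorem ext_val {K L : Type u} [Field K] [Field L] [Algebra K L] (V : ValuationSubring K) :
    ∃ V' : ValuationSubring L, V'.comap (algebraMap K L) = V := by
  obtain ⟨V', h1, h2⟩ := (V.toLocalSubring.map (algebraMap K L)).exists_le_valuationSubring
  have h3 : ∀ f : K, f ∈ V → algebraMap K L f ∈ V' := fun f hf =>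
    h1 (Subring.mem_map.2 ⟨f, hf, rfl⟩)
  refine ⟨V', ?_⟩
  ext f
  rw [ValuationSubring.mem_comap]
  refine ⟨fun hf => ?_, h3 f⟩
  by_contra hV
  have hi : f⁻¹ ∈ V := (V.mem_or_inv_mem f).resolve_left hV
  have hf0 : f ≠ 0 := by
    rintro rfl
    exact hV V.zero_mem
  have hm : algebraMap K L f⁻¹ ∈ (V.toLocalSubring.map (algebraMap K L)).toSubring :=
    Subring.mem_map.2 ⟨f⁻¹, hi, rfl⟩
  have hu : IsUnit (Subring.inclusion h1 ⟨algebraMap K L f⁻¹, hm⟩) := by
    refine isUnit_iff_exists_inv.2 ⟨⟨algebraMap K L f, hf⟩, Subtype.ext ?_⟩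
    change algebraMap K L f⁻¹ * algebraMap K L f = 1
    rw [← map_mul, inv_mul_cancel₀ hf0, map_one]
  obtain ⟨⟨b, hb⟩, hb'⟩ := isUnit_iff_exists_inv.1 (h2.1 _ hu)
  obtain ⟨g, hg, rfl⟩ := Subring.mem_map.1 hb
  have h4 : algebraMap K L f⁻¹ * algebraMap K L g = 1 := congrArg Subtype.val hb'
  rw [← map_mul, ← map_one (algebraMap K L)] at h4
  have h5 := (algebraMap K L).injective h4
  have h6 : g = f := by
    rw [inv_mul_eq_iff_eq_mul₀ hf0, mul_one] at h5
    exact h5
  rw [h6] at hg
  exact hV hg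

theorem exists_root {K : Type u} [Field K] (V : ValuationSubring K) (a : K) {N : ℕ}
    (hN : 0 < N) :
    ∃ (K' : Type u) (_ : Field K') (_ : Algebra K K') (V' : ValuationSubring K') (ϖ : K'),
      V'.comap (algebraMap K K') = V ∧ ϖ ^ N = algebraMap K K' a ∧
      ∀ z : K', z ∈ Subfield.closure (Set.range (algebraMap K K') ∪ {ϖ}) := by
  obtain ⟨r, hr⟩ := IsAlgClosed.exists_pow_nat_eq (algebraMap K (AlgebraicClosure K) a) hN
  obtain ⟨V', hV'⟩ := ext_val (L := IntermediateField.adjoin K {r}) V
  refine ⟨IntermediateField.adjoin K {r}, inferInstance, inferInstance, V',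
    IntermediateField.AdjoinSimple.gen K r, hV', ?_, ?_⟩
  · apply Subtype.ext
    rw [SubmonoidClass.coe_pow, IntermediateField.AdjoinSimple.coe_gen, hr]
    rfl
  · rintro ⟨z, hz⟩
    have h1 : z ∈ Subfield.closure (Set.range (algebraMap K (AlgebraicClosure K)) ∪ {r}) := hz
    have h2 : Subfield.closure (Set.range (algebraMap K (AlgebraicClosure K)) ∪ {r}) =
        (Subfield.closure (Set.range (algebraMap K (IntermediateField.adjoin K {r})) ∪
          {IntermediateField.AdjoinSimple.gen K r})).map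
          (IntermediateField.adjoin K {r}).val.toRingHom := by
      rw [RingHom.map_field_closure]
      congr 1
      rw [Set.image_union, Set.image_singleton]
      congr 1
      ext y
      constructor
      · rintro ⟨x, rfl⟩
        exact ⟨algebraMap K _ x, ⟨x, rfl⟩, rfl⟩
      · rintro ⟨_, ⟨x, rfl⟩, rfl⟩
        exact ⟨x, rfl⟩
    rw [h2] at h1
    obtain ⟨y, hy, hyz⟩ := h1
    have : y = ⟨z, hz⟩ := Subtype.ext hyz
    rw [← this]
    exact hy

end Pool.Agent.H176.DT
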