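import Pool.Agent.H59.L.S8.H176.DT.H2

/-!
# The defectless step over given stages
-/

set_option autoImplicit false
set_option linter.unusedVariables false
set_option linter.unusedSectionVars false

universe u

namespace Pool.Agent.H176.DT

open Pool.Agent.W418.LU2 IsLocalRing

section main

variable {E F : Type u} [Field E] [Field F] [Algebra E F] {V : ValuationSubring F} {q r : ℕ}
  {t : Fin q → F} {ee : Fin q → ℕ} {b : Fin r → F} {ff : Fin r → ℕ}

/-- The defectless step, from given stages. -/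
theorem bas_Q (hfac : S_fac.{u}) (hell : S_ell.{u}) (hadj : S_adj.{u}) (halg : S_alg.{u})
    (hmap : S_map.{u}) (hext : S_ext.{u}) (hcut : S_cut.{u}) (V : ValuationSubring F)
    (A : Subring E) (hM : Mod (V.comap (algebraMap E F)) A) (hS : Str (E := E) V t ee b ff)
    (Q : Set E → (s : ℕ) → (Fin s → E) → Prop)
    (hind : ∀ GE : Set E, GE.Finite → (∀ a ∈ GE, a ≠ 0) →
      ∃ (T : Set E) (s : ℕ) (x : Fin s → E), St (V.comap (algebraMap E F)) A T x ∧
        (∀ i, (x i)⁻¹ ∉ V.comap (algebraMap E F)) ∧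
        (∀ δ : Fin s → ℤ, (V.comap (algebraMap E F)).valuation (mo x δ) = 1 → δ = 0) ∧
        (∀ g ∈ GE, PMon (PP (V.comap (algebraMap E F)) A T) x g ∧
          (g ∈ V.comap (algebraMap E F) → g ∈ PP (V.comap (algebraMap E F)) A T)) ∧ Q T s x)
    (GE0 : Set E) (hGE0 : GE0.Finite) (hGE00 : ∀ a ∈ GE0, a ≠ 0) (G : Set F) (hG : G.Finite)
    (hG0 : ∀ z ∈ G, z ≠ 0) :
    ∃ (GE : Set E) (g : Fin q → E) (m₀ : Fin q → Fin q → ℤ) (T : Set E) (s : ℕ) (x : Fin s → E)
      (τ : Fin q → F) (u : Fin q → E) (Y : Fin s → F) (K : Finset ((Fin s → ℤ) × (Fin q → ℤ))),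
      Cons V t ee b ff A GE g m₀ T x τ u Y K ∧ GE0 ⊆ GE ∧ Q T s x ∧
      RegP V.toSubring (PF (Subring.closure ((A : Set E) ∪ T)) V (yy b τ Y)) Y ∧
      ∀ z ∈ G, PMon (PF (Subring.closure ((A : Set E) ∪ T)) V (yy b τ Y)) Y z ∧
        (z ∈ V → z ∈ PF (Subring.closure ((A : Set E) ∪ T)) V (yy b τ Y)) := by
  classical
  have hfin := fin_alg hS
  choose g m₀ hg0 hm₀ hrel using hS.rel
  have h1 : ∀ i, ∃ c : ((i : Fin q) → Fin (ee i)) × ((j : Fin r) → Fin (ff j)) → E,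
      t i ^ ee i * (algebraMap E F (g i) * mo t (m₀ i))⁻¹ = el t b c := fun i => hS.span _
  choose cw hcw using h1
  choose h hsupp hhV hval using hS.res
  have h2 : ∀ j, ∃ c : ((i : Fin q) → Fin (ee i)) × ((j : Fin r) → Fin (ff j)) → E,
      b j ^ ff j + ∑ l, MvPolynomial.aeval b (h j l) * b j ^ (l : ℕ) = el t b c :=
    fun j => hS.span _
  choose cc hcc using h2
  have h3 : ∀ z : F, ∃ (d : E) (n : ℕ) (a : ℕ → E), z ≠ 0 → (d ≠ 0 ∧
      (∀ i, algebraMap E F (a i) ∈ V) ∧ a 0 ≠ 0 ∧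
      (algebraMap E F d * z) ^ (n + 1) +
        ∑ i ∈ Finset.range (n + 1), algebraMap E F (a i) * (algebraMap E F d * z) ^ i = 0) := by
    intro z
    by_cases hz : z = 0
    · exact ⟨0, 0, fun _ => 0, fun h => absurd hz h⟩
    · obtain ⟨d, n, a, h⟩ := exists_int V hz (Algebra.IsAlgebraic.isAlgebraic (R := E) z)
      exact ⟨d, n, a, fun _ => h⟩
  choose d n a hdna using h3
  have h4 : ∀ z : F, ∃ c : ((i : Fin q) → Fin (ee i)) × ((j : Fin r) → Fin (ff j)) → E,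
      algebraMap E F (d z) * z = el t b c := fun z => hS.span _
  choose cz hcz using h4
  have h5 : ∀ z : F, ∃ c : ((i : Fin q) → Fin (ee i)) × ((j : Fin r) → Fin (ff j)) → E,
      z = el t b c := fun z => hS.span _
  choose cy hcy using h5
  -- the coefficients
  let GE : Set E := GE0 ∪ {e : E | e ≠ 0} ∩ ((Set.range g ∪ ((⋃ i, Set.range (cw i)) ∪
    (⋃ j, Set.range (cc j)))) ∪ ((⋃ j, ⋃ l, (h j l).coeff '' ((h j l).support : Set _)) ∪
      (⋃ z ∈ G, ((Set.range (cz z) ∪ Set.range (cy z)) ∪ ({d z} ∪ a z '' Set.Iio (n z + 1))))))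
  have hGEf : GE.Finite := by
    refine hGE0.union (Set.Finite.inter_of_right ?_ _)
    refine ((Set.finite_range _).union ((Set.finite_iUnion fun i => Set.finite_range _).union
      (Set.finite_iUnion fun i => Set.finite_range _))).union
      ((Set.finite_iUnion fun j => Set.finite_iUnion fun l => (Finset.finite_toSet _).image _).union
      (hG.biUnion fun z _ => ((Set.finite_range _).union (Set.finite_range _)).union
        ((Set.finite_singleton _).union ((Set.finite_Iio _).image _))))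
  obtain ⟨T, s, x, hSt0, hxu, hxi, hGG, hQ⟩ := hind GE hGEf (fun e he => he.elim (hGE00 e)
    fun he => he.1)
  obtain ⟨τ, u, Y, K, H⟩ := exists_cons' hell hS A GE hGEf hSt0 hxu hxi hGG
    hm₀ hrel (fun i => Or.inr ⟨hg0 i, Or.inl (Or.inl ⟨i, rfl⟩)⟩)
  have hwv : ∀ i, V.valuation (el t b (cw i)) ≤ 1 := by
    intro i
    rw [← hcw, map_mul, map_inv₀, hrel i]
    exact mul_inv_le_one
  have hSt := H.stage hadj halg hmap hext hcut hM
    (fun i p hp => Or.inr ⟨hp, Or.inl (Or.inr (Or.inl (Set.mem_iUnion.2 ⟨i, p, rfl⟩)))⟩) hcw hwv hsupp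
    (fun j l m hm => Or.inr ⟨hm, Or.inr (Or.inl (Set.mem_iUnion.2 ⟨j, Set.mem_iUnion.2 ⟨l,
      m, MvPolynomial.mem_support_iff.2 hm, rfl⟩⟩))⟩) hhV
    (fun j p hp => Or.inr ⟨hp, Or.inl (Or.inr (Or.inr (Set.mem_iUnion.2 ⟨j, p, rfl⟩)))⟩) hcc hval
  have hreg := hSt.reg
  rw [H.PP_eq] at hreg
  refine ⟨GE, g, m₀, T, s, x, τ, u, Y, K, H, Set.subset_union_left, hQ, hreg, ?_⟩
  · intro z hz
    obtain ⟨hd0, haV, ha0, hroot⟩ := hdna z (hG0 z hz)
    have hdGE : d z ∈ GE := Or.inr ⟨hd0, Or.inr (Or.inr (Set.mem_biUnion hz (Or.inr (Or.inl rfl))))⟩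
    have hwV : algebraMap E F (d z) * z ∈ V := mem_of_root V haV hroot
    have hwm : algebraMap E F (d z) * z ∈ PF (Subring.closure ((A : Set E) ∪ T)) V (yy b τ Y) := by
      rw [hcz z]
      refine H.dat.el_mem (cz z) (H.good (cz z) (fun p hp => Or.inr ⟨hp, Or.inr (Or.inr
        (Set.mem_biUnion hz (Or.inl (Or.inl ⟨p, rfl⟩))))⟩) fun p => ?_)
      refine (el_bound hS (cz z) p).trans ?_
      rw [← hcz z]
      exact (V.valuation_le_one_iff _).2 hwV
    have haGE : ∀ i < n z + 1, a z i ≠ 0 → a z i ∈ GE := fun i hi h0 =>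
      Or.inr ⟨h0, Or.inr (Or.inr (Set.mem_biUnion hz (Or.inr (Or.inr ⟨i, hi, rfl⟩))))⟩
    have h5 := H.dat.root_PMon hfac H.Kx hreg hwm (n := n z) (a := a z) (fun i hi => by
      by_cases h0 : a z i = 0
      · rw [h0]
        exact Subring.zero_mem _
      · exact (H.mon _ (haGE i hi h0)).2 (haV i)) (H.mon _ (haGE 0 (Nat.succ_pos _) ha0)).1 hroot
    have h6 := (H.dat.alg_PMon H.Kx (H.mon _ hdGE).1).inv.mul H.dat.Y0 h5
    rw [← mul_assoc, inv_mul_cancel₀ ((map_ne_zero _).2 hd0), one_mul] at h6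
    refine ⟨h6, fun hzV => ?_⟩
    have h7 := H.dat.el_mem (cy z) (H.good (cy z) (fun p hp => Or.inr ⟨hp, Or.inr (Or.inr
        (Set.mem_biUnion hz (Or.inl (Or.inr ⟨p, rfl⟩))))⟩) fun p => by
      refine (el_bound hS (cy z) p).trans ?_
      rw [← hcy z]
      exact (V.valuation_le_one_iff _).2 hzV)
    rw [← hcy z] at h7
    exact h7

end main

end Pool.Agent.H176.DT
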