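import Pool.Agent.H59.L.S8.H176.DT.H1
import Pool.Agent.H59.L.S8.H176.DT.H3
import Pool.Agent.H59.L.S8.H176.DT.H4

/-!
# Defectless finite extensions
-/

set_option autoImplicit false
set_option linter.unusedVariables false
set_option linter.unusedSectionVars false

universe u

namespace Pool.Agent.H176.DT

open Pool.Agent.W418.LU2 IsLocalRing Polynomial

section desc

variable {F F1 : Type u} [Field F] [Field F1] [Algebra F F1]

/-- Descent of monomials. -/
lemma pmon_desc {P : Subring F} {P1 : Subring F1} {ι : Type} [Fintype ι] {Y : ι → F}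
    (hY : ∀ i, Y i ≠ 0) (h : ∀ z : F, algebraMap F F1 z ∈ P1 → z ∈ P) {z : F}
    (hz : PMon P1 (fun i => algebraMap F F1 (Y i)) (algebraMap F F1 z)) : PMon P Y z := by
  obtain ⟨u, u0, u1, u2, δ, hu⟩ := hz
  have h0 : mo Y δ ≠ 0 := mo_ne_zero hY δ
  have h1 : mo (fun i => algebraMap F F1 (Y i)) δ = algebraMap F F1 (mo Y δ) :=
    (map_mo (algebraMap F F1) Y δ).symm
  have h2 : u = algebraMap F F1 (z * (mo Y δ)⁻¹) := by
    rw [map_mul, hu, h1, map_inv₀, mul_assoc, mul_inv_cancel₀, mul_one]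
    exact (_root_.map_ne_zero _).2 h0
  refine ⟨z * (mo Y δ)⁻¹, fun h3 => u0 (by rw [h2, h3, map_zero]), h _ (by rw [← h2]; exact u1),
    h _ (by rw [map_inv₀, ← h2]; exact u2), δ, ?_⟩
  rw [mul_assoc, inv_mul_cancel₀ h0, mul_one]

/-- Ascent of monomials. -/
lemma pmon_asc {P : Subring F} {P1 : Subring F1} {ι : Type} [Fintype ι] {x : ι → F}
    (h : ∀ z ∈ P, algebraMap F F1 z ∈ P1) {z : F} (hz : PMon P x z) :
    PMon P1 (fun i => algebraMap F F1 (x i)) (algebraMap F F1 z) := by
  obtain ⟨u, u0, u1, u2, δ, rfl⟩ := hz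
  refine ⟨algebraMap F F1 u, (_root_.map_ne_zero _).2 u0, h _ u1, ?_, δ, ?_⟩
  · rw [← map_inv₀]
    exact h _ u2
  · rw [map_mul, map_mo]

end desc

section dfl

variable {E F E1 F1 : Type u} [Field E] [Field F] [Field E1] [Field F1] [Algebra E F]
  [Algebra E E1] [Algebra E1 F1] [Algebra F F1]

/-- Defectless finite extensions. -/
theorem key_dfl (hflat : S5_flat.{u}) (hregd : S5_reg.{u}) (het : S5_et.{u})
    (hcomm : ∀ z : E, algebraMap E1 F1 (algebraMap E E1 z) = algebraMap F F1 (algebraMap E F z))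
    (V : ValuationSubring F1) (A : Subring E)
    (hM : Mod ((V.comap (algebraMap F F1)).comap (algebraMap E F)) A)
    (hSU : SU ((V.comap (algebraMap F F1)).comap (algebraMap E F)) A)
    (ζ : E1) (hζ : ∀ z : E1, ∃ f : E[X], aeval ζ f = z) (f : E[X]) (hf : f.Monic)
    (hfV : ∀ i, algebraMap E1 F1 (algebraMap E E1 (f.coeff i)) ∈ V) (h0 : aeval ζ f = 0)
    (h1 : V.valuation (algebraMap E1 F1 (aeval ζ (derivative f))) = 1)
    {n : ℕ} {β : Fin n → F} (hβ : Orth (E := E1) V (fun i => algebraMap F F1 (β i)))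
    (U0 : Set F) (hU0f : U0.Finite) (hU0V : ∀ u ∈ U0, algebraMap F F1 u ∈ V)
    (hgen : ∀ z : F, z ∈ Subfield.closure (Set.range (algebraMap E F) ∪ U0)) :
    ∃ U : Set F, U.Finite ∧
      Mod (V.comap (algebraMap F F1)) (Subring.closure ((A.map (algebraMap E F) : Set F) ∪ U)) ∧
      SU (V.comap (algebraMap F F1)) (Subring.closure ((A.map (algebraMap E F) : Set F) ∪ U)) := by
  classical
  -- the unramified extension
  have hVE : (V.comap (algebraMap F F1)).comap (algebraMap E F) =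
      (V.comap (algebraMap E1 F1)).comap (algebraMap E E1) := by
    ext z
    change algebraMap F F1 (algebraMap E F z) ∈ V ↔ algebraMap E1 F1 (algebraMap E E1 z) ∈ V
    rw [hcomm]
  have hM' := hM
  have hSU' := hSU
  rw [hVE] at hM' hSU'
  obtain ⟨μ, g1, k1, hun⟩ := p_et (V.comap (algebraMap E1 F1)) ζ f hf hfV h0
    ((comap_one _ _ _).2 h1)
  obtain ⟨hζV, -⟩ := p_unr (V.comap (algebraMap E1 F1)) A hM' hSU' ζ hζ μ g1 k1 hun
  have hM1 : Mod (V.comap (algebraMap E1 F1))
      (Subring.closure ((A.map (algebraMap E E1) : Set E1) ∪ {ζ})) := by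
    refine mod_ext hM' (by rintro u rfl; exact hζV) fun z => ?_
    obtain ⟨f, rfl⟩ := hζ z
    have h3 : ζ ∈ Subfield.closure (Set.range (algebraMap E E1) ∪ {ζ}) :=
      Subfield.subset_closure (Or.inr rfl)
    rw [aeval_eq_sum_range]
    refine sum_mem fun i _ => ?_
    rw [Algebra.smul_def]
    exact mul_mem (Subfield.subset_closure (Or.inl ⟨_, rfl⟩)) (pow_mem h3 _)
  have hst := het (V.comap (algebraMap E1 F1)) A hM' hSU' ζ hζ μ g1 k1 hun
  have hD : ∀ a : E1, a ≠ 0 → ∃ e ∈ Set.range (algebraMap E E1),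
      V.valuation (algebraMap E1 F1 e) = V.valuation (algebraMap E1 F1 a) := by
    intro a ha
    obtain ⟨T, s, x, -, -, -, hS1, hG⟩ := hst {a} (Set.finite_singleton _)
      (by rintro z rfl; exact ha)
    obtain ⟨⟨u, u0, u1, u2, δ, hδ⟩, -⟩ := hG a rfl
    refine ⟨algebraMap E E1 (mo x δ), ⟨_, rfl⟩, ?_⟩
    rw [hδ, map_mul, map_mul, val_unit hS1.reg.PA u0 u1 u2, one_mul, map_mo (algebraMap E E1)]
  -- the structure
  obtain ⟨q, r, t, ee, b, ff, hStr, htβ, ht', hb'⟩ :=
    Pool.Agent.Y925.DT.str_d p_val p_res V n _ hβ _ hD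
  have ht1 : ∀ i, ∃ w : F, t i = algebraMap F F1 w := fun i => by
    obtain ⟨j, hj⟩ := ht' i
    exact ⟨_, hj⟩
  choose t' ht2 using ht1
  have hb1 : ∀ l, ∃ w : F, b l = algebraMap F F1 w := fun l => by
    obtain ⟨_, ⟨e, rfl⟩, j, hj⟩ := hb' l
    exact ⟨algebraMap E F e * β j, by rw [hj, hcomm, map_mul]⟩
  choose b' hb2 using hb1
  obtain rfl : t = fun i => algebraMap F F1 (t' i) := funext ht2
  obtain rfl : b = fun l => algebraMap F F1 (b' l) := funext hb2
  have ht0 : ∀ i, t' i ≠ 0 := fun i h => hStr.t0 i (by simp only [h, map_zero])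
  -- the minimal polynomial
  obtain ⟨h, hm, hc, hroot, hder, hmin⟩ := exists_min V (algebraMap E1 F1 ζ)
    (f.map (algebraMap E F)) (hf.map _) (fun i => by rw [coeff_map, ← hcomm]; exact hfV i) (by
      have h3 : aeval (algebraMap E1 F1 ζ) (f.map (algebraMap E F)) =
          algebraMap E1 F1 (aeval ζ f) := by
        rw [aeval_def, eval₂_map, aeval_def, hom_eval₂]
        congr 1
        ext z
        exact (hcomm z).symm
      rw [h3, h0, map_zero]) (by
      have h3 : aeval (algebraMap E1 F1 ζ) (derivative (f.map (algebraMap E F))) =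
          algebraMap E1 F1 (aeval ζ (derivative f)) := by
        rw [derivative_map, aeval_def, eval₂_map, aeval_def, hom_eval₂]
        congr 1
        ext z
        exact (hcomm z).symm
      rw [h3]
      exact h1)
  -- the model
  let U : Set F := Ug (V.comap (algebraMap F F1)) t' b' ∪ (Set.range h.coeff ∪ U0)
  have hUfin : U.Finite := by
    refine Ug_fin.union (Set.Finite.union ?_ hU0f)
    refine ((Finset.finite_toSet h.support).image h.coeff |>.insert 0).subset ?_
    rintro _ ⟨i, rfl⟩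
    by_cases hi : h.coeff i = 0
    · rw [hi]
      exact Set.mem_insert _ _
    · exact Set.mem_insert_of_mem _ ⟨i, mem_support_iff.2 hi, rfl⟩
  have hUgV : ∀ u ∈ Ug (V.comap (algebraMap F F1)) t' b', algebraMap F F1 u ∈ V := by
    intro u hu
    rcases Ug_cases hu with ⟨j, rfl⟩ | ⟨i, h, rfl⟩ | ⟨i, h, rfl⟩
    · exact (V.valuation_le_one_iff _).1 (hStr.b1 j).le
    · exact h
    · exact ((V.comap (algebraMap F F1)).mem_or_inv_mem _).resolve_left h
  have hMF : Mod (V.comap (algebraMap F F1))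
      (Subring.closure ((A.map (algebraMap E F) : Set F) ∪ U)) := by
    refine mod_ext hM ?_ fun z => ?_
    · rintro u (hu | ⟨i, rfl⟩ | hu)
      · exact hUgV u hu
      · exact hc i
      · exact hU0V u hu
    · have h3 : Set.range (algebraMap E F) ∪ U0 ⊆ Set.range (algebraMap E F) ∪ U :=
        Set.union_subset_union_right _ fun z hz => Or.inr (Or.inr hz)
      exact Subfield.closure_mono h3 (hgen z)
  refine ⟨U, hUfin, hMF, ?_⟩
  intro G hG hG0
  -- the stage over the large field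
  obtain ⟨GE, g, m₀, T, s, x, τ, u, Y, K, H, -, ⟨T0, x0, hSt0, rfl, rfl⟩, hreg, hmon⟩ :=
    bas_Q p_fac p_ell p_adj p_alg p_map p_ext p_cut V
      (Subring.closure ((A.map (algebraMap E E1) : Set E1) ∪ {ζ})) hM1 hStr
      (fun T s x => ∃ (T0 : Set E) (x0 : Fin s → E),
        St ((V.comap (algebraMap E1 F1)).comap (algebraMap E E1)) A T0 x0 ∧
        T = algebraMap E E1 '' T0 ∧ x = fun i => algebraMap E E1 (x0 i))
      (fun GE hGE hGE0 => by
        obtain ⟨T, s, x, hS0, hx, hi, hS1, hG⟩ := hst GE hGE hGE0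
        refine ⟨algebraMap E E1 '' T, s, fun i => algebraMap E E1 (x i), hS1, fun i h => hx i ?_,
          fun δ hδ => hi δ ?_, hG, T, x, hS0, rfl, rfl⟩
        · change algebraMap E E1 (x i)⁻¹ ∈ V.comap (algebraMap E1 F1)
          rw [map_inv₀]
          exact h
        · rw [comap_one, map_mo]
          exact hδ)
      ∅ Set.finite_empty (fun _ h => absurd h (Set.notMem_empty _))
      (algebraMap F F1 '' (G ∪ {z | z ∈ Set.range h.coeff ∪ U0 ∧ z ≠ 0}))
      ((hG.union (hUfin.subset (fun z hz => Or.inr hz.1))).image _) (by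
        rintro _ ⟨z, hz | hz, rfl⟩
        · exact (_root_.map_ne_zero _).2 (hG0 z hz)
        · exact (_root_.map_ne_zero _).2 hz.2)
  -- the coordinates
  have hMMF : ∀ l m, MM (fun i => algebraMap E E1 (x0 i)) (fun i => algebraMap F F1 (t' i)) l m =
      algebraMap F F1 (algebraMap E F (mo x0 l) * mo t' m) := by
    intro l m
    unfold MM
    rw [map_mul, map_mo (algebraMap F F1), ← hcomm, map_mo (algebraMap E E1)]
  have hτ1 : ∀ i, ∃ w, τ i = algebraMap F F1 w := fun i => by
    obtain ⟨l, m, hlm⟩ := H.tM i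
    exact ⟨_, by rw [hlm, hMMF]⟩
  choose τ' hτ2 using hτ1
  have hY1 : ∀ i, ∃ w, Y i = algebraMap F F1 w := fun i => by
    obtain ⟨l, m, hlm⟩ := H.YM i
    exact ⟨_, by rw [hlm, hMMF]⟩
  choose Y' hY2 using hY1
  obtain rfl : τ = fun i => algebraMap F F1 (τ' i) := funext hτ2
  obtain rfl : Y = fun i => algebraMap F F1 (Y' i) := funext hY2
  have hY0 : ∀ i, Y' i ≠ 0 := fun i h => H.dat.Y0 i (by simp only [h, map_zero])
  have hyy : ∀ θ, yy (fun l => algebraMap F F1 (b' l)) (fun i => algebraMap F F1 (τ' i))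
      (fun i => algebraMap F F1 (Y' i)) θ = algebraMap F F1 (yy b' τ' Y' θ) := by
    rintro (θ | θ | θ) <;> rfl
  -- the local rings
  set AF' : Subring F := Subring.closure ((A.map (algebraMap E F) : Set F) ∪ U) with hAF'
  set TF : Set F := algebraMap E F '' T0 ∪ Set.range (yy b' τ' Y') with hTF
  set B : Subring F := Subring.closure ((AF' : Set F) ∪ TF) with hB
  set P1 : Subring F1 := PF (Subring.closure (((Subring.closure
    ((A.map (algebraMap E E1) : Set E1) ∪ {ζ}) : Subring E1) : Set E1) ∪ algebraMap E E1 '' T0)) V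
      (yy (fun l => algebraMap F F1 (b' l)) (fun i => algebraMap F F1 (τ' i))
        (fun i => algebraMap F F1 (Y' i))) with hP1
  have hA1 : ∀ a ∈ A, algebraMap F F1 (algebraMap E F a) ∈ P1 := by
    intro a ha
    rw [← hcomm]
    exact le_lo _ _ (Subring.subset_closure (Or.inl ⟨_, Subring.subset_closure (Or.inl
      (Subring.subset_closure (Or.inl ⟨a, ha, rfl⟩))), rfl⟩))
  have hζ1 : algebraMap E1 F1 ζ ∈ P1 :=
    le_lo _ _ (Subring.subset_closure (Or.inl ⟨_, Subring.subset_closure (Or.inl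
      (Subring.subset_closure (Or.inr rfl))), rfl⟩))
  have hT1 : ∀ a ∈ T0, algebraMap F F1 (algebraMap E F a) ∈ P1 := by
    intro a ha
    rw [← hcomm]
    exact le_lo _ _ (Subring.subset_closure (Or.inl ⟨_, Subring.subset_closure (Or.inr
      ⟨a, ha, rfl⟩), rfl⟩))
  have hyy1 : ∀ θ, algebraMap F F1 (yy b' τ' Y' θ) ∈ P1 := fun θ => by
    rw [← hyy]
    exact y_mem_PF θ
  have hU1 : ∀ u ∈ U, algebraMap F F1 u ∈ P1 := by
    rintro u (hu | hu)
    · have h2 : ∀ (n : Fin s → ℕ) (κ : Fin q → ℤ), mo (fun i => algebraMap F F1 (Y' i))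
          (fun j => (n j : ℤ)) * mo (fun i => algebraMap F F1 (τ' i)) κ ∈ P1 := by
        intro n κ
        refine Subring.mul_mem _ ?_ (H.dat.mo_tau κ)
        unfold mo
        refine Subring.prod_mem _ fun i _ => ?_
        rw [zpow_natCast]
        exact Subring.pow_mem _ (H.dat.Y_mem i) _
      rcases Ug_cases hu with ⟨j, rfl⟩ | ⟨i, h, rfl⟩ | ⟨i, h, rfl⟩
      · exact H.dat.b_mem j
      · obtain ⟨n, κ, h3⟩ := H.gen i
        rcases h3 with ⟨-, h3⟩ | ⟨h4, -⟩
        · have h5 := h2 n κ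
          rw [← h3] at h5
          exact h5
        · exact absurd h h4
      · obtain ⟨n, κ, h3⟩ := H.gen i
        rcases h3 with ⟨h4, -⟩ | ⟨-, h3⟩
        · exact absurd h4 h
        · have h5 := h2 n κ
          rw [← h3] at h5
          rw [map_inv₀]
          exact h5
    · by_cases h3 : u = 0
      · rw [h3, map_zero]
        exact Subring.zero_mem _
      · refine (hmon _ ⟨_, Or.inr ⟨hu, h3⟩, rfl⟩).2 ?_
        rcases hu with ⟨i, rfl⟩ | hu
        · exact hc i
        · exact hU0V _ hu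
  have hAF1 : ∀ a ∈ AF', algebraMap F F1 a ∈ P1 := by
    have h3 : AF' ≤ P1.comap (algebraMap F F1) := by
      rw [hAF', Subring.closure_le]
      rintro z (⟨a, ha, rfl⟩ | hz)
      · exact hA1 a ha
      · exact hU1 z hz
    exact fun a ha => h3 ha
  have hTF1 : ∀ a ∈ TF, algebraMap F F1 a ∈ P1 := by
    rintro z (⟨a, ha, rfl⟩ | ⟨θ, rfl⟩)
    · exact hT1 a ha
    · exact hyy1 θ
  have hB1 : ∀ a ∈ B, algebraMap F F1 a ∈ P1 := by
    have h3 : B ≤ P1.comap (algebraMap F F1) := by
      rw [hB, Subring.closure_le]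
      rintro z (hz | hz)
      · exact hAF1 z hz
      · exact hTF1 z hz
    exact fun a ha => h3 ha
  have hBV : B ≤ (V.comap (algebraMap F F1)).toSubring := fun z hz => hreg.PA (hB1 z hz)
  have hPP : P1 = lo V.toSubring (Subring.closure ((B.map (algebraMap F F1) : Set F1) ∪
      {algebraMap E1 F1 ζ})) := by
    refine (lo_eq H.dat.le ?_ ?_).symm
    · rw [Subring.closure_le]
      have h3 : (Subring.closure (((Subring.closure
          ((A.map (algebraMap E E1) : Set E1) ∪ {ζ}) : Subring E1) : Set E1) ∪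
          algebraMap E E1 '' T0)) ≤ (Subring.closure ((B.map (algebraMap F F1) : Set F1) ∪
          {algebraMap E1 F1 ζ})).comap (algebraMap E1 F1) := by
        rw [Subring.closure_le]
        rintro z (hz | ⟨a, ha, rfl⟩)
        · refine (?_ : (Subring.closure
            ((A.map (algebraMap E E1) : Set E1) ∪ {ζ}) : Subring E1) ≤ _) hz
          rw [Subring.closure_le]
          rintro z (⟨a, ha, rfl⟩ | rfl)
          · change algebraMap E1 F1 (algebraMap E E1 a) ∈ Subring.closure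
              ((B.map (algebraMap F F1) : Set F1) ∪ {algebraMap E1 F1 ζ})
            rw [hcomm]
            exact Subring.subset_closure (Or.inl ⟨_, Subring.subset_closure (Or.inl
              (Subring.subset_closure (Or.inl ⟨a, ha, rfl⟩))), rfl⟩)
          · exact Subring.subset_closure (Or.inr rfl)
        · change algebraMap E1 F1 (algebraMap E E1 a) ∈ Subring.closure
              ((B.map (algebraMap F F1) : Set F1) ∪ {algebraMap E1 F1 ζ})
          rw [hcomm]
          exact Subring.subset_closure (Or.inl ⟨_, Subring.subset_closure (Or.inr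
            (Or.inl ⟨a, ha, rfl⟩)), rfl⟩)
      rintro z (⟨c, hc, rfl⟩ | ⟨θ, rfl⟩)
      · exact h3 hc
      · rw [hyy]
        exact Subring.subset_closure (Or.inl ⟨_, Subring.subset_closure (Or.inr
            (Or.inr ⟨θ, rfl⟩)), rfl⟩)
    · rw [Subring.closure_le]
      rintro z (⟨a, ha, rfl⟩ | rfl)
      · exact hB1 a ha
      · exact hζ1
  obtain ⟨hdesc, hregF⟩ := desc V (algebraMap E1 F1 ζ) hflat hregd B h hBV hm
    (fun i => Subring.subset_closure (Or.inl (Subring.subset_closure (Or.inr (Or.inr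
      (Or.inl ⟨i, rfl⟩))))))
    hroot hder hmin Y' P1 hPP hreg
  -- the denominators
  obtain ⟨β0, hβ0, hβm, hβT, hβx⟩ := hSt0.den
  have hinj := (algebraMap F F1).injective
  have hAA : ∀ z : F, algebraMap F F1 z ∈ AF'.map (algebraMap F F1) → z ∈ AF' := by
    rintro z ⟨w, hw, hwz⟩
    rwa [hinj hwz] at hw
  have hA2 : ∀ a ∈ A, algebraMap E1 F1 (algebraMap E E1 a) ∈ AF'.map (algebraMap F F1) := by
    intro a ha
    rw [hcomm]
    exact ⟨_, Subring.subset_closure (Or.inl ⟨a, ha, rfl⟩), rfl⟩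
  obtain ⟨_, ⟨δ, hδ, rfl⟩, hδm, hδT, -⟩ := H.den' (AF'.map (algebraMap F F1)) (by
      intro z hz
      rcases Ug_cases hz with ⟨j, rfl⟩ | ⟨i, h, rfl⟩ | ⟨i, h, rfl⟩
      · exact ⟨_, Subring.subset_closure (Or.inr (Or.inl (Ug_b j))), rfl⟩
      · exact ⟨_, Subring.subset_closure (Or.inr (Or.inl (Ug_t i h))), rfl⟩
      · refine ⟨(t' i)⁻¹, Subring.subset_closure (Or.inr (Or.inl (Ug_t' i h))), ?_⟩
        rw [map_inv₀]) (β := algebraMap E E1 β0) (hA2 _ hβ0) (by
      refine pmon_asc (P := PP ((V.comap (algebraMap E1 F1)).comap (algebraMap E E1)) A T0) ?_ hβm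
      intro z hz
      have h3 : algebraMap E E1 z ∈ lo (V.comap (algebraMap E1 F1)).toSubring
          ((Subring.closure ((A : Set E) ∪ T0)).map (algebraMap E E1)) := by
        rw [lo_map (algebraMap E E1) (A' := ((V.comap (algebraMap E1 F1)).comap
          (algebraMap E E1)).toSubring) (fun e => Iff.rfl)]
        exact ⟨z, hz, rfl⟩
      refine lo_mono ?_ h3
      rw [RingHom.map_closure, Subring.closure_le]
      rintro _ ⟨a, ha | ha, rfl⟩
      · exact Subring.subset_closure (Or.inl (Subring.subset_closure (Or.inl ⟨a, ha, rfl⟩)))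
      · exact Subring.subset_closure (Or.inr ⟨a, ha, rfl⟩)) (by
      rintro _ ⟨a, ha, rfl⟩
      rw [← map_mul]
      exact hA2 _ (hβT a ha)) (by
      intro i
      rw [← map_mul]
      exact hA2 _ (hβx i))
  have hδT' : ∀ z ∈ TF, δ * z ∈ AF' := by
    rintro z (⟨a, ha, rfl⟩ | ⟨θ, rfl⟩)
    · apply hAA
      rw [map_mul, ← hcomm]
      exact hδT _ (Or.inl ⟨_, ⟨a, ha, rfl⟩, rfl⟩)
    · apply hAA
      rw [map_mul, ← hyy]
      exact hδT _ (Or.inr ⟨θ, rfl⟩)
  refine ⟨TF, s, Y', ⟨(hSt0.fin.image _).union (Set.finite_range _), hregF, δ, hδ, ?_, hδT', ?_⟩,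
    ?_⟩
  · exact pmon_desc hY0 hdesc hδm
  · intro i
    exact hδT' _ (Or.inr ⟨Sum.inr (Sum.inr i), rfl⟩)
  · intro z hz
    obtain ⟨h3, h4⟩ := hmon _ ⟨z, Or.inl hz, rfl⟩
    exact ⟨pmon_desc hY0 hdesc h3, fun h5 => hdesc z (h4 h5)⟩

end dfl

end Pool.Agent.H176.DT
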