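import Pool.Agent.H59.L.S8.H176.DT.Stm6
import Pool.Agent.H59.L.S8.H176.DT.H6
import Pool.Agent.H59.L.S8.H176.DT.G3

/-!
# Semistable models
-/

set_option autoImplicit false
set_option linter.unusedVariables false
set_option linter.unusedSectionVars false

universe u

namespace Pool.Agent.H176.DT

open Pool.Agent.W418.LU2 IsLocalRing Polynomial

section unit

variable {F : Type u} [Field F] {A P : Subring F} {ι : Type} [Fintype ι] {x : ι → F}

/-- Parameters can be multiplied by units. -/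
lemma regP_unit (h : RegP A P x) (w : ι → F) (w0 : ∀ i, w i ≠ 0) (w1 : ∀ i, w i ∈ P)
    (w2 : ∀ i, (w i)⁻¹ ∈ P) : RegP A P (fun i => x i * w i) := by
  have hreg := h.reg
  have hu : ∀ i, IsUnit (⟨w i, w1 i⟩ : P) := fun i =>
    (h.isUnit _).2 ⟨w0 i, h.PA (w2 i)⟩
  refine ⟨h.PA, fun i => mul_ne_zero (h.ne i) (w0 i), fun i => P.mul_mem (h.mem i) (w1 i), h.reg,
    h.inv, ?_⟩
  intro c hc hs i
  have h1 := h.ind (fun i => c i * ⟨w i, w1 i⟩) (fun i hi => by
    have h2 : c i = 0 := hc i fun h3 => hi ((Ideal.mul_unit_mem_iff_mem _ (hu i)).1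
      (show (⟨x i, h.mem i⟩ : P) * ⟨w i, w1 i⟩ ∈ maximalIdeal P from h3))
    rw [h2, zero_mul]) (by
    have h2 : ∑ i, c i * ⟨w i, w1 i⟩ * (⟨x i, h.mem i⟩ : P) =
        ∑ i, c i * (⟨x i * w i, P.mul_mem (h.mem i) (w1 i)⟩ : P) := by
      refine Finset.sum_congr rfl fun i _ => ?_
      apply Subtype.ext
      change (c i : F) * w i * x i = (c i : F) * (x i * w i)
      ring
    rw [h2]
    exact hs) i
  exact (Ideal.mul_unit_mem_iff_mem _ (hu i)).1 h1

lemma zpow_unit {w : F} (w1 : w ∈ P) (w2 : w⁻¹ ∈ P) (n : ℤ) : w ^ n ∈ P := by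
  rcases Int.eq_nat_or_neg n with ⟨k, h | h⟩
  · rw [h, zpow_natCast]
    exact P.pow_mem w1 _
  · rw [h, zpow_neg, zpow_natCast, ← inv_pow]
    exact P.pow_mem w2 _

lemma zpow_unit' {w : F} (w1 : w ∈ P) (w2 : w⁻¹ ∈ P) (n : ℤ) : (w ^ n)⁻¹ ∈ P := by
  rw [← zpow_neg]
  exact zpow_unit w1 w2 _

end unit

section core

variable {K K1 K' : Type u} [Field K] [Field K1] [Field K'] [Algebra K K1] [Algebra K1 K']
  [Algebra K K']

theorem ss_core (het : S6_et.{u}) (htor : S6_tor.{u})
    (hcomm : ∀ z : K, algebraMap K1 K' (algebraMap K K1 z) = algebraMap K K' z)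
    (V : ValuationSubring K') (C : Subring K) (hC : C ≤ (V.comap (algebraMap K K')).toSubring)
    (hCK : ∀ a : K, ∃ b ∈ C, b ≠ 0 ∧ a * b ∈ C) {s : ℕ} (x : Fin s → K)
    (hreg : RegP (V.comap (algebraMap K K')).toSubring
      (lo (V.comap (algebraMap K K')).toSubring C) x)
    (hx : ∀ i, (x i)⁻¹ ∉ V.comap (algebraMap K K')) (ω : K1)
    (hω : ∀ z : K1, ∃ g : K[X], aeval ω g = z) (d : ℕ) (hd : 0 < d) (u : K) (hu0 : u ≠ 0)
    (hu : u ∈ lo (V.comap (algebraMap K K')).toSubring C)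
    (hu' : u⁻¹ ∈ lo (V.comap (algebraMap K K')).toSubring C) (hωd : ω ^ d = algebraMap K K1 u)
    (hdV : V.valuation (d : K') = 1) (c : Fin s → ℤ) (m : Fin s → K') (A : Fin s → Fin s → ℕ)
    (hm0 : ∀ j, m j ≠ 0) (hmV : ∀ j, m j ∈ V) (hmV' : ∀ j, (m j)⁻¹ ∉ V)
    (hxm : ∀ i, algebraMap K K' (x i) * (algebraMap K1 K' ω) ^ (c i) = ∏ j, m j ^ A i j)
    (hA : ∀ i, ∃ j, A i j ≠ 0)
    (hgen : ∀ z : K', z ∈ Subfield.closure (Set.range (algebraMap K1 K') ∪ Set.range m))
    (halg : Algebra.IsAlgebraic K1 K') :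
    RegP V.toSubring (lo V.toSubring (Subring.closure ((C.map (algebraMap K K') : Set K') ∪
      ({algebraMap K1 K' ω} ∪ Set.range m)))) m := by
  have hV : (V.comap (algebraMap K1 K')).comap (algebraMap K K1) = V.comap (algebraMap K K') := by
    ext z
    change algebraMap K1 K' (algebraMap K K1 z) ∈ V ↔ algebraMap K K' z ∈ V
    rw [hcomm]
  have hω0 : ω ≠ 0 := by
    rintro rfl
    rw [zero_pow hd.ne'] at hωd
    exact hu0 ((map_eq_zero (algebraMap K K1)).1 hωd.symm)
  have hωV : (V.comap (algebraMap K1 K')).valuation ω = 1 := by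
    have h1 : (V.comap (algebraMap K1 K')).valuation ω ^ d = 1 := by
      rw [← map_pow, hωd, comap_one, hcomm, ← comap_one]
      exact (val_one_iff _ _).2 ⟨hu0, hreg.PA hu, hreg.PA hu'⟩
    exact (pow_eq_one_iff.1 h1).resolve_right hd.ne'
  rw [← hV] at hC hreg hu hu'
  have hder : (V.comap (algebraMap K1 K')).valuation
      (aeval ω (derivative (X ^ d - Polynomial.C u : K[X]))) = 1 := by
    have h2 : aeval ω (derivative (X ^ d - Polynomial.C u : K[X])) = (d : K1) * ω ^ (d - 1) := by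
      rw [derivative_sub, derivative_C, sub_zero, derivative_X_pow, map_mul, map_pow, aeval_X,
        aeval_C, map_natCast]
    rw [h2, map_mul, map_pow, hωV, one_pow, mul_one, comap_one, map_natCast]
    exact hdV
  have h1 := het (V.comap (algebraMap K1 K')) C hC hCK x hreg (fun i h => hx i (by
    rw [← hV]
    exact h)) ω (X ^ d - Polynomial.C u) (monic_X_pow_sub_C u hd.ne') (fun i => by
      rw [coeff_sub, coeff_X_pow, coeff_C]
      refine Subring.sub_mem _ ?_ ?_
      · split_ifs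
        · exact Subring.one_mem _
        · exact Subring.zero_mem _
      · split_ifs
        · exact hu
        · exact Subring.zero_mem _) (by
      rw [map_sub, map_pow, aeval_X, aeval_C, hωd, sub_self]) hder hω
  set C1 : Subring K1 := Subring.closure ((C.map (algebraMap K K1) : Set K1) ∪ {ω}) with hC1
  have hC1V : C1 ≤ (V.comap (algebraMap K1 K')).toSubring := (le_lo _ _).trans h1.PA
  have hωP : ω ∈ lo (V.comap (algebraMap K1 K')).toSubring C1 :=
    le_lo _ _ (Subring.subset_closure (Or.inr rfl))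
  have hωP' : ω⁻¹ ∈ lo (V.comap (algebraMap K1 K')).toSubring C1 :=
    inv_mem_lo hC1V hωP hω0 ((val_one_iff _ _).1 hωV).2.2
  have h2 := regP_unit h1 (fun i => ω ^ c i) (fun i => zpow_ne_zero _ hω0)
    (fun i => zpow_unit hωP hωP' _) (fun i => zpow_unit' hωP hωP' _)
  have hfr : ∀ a : K1, ∃ b ∈ C1, b ≠ 0 ∧ a * b ∈ C1 := by
    intro a
    obtain ⟨g, rfl⟩ := hω a
    have hωfr : ω ∈ fr C1 := le_fr _ (Subring.subset_closure (Or.inr rfl))
    have h3 : aeval ω g ∈ fr C1 := by
      rw [aeval_eq_sum_range]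
      refine sum_mem fun i _ => ?_
      rw [Algebra.smul_def]
      refine mul_mem ?_ (pow_mem hωfr _)
      obtain ⟨b, hb, hb0, hab⟩ := hCK (g.coeff i)
      have h4 : algebraMap K K1 (g.coeff i) = algebraMap K K1 (g.coeff i * b) *
          (algebraMap K K1 b)⁻¹ := by
        rw [map_mul, mul_assoc, mul_inv_cancel₀ ((_root_.map_ne_zero _).2 hb0), mul_one]
      rw [h4]
      exact mul_mem (le_fr _ (Subring.subset_closure (Or.inl ⟨_, hab, rfl⟩)))
        (inv_mem (le_fr _ (Subring.subset_closure (Or.inl ⟨_, hb, rfl⟩))))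
    exact h3
  have h3 := htor V C1 hC1V hfr (fun i => algebraMap K K1 (x i) * ω ^ c i) h2 (fun i h => by
    have h4 := (V.comap (algebraMap K1 K')).toSubring.mul_mem h (h1.PA (zpow_unit hωP hωP' (c i)))
    rw [mul_inv, mul_assoc, inv_mul_cancel₀ (zpow_ne_zero _ hω0), mul_one, ← map_inv₀] at h4
    refine hx i ?_
    rw [← hV]
    exact h4) m A hm0 hmV hmV' (fun i => by
      rw [map_mul, map_zpow₀, hcomm]
      exact hxm i) hA hgen halg
  have h4 : Subring.closure ((C1.map (algebraMap K1 K') : Set K') ∪ Set.range m) =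
      Subring.closure ((C.map (algebraMap K K') : Set K') ∪
        ({algebraMap K1 K' ω} ∪ Set.range m)) := by
    have h5 : C1 ≤ (Subring.closure ((C.map (algebraMap K K') : Set K') ∪
        ({algebraMap K1 K' ω} ∪ Set.range m))).comap (algebraMap K1 K') := by
      rw [hC1, Subring.closure_le]
      rintro z (⟨a, ha, rfl⟩ | rfl)
      · change algebraMap K1 K' (algebraMap K K1 a) ∈ Subring.closure
          ((C.map (algebraMap K K') : Set K') ∪ ({algebraMap K1 K' ω} ∪ Set.range m))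
        rw [hcomm]
        exact Subring.subset_closure (Or.inl ⟨a, ha, rfl⟩)
      · exact Subring.subset_closure (Or.inr (Or.inl rfl))
    apply le_antisymm
    · rw [Subring.closure_le]
      rintro z (⟨a, ha, rfl⟩ | hz)
      · exact h5 ha
      · exact Subring.subset_closure (Or.inr (Or.inr hz))
    · rw [Subring.closure_le]
      rintro z (⟨a, ha, rfl⟩ | hz | hz)
      · rw [← hcomm]
        exact Subring.subset_closure (Or.inl ⟨_, Subring.subset_closure (Or.inl ⟨a, ha, rfl⟩), rfl⟩)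
      · rw [Set.mem_singleton_iff.1 hz]
        exact Subring.subset_closure (Or.inl ⟨_, Subring.subset_closure (Or.inr rfl), rfl⟩)
      · exact Subring.subset_closure (Or.inr hz)
  rw [h4] at h3
  exact h3

theorem ss_reg (het : S6_et.{u}) (htor : S6_tor.{u})
    (V : ValuationSubring K') (C : Subring K) (hC : C ≤ (V.comap (algebraMap K K')).toSubring)
    (hCK : ∀ a : K, ∃ b ∈ C, b ≠ 0 ∧ a * b ∈ C) {s : ℕ} (x : Fin s → K)
    (hreg : RegP (V.comap (algebraMap K K')).toSubring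
      (lo (V.comap (algebraMap K K')).toSubring C) x)
    (hx : ∀ i, (x i)⁻¹ ∉ V.comap (algebraMap K K')) (ω : K') (d : ℕ) (hd : 0 < d) (u : K)
    (hu0 : u ≠ 0) (hu : u ∈ lo (V.comap (algebraMap K K')).toSubring C)
    (hu' : u⁻¹ ∈ lo (V.comap (algebraMap K K')).toSubring C) (hωd : ω ^ d = algebraMap K K' u)
    (hdV : V.valuation (d : K') = 1) (c : Fin s → ℤ) (m : Fin s → K') (A : Fin s → Fin s → ℕ)
    (hm0 : ∀ j, m j ≠ 0) (hmV : ∀ j, m j ∈ V) (hmV' : ∀ j, (m j)⁻¹ ∉ V)
    (hxm : ∀ i, algebraMap K K' (x i) * ω ^ (c i) = ∏ j, m j ^ A i j)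
    (hA : ∀ i, ∃ j, A i j ≠ 0)
    (hgen : ∀ z : K', z ∈ Subfield.closure (Set.range (algebraMap K K') ∪ Set.range m))
    (halg : Algebra.IsAlgebraic K K') :
    RegP V.toSubring (lo V.toSubring (Subring.closure ((C.map (algebraMap K K') : Set K') ∪
      ({ω} ∪ Set.range m)))) m := by
  have hmon : (X ^ d - Polynomial.C u : K[X]).Monic := monic_X_pow_sub_C u hd.ne'
  have hroot : eval₂ (algebraMap K K') ω (X ^ d - Polynomial.C u : K[X]) = 0 := by
    rw [eval₂_sub, eval₂_X_pow, eval₂_C, hωd, sub_self]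
  have hpoly := Ad_poly (algebraMap K K') ω _ hmon hroot
  have halg1 : @Algebra.IsAlgebraic (Ad (algebraMap K K') ω) K' _ _
      (Ad (algebraMap K K') ω).subtype.toAlgebra := by
    letI a1 : Algebra K (Ad (algebraMap K K') ω) := (toAd (algebraMap K K') ω).toAlgebra
    letI a2 : Algebra (Ad (algebraMap K K') ω) K' := (Ad (algebraMap K K') ω).subtype.toAlgebra
    haveI a3 : @IsScalarTower K (Ad (algebraMap K K') ω) K' a1.toSMul a2.toSMul _ :=
      @IsScalarTower.of_algebraMap_eq K (Ad (algebraMap K K') ω) K' _ _ _ a1 a2 _ fun _ => rfl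
    exact @Algebra.IsAlgebraic.tower_top K (Ad (algebraMap K K') ω) K' _ _ _ a1 a2 _ a3 halg
  exact @ss_core K (Ad (algebraMap K K') ω) K' _ _ _ (toAd (algebraMap K K') ω).toAlgebra
    (Ad (algebraMap K K') ω).subtype.toAlgebra _ het htor (fun z => rfl) V C hC hCK s x hreg hx
    (zAd (algebraMap K K') ω) hpoly d hd u hu0 hu hu' (Subtype.ext hωd) hdV c m A hm0 hmV hmV' hxm
    hA (fun z => Subfield.closure_mono (Set.union_subset_union_left _ (by
      rintro _ ⟨w, rfl⟩
      exact ⟨toAd (algebraMap K K') ω w, rfl⟩)) (hgen z)) halg1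

end core

end Pool.Agent.H176.DT
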