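import Pool.Agent.H59.L.S8.W418.LU2.Final

/-!
# Statements for the project DT (log uniformization of defectless towers)
-/

set_option autoImplicit false
set_option linter.unusedVariables false
set_option linter.unusedSectionVars false

universe u

namespace Pool.Agent.H176.DT

open Pool.Agent.W418.LU2 IsLocalRing Polynomial

section defs

variable {F : Type u} [Field F]

/-- The local ring of `A[T]` at the centre of `V`. -/
abbrev PP (V : ValuationSubring F) (A : Subring F) (T : Set F) : Subring F :=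
  lo V.toSubring (Subring.closure ((A : Set F) ∪ T))

/-- A stage over `A`: the local ring of `A[T]` is regular, the nonunits among the `x i` are a part
of a regular system of parameters, and there is a common denominator `β ∈ A` of the elements of `T`
and of the coordinates, which is a unit times a monomial in the coordinates. -/
structure St (V : ValuationSubring F) (A : Subring F) (T : Set F) {ι : Type} [Fintype ι]
    (x : ι → F) : Prop where
  fin : T.Finite
  reg : RegP V.toSubring (PP V A T) x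
  den : ∃ β ∈ A, PMon (PP V A T) x β ∧ (∀ t ∈ T, β * t ∈ A) ∧ ∀ i, β * x i ∈ A

/-- Strong uniformization over `A`. -/
def SU (V : ValuationSubring F) (A : Subring F) : Prop :=
  ∀ G : Set F, G.Finite → (∀ g ∈ G, g ≠ 0) →
    ∃ (T : Set F) (n : ℕ) (x : Fin n → F), St V A T x ∧
      ∀ g ∈ G, PMon (PP V A T) x g ∧ (g ∈ V → g ∈ PP V A T)

/-- `A` is a model of `V`. -/
def Mod (V : ValuationSubring F) (A : Subring F) : Prop :=
  A ≤ V.toSubring ∧ ∀ z : F, ∃ a ∈ A, ∃ b ∈ A, b ≠ 0 ∧ z = a * b⁻¹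

/-- The nonunits. -/
def NU (A : Subring F) (z : F) : Prop := ¬ (z ≠ 0 ∧ z⁻¹ ∈ A)

/-- The `x i` are a full regular system of parameters. -/
structure Full (A P : Subring F) {ι : Type} [Fintype ι] (x : ι → F) : Prop where
  PA : P ≤ A
  mem : ∀ i, x i ∈ P
  reg : IsRegularLocalRing P
  inv : ∀ y ∈ P, y ≠ 0 → y⁻¹ ∈ A → y⁻¹ ∈ P
  span : Ideal.span (Set.range fun i => (⟨x i, mem i⟩ : P)) =
    @maximalIdeal P _ reg.toIsLocalRing
  dim : ringKrullDim P = (Fintype.card ι : ℕ)

end defs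

/-- The local ring of `C[y]`, with the `y θ` replaced by variables. -/
noncomputable abbrev RZ {E K : Type u} [Field E] [Field K] [Algebra E K] {Θ : Type} (C : Subring E)
    (y : Θ → K) (V : ValuationSubring K) : Subring (FF E Θ) :=
  lo (AT E y V) (Subring.closure ((C.map (emb E Θ) : Set (FF E Θ)) ∪ Set.range (Zc E)))

/-! ## Monomials -/

/-- Factors of monomials are monomials. -/
def S_fac : Prop :=
  ∀ {F : Type u} [Field F] {A P : Subring F} {ι : Type} [Fintype ι] {x : ι → F}, RegP A P x →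
    ∀ a b : F, a ∈ P → b ∈ P → PMon P x (a * b) → PMon P x a

/-- The exponents of monomials in the local ring. -/
def S_expo : Prop :=
  ∀ {F : Type u} [Field F] {A P : Subring F} {ι : Type} [Fintype ι] {x : ι → F}, RegP A P x →
    ∀ δ : ι → ℤ, mo x δ ∈ P → ∀ i, (x i)⁻¹ ∉ A → 0 ≤ δ i

/-- The extension to full systems of parameters. -/
def S_ext : Prop :=
  ∀ {F : Type u} [Field F] {A P : Subring F} {ι : Type} [Fintype ι] {x : ι → F}, RegP A P x →
    (∀ i, (x i)⁻¹ ∉ A) → ∃ (m : ℕ) (z : Fin m → F), Full A P (Sum.elim x z)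

/-- The transport of full systems of parameters. -/
def S_map : Prop :=
  ∀ {E F : Type u} [Field E] [Field F] (f : E →+* F) {A : Subring F} {A' : Subring E}
    (_ : ∀ e : E, f e ∈ A ↔ e ∈ A') {C : Subring E} {ι : Type} [Fintype ι] {x : ι → E},
    Full A' (lo A' C) x → Full A (lo A (C.map f)) fun i => f (x i)

/-! ## Stages -/

/-- The comparison of monomials. -/
def S_ref : Prop :=
  ∀ {F : Type u} [Field F] (V : ValuationSubring F) (A : Subring F) (T : Set F) {ι : Type}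
    [Fintype ι] (x : ι → F), St V A T x → ∀ G : Set F, G.Finite →
    (∀ g ∈ G, PMon (PP V A T) x g) →
    ∃ (T' : Set F) (x' : ι → F), T ⊆ T' ∧ St V A T' x' ∧ Ref x x' ∧
      (∀ i, ∃ δ : ι → ℤ, x' i = mo x δ) ∧
      (∀ g, PMon (PP V A T) x g → PMon (PP V A T') x' g) ∧
      ∀ g ∈ G, g ∈ V → g ∈ PP V A T'

/-- Stages with independent values. -/
def S_ind : Prop :=
  ∀ {F : Type u} [Field F] (V : ValuationSubring F) (A : Subring F), SU V A →
    ∀ G : Set F, G.Finite → (∀ g ∈ G, g ≠ 0) →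
    ∃ (T : Set F) (s : ℕ) (x : Fin s → F), St V A T x ∧ (∀ i, (x i)⁻¹ ∉ V) ∧
      (∀ δ : Fin s → ℤ, V.valuation (mo x δ) = 1 → δ = 0) ∧
      ∀ g ∈ G, PMon (PP V A T) x g ∧ (g ∈ V → g ∈ PP V A T)

/-- The base. -/
def S_base : Prop :=
  ∀ {E : Type u} [Field E] (W : ValuationSubring E) (R : Subring E) [IsNoetherianRing R],
    Mod W R → LogUnif W R → SU W R

/-- The change of the model. -/
def S_move : Prop :=
  ∀ {F : Type u} [Field F] (V : ValuationSubring F) (A : Subring F), Mod V A →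
    ∀ U : Set F, U.Finite → (∀ u ∈ U, u ∈ V) →
    (SU V A ↔ SU V (Subring.closure ((A : Set F) ∪ U)))

/-- From strong uniformization to log uniformization. -/
def S_fin : Prop :=
  ∀ {F : Type u} [Field F] (V : ValuationSubring F) (A : Subring F) [IsNoetherianRing A],
    A ≤ V.toSubring → SU V A → LogUnif V A

/-- Hilbert's basis theorem for subrings. -/
def S_noe : Prop :=
  ∀ {F : Type u} [Field F] (R : Subring F) [IsNoetherianRing R] (U : Set F), U.Finite →
    IsNoetherianRing (Subring.closure ((R : Set F) ∪ U))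

/-! ## The transcendental step -/

/-- The transcendental step. -/
def S_tr : Prop :=
  ∀ {E F : Type u} [Field E] [Field F] [Algebra E F] (V : ValuationSubring F) (A : Subring E),
    Mod (V.comap (algebraMap E F)) A → SU (V.comap (algebraMap E F)) A →
    ∀ t : F, Transcendental E t →
    (∀ z : F, ∃ f g : E[X], aeval t g ≠ 0 ∧ z * aeval t g = aeval t f) →
    (∀ f : E[X], ∃ a : E, ∀ j : ℕ, V.valuation (algebraMap E F ((taylor a f).coeff j) *
      (t - algebraMap E F a) ^ j) ≤ V.valuation (aeval t f)) →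
    ∃ w : F, (w = t ∨ w = t⁻¹) ∧ w ∈ V ∧
      SU V (Subring.closure ((A.map (algebraMap E F) : Set F) ∪ {w}))

/-! ## Adjoining variables and cutting -/

/-- Adjoining a transcendental element whose residue is algebraic. -/
def S_adj : Prop :=
  ∀ {F : Type u} [Field F] {A S : Subring F} {ι : Type} [Fintype ι] {x : ι → F}, Loc A → S ≤ A →
    Full A (lo A S) x → ∀ t : F, t ∈ A →
    (∀ g : (lo A S)[X], eval₂ (lo A S).subtype t g = 0 → g = 0) →
    ∀ g : (lo A S)[X], g.Monic → NU A (eval₂ (lo A S).subtype t g) →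
    (∀ h : (lo A S)[X], h.degree < g.degree → NU A (eval₂ (lo A S).subtype t h) →
      ∀ i, NU A (h.coeff i : F)) →
    Full A (lo A (Subring.closure (insert t (S : Set F))))
      (Sum.elim x fun _ : Unit => eval₂ (lo A S).subtype t g)

/-- Cutting out equations. -/
def S_cut : Prop :=
  ∀ {E K : Type u} [Field E] [Field K] [Algebra E K] {Θ : Type} [Fintype Θ] (y : Θ → K)
    (V : ValuationSubring K) (C : Subring E), C ≤ (V.comap (algebraMap E K)).toSubring →
    (∀ a : E, ∃ b ∈ C, b ≠ 0 ∧ a * b ∈ C) → (∀ θ, y θ ∈ V) →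
    ∀ [IsRegularLocalRing (RZ C y V)] {κ σ : Type} [Fintype κ] [Fintype σ]
      (Y : σ → RZ C y V) (e : κ → RZ C y V), Ind (Sum.elim Y e) →
    (∀ k, Pr (ph (E := E) y) (e k : FF E Θ) 0) →
    ∀ x : σ → K, (∀ j, Pr (ph (E := E) y) (Y j : FF E Θ) (x j)) → (∀ j, x j ≠ 0) →
    (∀ z : K, ∃ a b : MvPolynomial Θ E, ph (E := E) y b ≠ 0 ∧
      z * ph (E := E) y b = ph (E := E) y a) →
    Algebra.trdeg E K + (Fintype.card κ : Cardinal.{u}) = Fintype.card Θ →
    RegP V.toSubring (lo V.toSubring (Subring.closure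
      ((C.map (algebraMap E K) : Set K) ∪ Set.range y))) x

/-- The variables are transcendental over the stages without them. -/
def S_alg : Prop :=
  ∀ {E : Type u} [Field E] {Θ : Type} [Fintype Θ] (A : Subring (FF E Θ)) (C : Subring E)
    (U : Set Θ) (θ : Θ), θ ∉ U →
    ∀ g : (lo A (Subring.closure ((C.map (emb E Θ) : Set (FF E Θ)) ∪ Zc E '' U)))[X],
      eval₂ (lo A (Subring.closure ((C.map (emb E Θ) : Set (FF E Θ)) ∪ Zc E '' U))).subtype
        (Zc E θ) g = 0 → g = 0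

/-! ## The etale step -/

/-- The data of an unramified element: `μ` is a polynomial with the root `η` which is congruent to
`g h` modulo the maximal ideal, `g` is irreducible modulo the maximal ideal and vanishes at the
residue of `η`, and `h η` is a unit. -/
def Unr {E F : Type u} [Field E] [Field F] [Algebra E F] (V : ValuationSubring F) (η : F)
    (μ g h : E[X]) : Prop :=
  μ.Monic ∧ g.Monic ∧ (∀ i, algebraMap E F (μ.coeff i) ∈ V) ∧
    (∀ i, algebraMap E F (g.coeff i) ∈ V) ∧ (∀ i, algebraMap E F (h.coeff i) ∈ V) ∧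
    (∀ i, V.valuation (algebraMap E F ((μ - g * h).coeff i)) < 1) ∧ aeval η μ = 0 ∧
    V.valuation (aeval η g) < 1 ∧ V.valuation (aeval η h) = 1 ∧
    ∀ q : E[X], (∀ i, algebraMap E F (q.coeff i) ∈ V) → q.degree < g.degree →
      V.valuation (aeval η q) < 1 → ∀ i, V.valuation (algebraMap E F (q.coeff i)) < 1

/-- Simple roots are unramified. -/
def S_et : Prop :=
  ∀ {E F : Type u} [Field E] [Field F] [Algebra E F] (V : ValuationSubring F) (η : F)
    (f : E[X]), f.Monic → (∀ i, algebraMap E F (f.coeff i) ∈ V) → aeval η f = 0 →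
    V.valuation (aeval η (derivative f)) = 1 → ∃ μ g h : E[X], Unr V η μ g h

/-- The unramified step. -/
def S_unr : Prop :=
  ∀ {E F : Type u} [Field E] [Field F] [Algebra E F] (V : ValuationSubring F) (A : Subring E),
    Mod (V.comap (algebraMap E F)) A → SU (V.comap (algebraMap E F)) A →
    ∀ η : F, (∀ z : F, ∃ f : E[X], aeval η f = z) → ∀ μ g h : E[X], Unr V η μ g h →
    η ∈ V ∧ SU V (Subring.closure ((A.map (algebraMap E F) : Set F) ∪ {η}))

/-! ## Lattices, values and residues -/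

/-- The lemma of Elliott (Perron's algorithm). -/
def S_ell : Prop :=
  ∀ {Γ : Type u} [AddCommGroup Γ] [LinearOrder Γ] [IsOrderedAddMonoid Γ] (D : Finset Γ),
    (∀ d ∈ D, 0 < d) → ∃ (s : ℕ) (η : Fin s → Γ), (∀ j, 0 < η j) ∧ LinearIndependent ℤ η ∧
      (∀ j, η j ∈ AddSubgroup.closure (D : Set Γ)) ∧
      ∀ d ∈ D, ∃ n : Fin s → ℕ, d = ∑ j, n j • η j

/-- Triangular presentations of finite extensions of abelian groups. -/
def S_val : Prop :=
  ∀ {Γ : Type u} [CommGroup Γ] (H : Subgroup Γ) (q : ℕ) (t : Fin q → Γ),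
    (∀ i, ∃ N : ℕ, 0 < N ∧ t i ^ N ∈ H) →
    ∃ ee : Fin q → ℕ, (∀ i, 0 < ee i) ∧
      (∀ i, t i ^ ee i ∈ H ⊔ Subgroup.closure {z | ∃ j, j < i ∧ t j = z}) ∧
      (∀ (i : Fin q) (k : ℤ), t i ^ k ∈ H ⊔ Subgroup.closure {z | ∃ j, j < i ∧ t j = z} →
        (ee i : ℤ) ∣ k) ∧
      ∀ z ∈ H ⊔ Subgroup.closure (Set.range t), ∃! μ : (i : Fin q) → Fin (ee i),
        z * (∏ i, t i ^ (μ i : ℕ))⁻¹ ∈ H

/-- Triangular presentations of finite field extensions. -/
def S_res : Prop :=
  ∀ {k κ : Type u} [Field k] [Field κ] [Algebra k κ] (r : ℕ) (b : Fin r → κ),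
    (∀ j, IsAlgebraic k (b j)) →
    ∃ ff : Fin r → ℕ, (∀ j, 0 < ff j) ∧
      (∀ j, ∃ h : Fin (ff j) → MvPolynomial (Fin r) k,
        (∀ l, h l ∈ MvPolynomial.supported k {i | i < j}) ∧
        b j ^ ff j + ∑ l, MvPolynomial.aeval b (h l) * b j ^ (l : ℕ) = 0) ∧
      LinearIndependent k (fun ν : (j : Fin r) → Fin (ff j) => ∏ j, b j ^ (ν j : ℕ)) ∧
      ∀ j : ℕ, ∀ w ∈ IntermediateField.adjoin k {z | ∃ l : Fin r, (l : ℕ) < j ∧ b l = z},
        ∃ c : ((i : Fin r) → Fin (ff i)) → k,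
          (∀ ν, c ν ≠ 0 → ∀ l : Fin r, j ≤ (l : ℕ) → (ν l : ℕ) = 0) ∧
          w = ∑ ν, c ν • ∏ i, b i ^ (ν i : ℕ)

/-- The structure of defectless extensions: `t` generates the value group, `b` generates the
residue field. -/
structure Str {E F : Type u} [Field E] [Field F] [Algebra E F] (V : ValuationSubring F) {q r : ℕ}
    (t : Fin q → F) (ee : Fin q → ℕ) (b : Fin r → F) (ff : Fin r → ℕ) : Prop where
  t0 : ∀ i, t i ≠ 0
  e0 : ∀ i, 0 < ee i
  b1 : ∀ j, V.valuation (b j) = 1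
  f0 : ∀ j, 0 < ff j
  rel : ∀ i, ∃ (a : E) (m : Fin q → ℤ), a ≠ 0 ∧ (∀ j, i ≤ j → m j = 0) ∧
    V.valuation (t i ^ ee i) = V.valuation (algebraMap E F a * mo t m)
  min : ∀ (i : Fin q) (k : ℤ) (a : E) (m : Fin q → ℤ), a ≠ 0 → (∀ j, i ≤ j → m j = 0) →
    V.valuation (t i ^ k) = V.valuation (algebraMap E F a * mo t m) → (ee i : ℤ) ∣ k
  res : ∀ j, ∃ h : Fin (ff j) → MvPolynomial (Fin r) E,
    (∀ l, h l ∈ MvPolynomial.supported E {i | i < j}) ∧
    (∀ l m, algebraMap E F ((h l).coeff m) ∈ V) ∧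
    V.valuation (b j ^ ff j + ∑ l, MvPolynomial.aeval b (h l) * b j ^ (l : ℕ)) < 1
  fld : ∀ j : ℕ, ∀ w ∈ lo V.toSubring (Subring.closure
      (((V.comap (algebraMap E F)).toSubring.map (algebraMap E F) : Set F) ∪
        {z | ∃ l : Fin r, (l : ℕ) < j ∧ b l = z})),
    ∃ c : ((i : Fin r) → Fin (ff i)) → E, (∀ ν, algebraMap E F (c ν) ∈ V) ∧
      (∀ ν, c ν ≠ 0 → ∀ l : Fin r, j ≤ (l : ℕ) → (ν l : ℕ) = 0) ∧
      V.valuation (w - ∑ ν, algebraMap E F (c ν) * ∏ i, b i ^ (ν i : ℕ)) < 1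
  orth : ∀ (c : ((i : Fin q) → Fin (ee i)) × ((j : Fin r) → Fin (ff j)) → E) (p),
    V.valuation (algebraMap E F (c p) * ((∏ i, t i ^ (p.1 i : ℕ)) * ∏ j, b j ^ (p.2 j : ℕ))) ≤
      V.valuation (∑ p, algebraMap E F (c p) *
        ((∏ i, t i ^ (p.1 i : ℕ)) * ∏ j, b j ^ (p.2 j : ℕ)))
  span : ∀ z : F, ∃ c : ((i : Fin q) → Fin (ee i)) × ((j : Fin r) → Fin (ff j)) → E,
    z = ∑ p, algebraMap E F (c p) * ((∏ i, t i ^ (p.1 i : ℕ)) * ∏ j, b j ^ (p.2 j : ℕ))

/-- Orthogonal bases. -/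
def Orth {E F : Type u} [Field E] [Field F] [Algebra E F] (V : ValuationSubring F) {n : ℕ}
    (β : Fin n → F) : Prop :=
  (∀ i, β i ≠ 0) ∧ (∀ z : F, ∃ c : Fin n → E, z = ∑ i, algebraMap E F (c i) * β i) ∧
    ∀ (c : Fin n → E) (i : Fin n), V.valuation (algebraMap E F (c i) * β i) ≤
      V.valuation (∑ j, algebraMap E F (c j) * β j)

/-- The structure of extensions with an orthogonal basis. -/
def S_str : Prop :=
  ∀ {E F : Type u} [Field E] [Field F] [Algebra E F] (V : ValuationSubring F) (n : ℕ)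
    (β : Fin n → F), Orth (E := E) V β →
    ∃ (q r : ℕ) (t : Fin q → F) (ee : Fin q → ℕ) (b : Fin r → F) (ff : Fin r → ℕ),
      Str (E := E) V t ee b ff

end Pool.Agent.H176.DT
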