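import Pool.Agent.H59.L.S8.H176.DT.Stm

/-!
# Statements for the project DT, part four (defectless finite extensions of arbitrary rank)
-/

set_option autoImplicit false
set_option linter.unusedVariables false
set_option linter.unusedSectionVars false

universe u

namespace Pool.Agent.H176.DT

open Pool.Agent.W418.LU2 IsLocalRing Polynomial

/-- The etale local extension `P → P1` where `P` is the local ring of `B` at the centre and `P1` is
the local ring of `B[ζ]` at the centre: descent of ideals, unramifiedness, incomparability. -/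
def S5_flat : Prop :=
  ∀ {F F1 : Type u} [Field F] [Field F1] [Algebra F F1] (V : ValuationSubring F1) (ζ : F1)
    (B : Subring F) (h : F[X]), B ≤ (V.comap (algebraMap F F1)).toSubring →
    h.Monic → (∀ i, h.coeff i ∈ B) → aeval ζ h = 0 → V.valuation (aeval ζ (derivative h)) = 1 →
    (∀ q : F[X], q.degree < h.degree → aeval ζ q = 0 → q = 0) →
    ∀ (P : Subring F) (P1 : Subring F1), P = lo (V.comap (algebraMap F F1)).toSubring B →
    P1 = lo V.toSubring (Subring.closure ((B.map (algebraMap F F1) : Set F1) ∪ {ζ})) →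
    ∀ inc : P →+* P1, (∀ z : P, ((inc z : P1) : F1) = algebraMap F F1 z) →
    (∀ z : F, algebraMap F F1 z ∈ P1 → z ∈ P) ∧
    (∀ (I : Ideal P) (z : P), inc z ∈ I.map inc → z ∈ I) ∧
    (∀ z : P1, ¬ IsUnit z → z ∈ (Ideal.span {y : P | ¬ IsUnit y}).map inc) ∧
    ∀ p q : Ideal P1, p.IsPrime → q.IsPrime → p < q → p.comap inc < q.comap inc

/-- Descent of regularity. -/
def S5_reg : Prop :=
  ∀ {P P1 : Type u} [CommRing P] [CommRing P1] [IsLocalRing P] [IsRegularLocalRing P1]
    (inc : P →+* P1), (∀ (I : Ideal P) (z : P), inc z ∈ I.map inc → z ∈ I) →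
    maximalIdeal P1 = (maximalIdeal P).map inc →
    (∀ p q : Ideal P1, p.IsPrime → q.IsPrime → p < q → p.comap inc < q.comap inc) →
    IsRegularLocalRing P ∧ ∀ {ι : Type} [Fintype ι] (y : ι → P), IndN (fun i => inc (y i)) → IndN y

/-- The stages over an unramified extension which are defined over the base field. -/
def S5_et : Prop :=
  ∀ {E F : Type u} [Field E] [Field F] [Algebra E F] (V : ValuationSubring F) (A : Subring E),
    Mod (V.comap (algebraMap E F)) A → SU (V.comap (algebraMap E F)) A →
    ∀ η : F, (∀ z : F, ∃ f : E[X], aeval η f = z) → ∀ μ g h : E[X], Unr V η μ g h →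
    ∀ G : Set F, G.Finite → (∀ z ∈ G, z ≠ 0) →
    ∃ (T : Set E) (s : ℕ) (x : Fin s → E), St (V.comap (algebraMap E F)) A T x ∧
      (∀ i, (x i)⁻¹ ∉ V.comap (algebraMap E F)) ∧
      (∀ δ : Fin s → ℤ, (V.comap (algebraMap E F)).valuation (mo x δ) = 1 → δ = 0) ∧
      St V (Subring.closure ((A.map (algebraMap E F) : Set F) ∪ {η})) (algebraMap E F '' T)
        (fun i => algebraMap E F (x i)) ∧
      ∀ z ∈ G, PMon (PP V (Subring.closure ((A.map (algebraMap E F) : Set F) ∪ {η}))
          (algebraMap E F '' T)) (fun i => algebraMap E F (x i)) z ∧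
        (z ∈ V → z ∈ PP V (Subring.closure ((A.map (algebraMap E F) : Set F) ∪ {η}))
          (algebraMap E F '' T))

end Pool.Agent.H176.DT
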