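import Pool.Agent.H59.L.S8.H176.DT.B16

/-!
# Statements for the project DT, part five (semistable models)
-/

set_option autoImplicit false
set_option linter.unusedVariables false
set_option linter.unusedSectionVars false

universe u

namespace Pool.Agent.H176.DT

open Pool.Agent.W418.LU2 IsLocalRing Polynomial

/-- Adjoining a simple root of a polynomial over the local ring of a stage. -/
def S6_et : Prop :=
  ∀ {E F : Type u} [Field E] [Field F] [Algebra E F] (V : ValuationSubring F) (C : Subring E),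
    C ≤ (V.comap (algebraMap E F)).toSubring → (∀ a : E, ∃ b ∈ C, b ≠ 0 ∧ a * b ∈ C) →
    ∀ {s : ℕ} (x : Fin s → E),
      RegP (V.comap (algebraMap E F)).toSubring (lo (V.comap (algebraMap E F)).toSubring C) x →
      (∀ i, (x i)⁻¹ ∉ (V.comap (algebraMap E F)).toSubring) →
    ∀ (ω : F) (f : E[X]), f.Monic →
      (∀ i, f.coeff i ∈ lo (V.comap (algebraMap E F)).toSubring C) → aeval ω f = 0 →
      V.valuation (aeval ω (derivative f)) = 1 → (∀ z : F, ∃ g : E[X], aeval ω g = z) →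
      RegP V.toSubring (lo V.toSubring (Subring.closure
        ((C.map (algebraMap E F) : Set F) ∪ {ω}))) (fun i => algebraMap E F (x i))

/-- Extensions by roots of monomials in the parameters. -/
def S6_tor : Prop :=
  ∀ {E F : Type u} [Field E] [Field F] [Algebra E F] (V : ValuationSubring F) (C : Subring E),
    C ≤ (V.comap (algebraMap E F)).toSubring → (∀ a : E, ∃ b ∈ C, b ≠ 0 ∧ a * b ∈ C) →
    ∀ {s : ℕ} (x : Fin s → E),
      RegP (V.comap (algebraMap E F)).toSubring (lo (V.comap (algebraMap E F)).toSubring C) x →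
      (∀ i, (x i)⁻¹ ∉ (V.comap (algebraMap E F)).toSubring) →
    ∀ (m : Fin s → F) (A : Fin s → Fin s → ℕ), (∀ j, m j ≠ 0) → (∀ j, m j ∈ V) →
      (∀ j, (m j)⁻¹ ∉ V) → (∀ i, algebraMap E F (x i) = ∏ j, m j ^ A i j) →
      (∀ i, ∃ j, A i j ≠ 0) →
      (∀ z : F, z ∈ Subfield.closure (Set.range (algebraMap E F) ∪ Set.range m)) →
      Algebra.IsAlgebraic E F →
      RegP V.toSubring (lo V.toSubring (Subring.closure
        ((C.map (algebraMap E F) : Set F) ∪ Set.range m))) m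

/-- Completion of a primitive vector to a basis. -/
def S6_lat : Prop :=
  ∀ {s : ℕ} (γ : Fin s → ℤ), (∃ c : Fin s → ℤ, ∑ i, c i * γ i = 1) →
    ∃ (t : ℕ) (_ : s = t + 1) (g : Fin t → Fin s → ℤ) (a1 : Fin s → ℤ) (a : Fin s → Fin t → ℤ),
      (∀ i, Pi.single i 1 = a1 i • γ + ∑ j, a i j • g j) ∧
      ∀ (n : ℤ) (b : Fin t → ℤ), n • γ + ∑ j, b j • g j = 0 → n = 0 ∧ b = 0

/-- The simplex. -/
def S6_sort : Prop :=
  ∀ {t : ℕ} (r : Fin t → ℝ), (∀ j, 0 < r j ∧ r j < 1) → Function.Injective r →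
    ∃ (n : Fin (t + 1) → ℤ) (h : Fin (t + 1) → Fin t → ℤ) (S : Fin (t + 1) → Fin t → ℕ),
      (∀ k, 0 < (n k : ℝ) + ∑ j, (h k j : ℝ) * r j) ∧ ∑ k, n k = 1 ∧ (∀ j, ∑ k, h k j = 0) ∧
      (∀ k j, S k j ≤ 1) ∧ (∀ j, ∑ k, (S k j : ℤ) * n k = 0) ∧
      ∀ j j', ∑ k, (S k j : ℤ) * h k j' = if j = j' then 1 else 0

/-- The monomials with product `ϖ`. -/
def S6_comb : Prop :=
  ∀ {E : Type u} [Field E] (v : Valuation E NNReal) {s : ℕ} (x : Fin s → E), (∀ i, x i ≠ 0) →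
    (∀ i, v (x i) < 1) → (∀ δ : Fin s → ℤ, v (mo x δ) = 1 → δ = 0) →
    ∀ γ : Fin s → ℤ, (∃ c : Fin s → ℤ, ∑ i, c i * γ i = 1) → v (mo x γ) < 1 →
    ∃ N0 : ℕ, ∀ N : ℕ, N0 ≤ N → 0 < N → ∀ {F : Type u} [Field F] [Algebra E F]
      (V : ValuationSubring F), V.comap (algebraMap E F) = v.valuationSubring →
      ∀ x' : Fin s → F,
      (∀ i, ∃ w : F, w ≠ 0 ∧ w ∈ V ∧ w⁻¹ ∈ V ∧ x' i = w * algebraMap E F (x i)) →
      ∀ ϖ : F, ϖ ^ N = mo x' γ →
      ∃ (m : Fin s → F) (A : Fin s → Fin s → ℕ), (∀ j, m j ≠ 0) ∧ (∀ j, m j ∈ V) ∧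
        (∀ j, (m j)⁻¹ ∉ V) ∧ (∀ i, x' i = ∏ j, m j ^ A i j) ∧ (∀ i, ∃ j, A i j ≠ 0) ∧
        ∏ j, m j = ϖ ∧ ∀ j, ∃ (n : ℤ) (g : Fin s → ℤ), m j = ϖ ^ n * mo x' g

end Pool.Agent.H176.DT
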